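import Pool.Agent.Lib.MP_64d474_lc.AK.Defs

/-!
# Separating exponents
-/

set_option autoImplicit false

namespace AK

theorem sep {Γ : Type*} [LinearOrderedCommGroupWithZero Γ] {ι : Type*} (e : ℕ) (U : ι → Γ)
    (U' : Fin e → ι → Γ) (hU : ∀ i, U i ≠ 0) (h : ∀ l, ∃ i, U i ≠ U' l i) :
    ∃ (i : Fin e → ι) (c : Fin e → ℕ), (∀ m, c m ≤ e + 1) ∧
      ∀ l, ∏ m, U (i m) ^ c m ≠ ∏ m, U' l (i m) ^ c m := by
  classical
  choose i hi using h
  let S : Finset (Fin e → ℕ) := Fintype.piFinset fun _ : Fin e => Finset.Icc 1 (e + 1)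
  let Bad : Fin e → Finset (Fin e → ℕ) := fun l =>
    S.filter fun c => ∏ m, U (i m) ^ c m = ∏ m, U' l (i m) ^ c m
  have key : ∀ (l : Fin e) (c c' : Fin e → ℕ), (∀ m, m ≠ l → c m = c' m) →
      ∏ m, U (i m) ^ c m = ∏ m, U' l (i m) ^ c m →
      ∏ m, U (i m) ^ c' m = ∏ m, U' l (i m) ^ c' m → ¬ c l < c' l := by
    intro l c c' hcc h1 h2 hlt
    rw [← Finset.mul_prod_erase Finset.univ _ (Finset.mem_univ l),
      ← Finset.mul_prod_erase Finset.univ _ (Finset.mem_univ l)] at h1 h2
    have e1 : ∏ m ∈ Finset.univ.erase l, U (i m) ^ c' m =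
        ∏ m ∈ Finset.univ.erase l, U (i m) ^ c m :=
      Finset.prod_congr rfl fun m hm => by rw [hcc m (Finset.ne_of_mem_erase hm)]
    have e2 : ∏ m ∈ Finset.univ.erase l, U' l (i m) ^ c' m =
        ∏ m ∈ Finset.univ.erase l, U' l (i m) ^ c m :=
      Finset.prod_congr rfl fun m hm => by rw [hcc m (Finset.ne_of_mem_erase hm)]
    rw [e1, e2] at h2
    have hP0 : ∏ m ∈ Finset.univ.erase l, U (i m) ^ c m ≠ 0 :=
      Finset.prod_ne_zero_iff.2 fun m _ => pow_ne_zero _ (hU _)
    have hl0 : U (i l) ^ c l * ∏ m ∈ Finset.univ.erase l, U (i m) ^ c m ≠ 0 :=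
      mul_ne_zero (pow_ne_zero _ (hU _)) hP0
    have e3 : U (i l) ^ (c' l - c l) *
          (U (i l) ^ c l * ∏ m ∈ Finset.univ.erase l, U (i m) ^ c m) =
        U' l (i l) ^ (c' l - c l) *
          (U' l (i l) ^ c l * ∏ m ∈ Finset.univ.erase l, U' l (i m) ^ c m) := by
      rw [← mul_assoc, ← pow_add, ← mul_assoc, ← pow_add, Nat.sub_add_cancel hlt.le]
      exact h2
    rw [← h1] at e3
    have e4 : U (i l) ^ (c' l - c l) = U' l (i l) ^ (c' l - c l) :=
      mul_right_cancel₀ hl0 e3
    exact hi l ((pow_left_inj₀ zero_le zero_le (by omega)).1 e4)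
  have hinj : ∀ l, Set.InjOn (fun c : Fin e → ℕ => Function.update c l 1) (Bad l) := by
    intro l c hc c' hc' hcc
    have hc2 := (Finset.mem_filter.1 (Finset.mem_coe.1 hc)).2
    have hc2' := (Finset.mem_filter.1 (Finset.mem_coe.1 hc')).2
    have hne : ∀ m, m ≠ l → c m = c' m := by
      intro m hm
      have := congrFun hcc m
      simpa [Function.update_of_ne hm] using this
    have h1 := key l c c' hne hc2 hc2'
    have h2 := key l c' c (fun m hm => (hne m hm).symm) hc2' hc2
    funext m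
    by_cases hm : m = l
    · subst hm; omega
    · exact hne m hm
  have hcard : ∀ l, (Bad l).card ≤ (e + 1) ^ (e - 1) := by
    intro l
    have himg : (Bad l).image (fun c : Fin e → ℕ => Function.update c l 1) ⊆
        Fintype.piFinset (Function.update (fun _ : Fin e => Finset.Icc 1 (e + 1)) l {1}) := by
      intro d hd
      obtain ⟨c, hc, rfl⟩ := Finset.mem_image.1 hd
      have hcS := Fintype.mem_piFinset.1 (Finset.mem_filter.1 hc).1
      rw [Fintype.mem_piFinset]
      intro m
      by_cases hm : m = l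
      · subst hm; simp
      · rw [Function.update_of_ne hm, Function.update_of_ne hm]
        exact hcS m
    have h1 := Finset.card_le_card himg
    rw [Finset.card_image_of_injOn (hinj l), Fintype.card_piFinset] at h1
    refine h1.trans (le_of_eq ?_)
    rw [← Finset.mul_prod_erase Finset.univ _ (Finset.mem_univ l), Function.update_self,
      Finset.card_singleton, one_mul,
      Finset.prod_congr rfl fun m hm => by rw [Function.update_of_ne (Finset.ne_of_mem_erase hm)]]
    simp
  have hlt : (Finset.univ.biUnion Bad).card < S.card := by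
    have h1 : (Finset.univ.biUnion Bad).card ≤ e * (e + 1) ^ (e - 1) := by
      refine Finset.card_biUnion_le.trans ?_
      refine (Finset.sum_le_sum fun l _ => hcard l).trans ?_
      simp
    have h2 : S.card = (e + 1) ^ e := by
      simp [S, Fintype.card_piFinset]
    rw [h2]
    refine lt_of_le_of_lt h1 ?_
    rcases Nat.eq_zero_or_pos e with h0 | h0
    · subst h0; simp
    · calc e * (e + 1) ^ (e - 1) < (e + 1) * (e + 1) ^ (e - 1) :=
            Nat.mul_lt_mul_of_pos_right (Nat.lt_succ_self e) (pow_pos (Nat.succ_pos e) _)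
        _ = (e + 1) ^ e := by rw [← pow_succ', Nat.sub_add_cancel h0]
  obtain ⟨c, hcS, hc⟩ := Finset.exists_mem_notMem_of_card_lt_card hlt
  have hcS' := Fintype.mem_piFinset.1 hcS
  refine ⟨i, c, fun m => (Finset.mem_Icc.1 (hcS' m)).2, fun l hl => hc ?_⟩
  exact Finset.mem_biUnion.2 ⟨l, Finset.mem_univ _, Finset.mem_filter.2 ⟨hcS, hl⟩⟩

end AK
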