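import Pool.Agent.Lib.MP_64d474_lc.AK.Defs

/-!
# Row E: evaluation of `sh u a`
-/

set_option autoImplicit false

namespace AK

open Polynomial

theorem sh_eval {F L : Type*} [Field F] {σ : Type*} [Field L] [Algebra F L] (u : σ → F)
    (x : σ → L) (t : L) (a : MvPolynomial σ F) :
    ((sh u a).map (MvPolynomial.aeval x : MvPolynomial σ F →ₐ[F] L).toRingHom).eval t =
      MvPolynomial.aeval (mv x t u) a := by
  rw [sh, MvPolynomial.aeval_def]
  induction a using MvPolynomial.induction_on with
  | C c =>
    rw [MvPolynomial.eval₂_C, Polynomial.algebraMap_apply, map_C, eval_C,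
      MvPolynomial.algebraMap_eq]
    simp
  | add p q hp hq =>
    rw [MvPolynomial.eval₂_add, Polynomial.map_add, Polynomial.eval_add, hp, hq, map_add]
  | mul_X p i hp =>
    rw [MvPolynomial.eval₂_mul, MvPolynomial.eval₂_X, Polynomial.map_mul, Polynomial.eval_mul,
      hp, map_mul, MvPolynomial.aeval_X, Polynomial.map_add, Polynomial.map_mul, map_C, map_C,
      map_X, Polynomial.eval_add, Polynomial.eval_mul, eval_C, eval_C, eval_X]
    simp [mv]

/-- the Taylor polynomial at `x + ρ u` -/
theorem sh_taylor {F L : Type*} [Field F] {σ : Type*} [Field L] [Algebra F L] (u : σ → F)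
    (x : σ → L) (ρ s : L) (a : MvPolynomial σ F) :
    ((sh u a).map (MvPolynomial.aeval (mv x ρ u) : MvPolynomial σ F →ₐ[F] L).toRingHom).eval s =
      MvPolynomial.aeval (mv x (ρ + s) u) a := by
  rw [sh_eval]
  congr 2
  funext i
  simp only [mv]
  ring

end AK
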