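import Pool.Agent.Lib.MP_64d474_lc.AK.Defs

/-!
# Degrees of `a(x + X u)` and of resultants along a direction
-/

set_option autoImplicit false

namespace AK

open Polynomial

/-- Resultants and a multiplicative filtration. -/
theorem resultant_filt82 {R : Type*} [CommRing R] (P : ℕ → AddSubgroup R)
    (h1 : (1 : R) ∈ P 0) (hmul : ∀ (a b : ℕ) (x y : R), x ∈ P a → y ∈ P b → x * y ∈ P (a + b))
    (f g : R[X]) (a b m n : ℕ) (hf : ∀ i, f.coeff i ∈ P a) (hg : ∀ i, g.coeff i ∈ P b) :
    resultant f g m n ∈ P (m * b + n * a) := by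
  have hprod : ∀ (ι : Type) (s : Finset ι) (x : ι → R) (c : ℕ), (∀ i ∈ s, x i ∈ P c) →
      ∏ i ∈ s, x i ∈ P (s.card * c) := by
    intro ι s x c
    classical
    induction s using Finset.induction_on with
    | empty => intro _; simpa using h1
    | insert i s hi ih =>
      intro h
      rw [Finset.prod_insert hi, Finset.card_insert_of_notMem hi, add_mul, one_mul, add_comm]
      exact hmul _ _ _ _ (h i (Finset.mem_insert_self _ _))
        (ih fun j hj => h j (Finset.mem_insert_of_mem hj))
  rw [resultant, Matrix.det_apply]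
  refine AddSubgroup.sum_mem _ fun τ _ => ?_
  have key : ∏ i, sylvester f g m n (τ i) i ∈ P (m * b + n * a) := by
    rw [Fin.prod_univ_add]
    refine hmul _ _ _ _ ?_ ?_
    · have := hprod (Fin m) Finset.univ
        (fun i => sylvester f g m n (τ (Fin.castAdd n i)) (Fin.castAdd n i)) b (by
          intro i _
          simp only [sylvester, Matrix.of_apply, Fin.addCases_left]
          split_ifs
          · exact hg _
          · exact AddSubgroup.zero_mem _)
      simpa using this
    · have := hprod (Fin n) Finset.univ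
        (fun i => sylvester f g m n (τ (Fin.natAdd m i)) (Fin.natAdd m i)) a (by
          intro i _
          simp only [sylvester, Matrix.of_apply, Fin.addCases_right]
          split_ifs
          · exact hf _
          · exact AddSubgroup.zero_mem _)
      simpa using this
  rcases Int.units_eq_one_or (Equiv.Perm.sign τ) with h | h
  · rw [h]; simpa using key
  · rw [h]; simpa using key

section A

variable {F : Type*} [Field F] {σ : Type*}

/-- Polynomials `x` with `x = 0` or `totalDegree x + j ≤ d`. -/
def filtJ (F : Type*) [Field F] (σ : Type*) (d j : ℕ) : AddSubgroup (MvPolynomial σ F) where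
  carrier := {x | x = 0 ∨ x.totalDegree + j ≤ d}
  zero_mem' := Or.inl rfl
  add_mem' := by
    rintro x y (rfl | hx) (rfl | hy)
    · left; simp
    · right; simpa using hy
    · right; simpa using hx
    · right
      have := MvPolynomial.totalDegree_add x y
      rcases le_total x.totalDegree y.totalDegree with h | h
      · rw [max_eq_right h] at this; omega
      · rw [max_eq_left h] at this; omega
  neg_mem' := by
    rintro x (rfl | hx)
    · left; simp
    · right; rwa [MvPolynomial.totalDegree_neg]

theorem mem_filtJ {d j : ℕ} {x : MvPolynomial σ F} :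
    x ∈ filtJ F σ d j ↔ x = 0 ∨ x.totalDegree + j ≤ d := Iff.rfl

theorem filtJ_mul {d j e k : ℕ} {x y : MvPolynomial σ F} (hx : x ∈ filtJ F σ d j)
    (hy : y ∈ filtJ F σ e k) : x * y ∈ filtJ F σ (d + e) (j + k) := by
  rcases hx with rfl | hx
  · left; simp
  rcases hy with rfl | hy
  · left; simp
  right
  have := MvPolynomial.totalDegree_mul x y
  omega

theorem filtJ_mono {d e j : ℕ} (h : d ≤ e) {x : MvPolynomial σ F} (hx : x ∈ filtJ F σ d j) :
    x ∈ filtJ F σ e j := by
  rcases hx with rfl | hx
  · left; rfl
  · right; omega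

/-- `x + X u` has weighted degree one. -/
def filtX (F : Type*) [Field F] (σ : Type*) (d : ℕ) : AddSubgroup (MvPolynomial σ F)[X] where
  carrier := {x | ∀ j, x.coeff j ∈ filtJ F σ d j}
  zero_mem' := fun j => by rw [coeff_zero]; exact AddSubgroup.zero_mem _
  add_mem' := by
    intro x y hx hy j
    rw [coeff_add]
    exact AddSubgroup.add_mem _ (hx j) (hy j)
  neg_mem' := by
    intro x hx j
    rw [coeff_neg]
    exact AddSubgroup.neg_mem _ (hx j)

theorem filtX_mul {d e : ℕ} {x y : (MvPolynomial σ F)[X]} (hx : x ∈ filtX F σ d)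
    (hy : y ∈ filtX F σ e) : x * y ∈ filtX F σ (d + e) := by
  intro j
  rw [coeff_mul]
  refine AddSubgroup.sum_mem _ fun p hp => ?_
  have h : p.1 + p.2 = j := by simpa using hp
  rw [← h]
  exact filtJ_mul (hx _) (hy _)

theorem filtX_mono {d e : ℕ} (h : d ≤ e) {x : (MvPolynomial σ F)[X]} (hx : x ∈ filtX F σ d) :
    x ∈ filtX F σ e := fun j => filtJ_mono h (hx j)

theorem filtX_C {d : ℕ} {a : MvPolynomial σ F} (h : a.totalDegree ≤ d) :
    C a ∈ filtX F σ d := by
  intro j
  rw [coeff_C]
  split_ifs with hj
  · right; omega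
  · left; rfl

theorem filtX_one : (1 : (MvPolynomial σ F)[X]) ∈ filtX F σ 0 := by
  have : (1 : (MvPolynomial σ F)[X]) = C 1 := by simp
  rw [this]
  exact filtX_C (by simp)

theorem filtX_base (u : σ → F) (i : σ) :
    (C (MvPolynomial.X i) + X * C (MvPolynomial.C (u i)) : (MvPolynomial σ F)[X]) ∈
      filtX F σ 1 := by
  refine AddSubgroup.add_mem _ (filtX_C (by simp)) ?_
  intro j
  rw [coeff_mul_C, coeff_X]
  split_ifs with hj
  · right
    rw [one_mul, MvPolynomial.totalDegree_C]
    omega
  · left; simp

theorem sh_mem_filtX (u : σ → F) (a : MvPolynomial σ F) : sh u a ∈ filtX F σ a.totalDegree := by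
  have hpow : ∀ (i : σ) (k : ℕ),
      (C (MvPolynomial.X i) + X * C (MvPolynomial.C (u i)) : (MvPolynomial σ F)[X]) ^ k ∈
        filtX F σ k := by
    intro i k
    induction k with
    | zero => rw [pow_zero]; exact filtX_one
    | succ k ih => rw [pow_succ]; exact filtX_mul ih (filtX_base u i)
  have : sh u a = ∑ d ∈ a.support, C (MvPolynomial.C (a.coeff d)) *
      ∏ i ∈ d.support, (C (MvPolynomial.X i) + X * C (MvPolynomial.C (u i))) ^ d i := by
    rw [sh, MvPolynomial.aeval_def, MvPolynomial.eval₂_eq]
    rfl
  rw [this]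
  refine AddSubgroup.sum_mem _ fun d hd => ?_
  have hle : ∑ i ∈ d.support, d i ≤ a.totalDegree := MvPolynomial.le_totalDegree hd
  refine filtX_mono hle ?_
  have hpr : ∀ s : Finset σ,
      ∏ i ∈ s, (C (MvPolynomial.X i) + X * C (MvPolynomial.C (u i)) :
        (MvPolynomial σ F)[X]) ^ d i ∈ filtX F σ (∑ i ∈ s, d i) := by
    intro s
    classical
    induction s using Finset.induction_on with
    | empty => rw [Finset.prod_empty, Finset.sum_empty]; exact filtX_one
    | insert i s hi ih =>
      rw [Finset.prod_insert hi, Finset.sum_insert hi]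
      exact filtX_mul (hpow i _) ih
  have := filtX_mul (filtX_C (F := F) (σ := σ) (d := 0) (a := MvPolynomial.C (a.coeff d))
    (by simp)) (hpr d.support)
  rwa [zero_add] at this

theorem sh_coeff_totalDegree (u : σ → F) (a : MvPolynomial σ F) (j : ℕ) :
    ((sh u a).coeff j).totalDegree ≤ a.totalDegree - j := by
  rcases sh_mem_filtX u a j with h | h
  · rw [h]; simp
  · omega

theorem sh_natDegree_le (u : σ → F) (a : MvPolynomial σ F) :
    (sh u a).natDegree ≤ a.totalDegree := by
  rw [natDegree_le_iff_coeff_eq_zero]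
  intro N hN
  rcases sh_mem_filtX u a N with h | h
  · exact h
  · omega

/-- Polynomials in `t` all of whose coefficients have total degree at most `d`. -/
def filtT (F : Type*) [Field F] (σ : Type*) (d : ℕ) : AddSubgroup (MvPolynomial σ F)[X] where
  carrier := {x | ∀ j, (x.coeff j).totalDegree ≤ d}
  zero_mem' := by simp
  add_mem' := by
    intro x y hx hy j
    rw [coeff_add]
    exact (MvPolynomial.totalDegree_add _ _).trans (max_le (hx j) (hy j))
  neg_mem' := by
    intro x hx j
    rw [coeff_neg, MvPolynomial.totalDegree_neg]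
    exact hx j

theorem mem_filtT {d : ℕ} {x : (MvPolynomial σ F)[X]} :
    x ∈ filtT F σ d ↔ ∀ j, (x.coeff j).totalDegree ≤ d := Iff.rfl

theorem chi_totalDegree (u : σ → F)
    (B Q : MvPolynomial σ F) (a b m n : ℕ)
    (hB : B.totalDegree ≤ a) (hT : Q.totalDegree ≤ b) (hm : m ≤ a) (hn : n ≤ b) (j : ℕ) :
    ((chi (sh u B) (sh u Q) m n).coeff j).totalDegree ≤ 2 * a * b := by
  have h := resultant_filt82 (filtT F σ)
    (by
      intro j
      rw [coeff_one]
      split_ifs <;> simp)
    (by
      intro a b x y hx hy j
      rw [coeff_mul]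
      refine (MvPolynomial.totalDegree_finsetSum _ _).trans (Finset.sup_le fun p _ => ?_)
      exact (MvPolynomial.totalDegree_mul _ _).trans (add_le_add (hx _) (hy _)))
    ((sh u B).map C) (C X - (sh u Q).map C) a b m n
    (by
      intro i j
      rw [coeff_map, coeff_C]
      split_ifs
      · exact ((sh_coeff_totalDegree u B i).trans (Nat.sub_le _ _)).trans hB
      · simp)
    (by
      intro i
      rw [coeff_sub]
      refine AddSubgroup.sub_mem _ ?_ ?_
      · intro j
        rw [coeff_C]
        split_ifs
        · rw [coeff_X]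
          split_ifs <;> simp
        · simp
      · intro j
        rw [coeff_map, coeff_C]
        split_ifs
        · exact ((sh_coeff_totalDegree u Q i).trans (Nat.sub_le _ _)).trans hT
        · simp)
  refine le_trans (mem_filtT.1 h j) ?_
  nlinarith [Nat.mul_le_mul_right b hm, Nat.mul_le_mul_right a hn]

end A

end AK
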