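import Pool.Agent.Lib.MP_64d474_lc.AK.GenDefs

set_option autoImplicit false

namespace AK

open Polynomial

theorem sh_coeff_hasse {F : Type*} [Field F] {σ : Type*} (u : σ → F) (a : MvPolynomial σ F)
    (k : ℕ) : sh u ((sh u a).coeff k) = hasseDeriv k (sh u a) := by
  have h : ((Polynomial.mapRingHom (sh u : MvPolynomial σ F →ₐ[F] (MvPolynomial σ F)[X]).toRingHom).comp
        (sh u : MvPolynomial σ F →ₐ[F] (MvPolynomial σ F)[X]).toRingHom) =
      ((Polynomial.taylorAlgHom (X : (MvPolynomial σ F)[X])).toRingHom.comp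
        ((Polynomial.mapRingHom (C : MvPolynomial σ F →+* (MvPolynomial σ F)[X])).comp
        (sh u : MvPolynomial σ F →ₐ[F] (MvPolynomial σ F)[X]).toRingHom)) := by
    apply MvPolynomial.ringHom_ext
    · intro r
      simp [sh, Polynomial.algebraMap_apply, MvPolynomial.algebraMap_eq]
    · intro i
      simp [sh, Polynomial.algebraMap_apply, MvPolynomial.algebraMap_eq]
      ring
  have h1 := congrArg (fun f : MvPolynomial σ F →+* (MvPolynomial σ F)[X][X] => (f a).coeff k) h
  simp only [RingHom.comp_apply, AlgHom.toRingHom_eq_coe, RingHom.coe_coe,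
    Polynomial.coe_mapRingHom, Polynomial.coeff_map] at h1
  rw [h1]
  show (taylor X ((sh u a).map C)).coeff k = _
  have h2 : hasseDeriv k ((sh u a).map (C : MvPolynomial σ F →+* (MvPolynomial σ F)[X])) =
      (hasseDeriv k (sh u a)).map C := by
    ext1 n
    rw [hasseDeriv_coeff, coeff_map, coeff_map, hasseDeriv_coeff, map_mul, map_natCast]
  rw [taylor_coeff, h2, eval_map, eval₂_C_X]

theorem sh_sh_coeff {F : Type*} [Field F] {σ : Type*} (u : σ → F) (a : MvPolynomial σ F)
    (j k : ℕ) :
    (sh u ((sh u a).coeff k)).coeff j = ((j + k).choose k : MvPolynomial σ F) * (sh u a).coeff (j + k) := by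
  rw [sh_coeff_hasse, hasseDeriv_coeff]

end AK
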