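import Pool.Agent.Lib.MP_64d474_lc.AK.GenDefs
import Pool.Agent.Lib.MP_64d474_lc.AK.RowH82
import Pool.Agent.Lib.MP_64d474_lc.AK.Tay2

set_option autoImplicit false

/-!
# Row EX: the coefficients of `chi` are expressions
-/

namespace AK

open Polynomial

/-- Polynomials in two variables with all coefficients in `Q`. -/
def filt2 {A : Type*} [CommRing A] (Q : AddSubgroup A) : AddSubgroup A[X][X] where
  carrier := {x | ∀ j k, (x.coeff j).coeff k ∈ Q}
  zero_mem' := by intro j k; simp
  add_mem' := by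
    intro x y hx hy j k
    rw [coeff_add, coeff_add]
    exact Q.add_mem (hx j k) (hy j k)
  neg_mem' := by
    intro x hx j k
    rw [coeff_neg, coeff_neg]
    exact Q.neg_mem (hx j k)

theorem mem_filt2 {A : Type*} [CommRing A] {Q : AddSubgroup A} {x : A[X][X]} :
    x ∈ filt2 Q ↔ ∀ j k, (x.coeff j).coeff k ∈ Q := Iff.rfl

section

variable {A : Type*} [CommRing A] (Q : ℕ → AddSubgroup A)
  (h1 : (1 : A) ∈ Q 0) (hmono : ∀ (a b : ℕ), a ≤ b → Q a ≤ Q b)
  (hmul : ∀ (a b : ℕ) (x y : A), x ∈ Q a → y ∈ Q b → x * y ∈ Q (a + b))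

include h1 in
theorem filt2_one : (1 : A[X][X]) ∈ filt2 (Q 0) := by
  intro j k
  rw [coeff_one]
  split_ifs
  · rw [coeff_one]
    split_ifs
    · exact h1
    · exact (Q 0).zero_mem
  · rw [coeff_zero]
    exact (Q 0).zero_mem

include hmul in
theorem filt2_mul (a b : ℕ) (x y : A[X][X]) (hx : x ∈ filt2 (Q a)) (hy : y ∈ filt2 (Q b)) :
    x * y ∈ filt2 (Q (a + b)) := by
  intro j k
  rw [coeff_mul, finsetSum_coeff]
  refine (Q (a + b)).sum_mem fun p _ => ?_
  rw [coeff_mul]
  exact (Q (a + b)).sum_mem fun q _ => hmul _ _ _ _ (hx _ _) (hy _ _)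

include h1 hmul in
theorem filt2_pow (a : ℕ) (x : A[X][X]) (hx : x ∈ filt2 (Q a)) (n : ℕ) :
    x ^ n ∈ filt2 (Q (n * a)) := by
  induction n with
  | zero => simpa using filt2_one Q h1
  | succ n ih =>
    rw [pow_succ, add_mul, one_mul]
    exact filt2_mul Q hmul _ _ _ _ ih hx

include h1 hmono hmul in
theorem filt2_prod {ι : Type*} (s : Finset ι) (x : ι → A[X][X]) (c : ι → ℕ) (N : ℕ)
    (hc : ∀ i ∈ s, c i ≤ N) (hx : ∀ i ∈ s, x i ∈ filt2 (Q 1)) :
    ∏ i ∈ s, x i ^ c i ∈ filt2 (Q (s.card * N)) := by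
  classical
  induction s using Finset.induction_on with
  | empty => simpa using filt2_one Q h1
  | insert i s hi ih =>
    rw [Finset.prod_insert hi, Finset.card_insert_of_notMem hi, add_mul, one_mul, add_comm]
    have h2 : x i ^ c i ∈ filt2 (Q N) := by
      intro j k
      have h3 := filt2_pow Q h1 hmul 1 (x i) (hx i (Finset.mem_insert_self _ _)) (c i) j k
      rw [mul_one] at h3
      exact hmono _ _ (hc i (Finset.mem_insert_self _ _)) h3
    exact filt2_mul Q hmul _ _ _ _ h2
      (ih (fun j hj => hc j (Finset.mem_insert_of_mem hj))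
        fun j hj => hx j (Finset.mem_insert_of_mem hj))

include h1 hmono hmul in
theorem chi_filt2 (e m N : ℕ) (B : A[X]) (hB : ∀ i, B.coeff i ∈ Q 1) (p : Fin e → A[X])
    (hp : ∀ l i, (p l).coeff i ∈ Q 1) (c : Fin e → ℕ) (hc : ∀ l, c l ≤ N) (j k : ℕ) :
    ((chi (B.map C) (∏ l, ((p l).map C + C X) ^ c l) e m).coeff j).coeff k ∈
      Q (e * (e * N) + m) := by
  have hCC : ∀ (a : ℕ) (x : A), x ∈ Q a → (C (C x) : A[X][X]) ∈ filt2 (Q a) := by
    intro a x hx j k
    rw [coeff_C]
    split_ifs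
    · rw [coeff_C]
      split_ifs
      · exact hx
      · exact (Q a).zero_mem
    · rw [coeff_zero]
      exact (Q a).zero_mem
  have hx1 : ∀ l, (p l).map C + C X ∈ filt2 (Q 1) := by
    intro l j k
    rw [coeff_add, coeff_add, coeff_map, coeff_C, coeff_C]
    refine (Q 1).add_mem ?_ ?_
    · split_ifs
      · exact hp l _
      · exact (Q 1).zero_mem
    · split_ifs
      · rw [coeff_X]
        split_ifs
        · exact hmono 0 1 (by norm_num) h1
        · exact (Q 1).zero_mem
      · rw [coeff_zero]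
        exact (Q 1).zero_mem
  have hprod : ∏ l, ((p l).map C + C X) ^ c l ∈ filt2 (Q (e * N)) := by
    have := filt2_prod Q h1 hmono hmul Finset.univ (fun l => (p l).map C + C X) c N
      (fun l _ => hc l) (fun l _ => hx1 l)
    rwa [Finset.card_univ, Fintype.card_fin] at this
  have h := resultant_filt82 (fun a => filt2 (Q a)) (filt2_one Q h1) (filt2_mul Q hmul)
    ((B.map C).map C) (C X - (∏ l, ((p l).map C + C X) ^ c l).map C) 1 (e * N) e m
    (by
      intro i
      rw [coeff_map, coeff_map]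
      exact hCC 1 _ (hB i))
    (by
      intro i
      rw [coeff_sub, coeff_map]
      refine AddSubgroup.sub_mem _ ?_ ?_
      · intro j k
        rw [coeff_C]
        split_ifs
        · rw [coeff_X]
          split_ifs
          · rw [coeff_one]
            split_ifs
            · exact hmono 0 _ (Nat.zero_le _) h1
            · exact AddSubgroup.zero_mem _
          · rw [coeff_zero]
            exact AddSubgroup.zero_mem _
        · rw [coeff_zero, coeff_zero]
          exact AddSubgroup.zero_mem _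
      · intro j k
        rw [coeff_C]
        split_ifs
        · exact hprod _ _
        · rw [coeff_zero]
          exact AddSubgroup.zero_mem _)
  rw [mul_one] at h
  exact h j k

end

/-- Expressions of degree at most `a` in the Taylor coefficients of fixed polynomials. -/
def exprF {F : Type*} [Field F] {n : ℕ} (u : Fin n → F) (E : ℕ)
    (g : Fin (E + 1) → MvPolynomial (Fin n) F) (a : ℕ) : AddSubgroup (MvPolynomial (Fin n) F) where
  carrier := {b | ∃ p : MvPolynomial (Fin (E + 1) × Fin (E + 1)) F, p.totalDegree ≤ a ∧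
    b = MvPolynomial.aeval (fun ij => (sh u (g ij.1)).coeff ij.2) p}
  zero_mem' := ⟨0, by simp, by simp⟩
  add_mem' := by
    rintro x y ⟨p, hp, rfl⟩ ⟨q, hq, rfl⟩
    exact ⟨p + q, (MvPolynomial.totalDegree_add _ _).trans (max_le hp hq), by rw [map_add]⟩
  neg_mem' := by
    rintro x ⟨p, hp, rfl⟩
    exact ⟨-p, by rwa [MvPolynomial.totalDegree_neg], by rw [map_neg]⟩

theorem chi_expr {F : Type*} [Field F] {n : ℕ} (u : Fin n → F) (E : ℕ)
    (BB : Finset (MvPolynomial (Fin n) F)) (hE : ∀ b ∈ BB, (sh u b).natDegree ≤ E)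
    (b0 : MvPolynomial (Fin n) F) (hb0 : b0 ∈ BB) (e : ℕ) (he : (sh u b0).natDegree = e)
    (g : Fin e → MvPolynomial (Fin n) F) (hg : ∀ l, g l ∈ BB) (κ c : Fin e → ℕ)
    (hc : ∀ l, c l ≤ e + 1) (j k : ℕ) :
    Expr u E (2 * E ^ 2 * (E + 1)) BB
      (((chi ((sh u b0).map C) (∏ l, ((sh u ((sh u (g l)).coeff (κ l))).map C + C X) ^ c l) e
        (e * (e + 1) * E)).coeff j).coeff k) := by
  classical
  have heE : e ≤ E := he ▸ hE b0 hb0
  let G : Fin (E + 1) → MvPolynomial (Fin n) F := fun i =>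
    if h : 0 < (i : ℕ) ∧ (i : ℕ) ≤ e then g ⟨i - 1, by omega⟩ else b0
  have hG : ∀ i, G i ∈ BB := by
    intro i
    simp only [G]
    split_ifs
    · exact hg _
    · exact hb0
  have hcoef : ∀ (i : Fin (E + 1)) (r : ℕ), (sh u (G i)).coeff r ∈ exprF u E G 1 := by
    intro i r
    by_cases hr : r < E + 1
    · exact ⟨MvPolynomial.X (i, ⟨r, hr⟩), (MvPolynomial.totalDegree_X _).le, by
        rw [MvPolynomial.aeval_X]⟩
    · rw [coeff_eq_zero_of_natDegree_lt (lt_of_le_of_lt (hE _ (hG i)) (by omega))]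
      exact AddSubgroup.zero_mem _
  have hmulF : ∀ (a b : ℕ) (x y : MvPolynomial (Fin n) F), x ∈ exprF u E G a → y ∈ exprF u E G b →
      x * y ∈ exprF u E G (a + b) := by
    rintro a b x y ⟨p, hp, rfl⟩ ⟨q, hq, rfl⟩
    exact ⟨p * q, (MvPolynomial.totalDegree_mul _ _).trans (add_le_add hp hq), by rw [map_mul]⟩
  have hmonoF : ∀ (a b : ℕ), a ≤ b → exprF u E G a ≤ exprF u E G b := by
    rintro a b hab x ⟨p, hp, rfl⟩
    exact ⟨p, hp.trans hab, rfl⟩
  have h1F : (1 : MvPolynomial (Fin n) F) ∈ exprF u E G 0 := ⟨1, by simp, by simp⟩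
  have hscal : ∀ (N : ℕ) (x : MvPolynomial (Fin n) F), x ∈ exprF u E G 1 →
      (N : MvPolynomial (Fin n) F) * x ∈ exprF u E G 1 := by
    intro N x hx
    have h2 : (N : MvPolynomial (Fin n) F) ∈ exprF u E G 0 :=
      ⟨(N : MvPolynomial (Fin (E + 1) × Fin (E + 1)) F), by
        have h4 : (N : MvPolynomial (Fin (E + 1) × Fin (E + 1)) F) = MvPolynomial.C (N : F) :=
          (map_natCast _ _).symm
        rw [h4, MvPolynomial.totalDegree_C], by rw [map_natCast]⟩
    have h3 := hmulF _ _ _ _ h2 hx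
    rwa [zero_add] at h3
  have key := chi_filt2 (exprF u E G) h1F hmonoF hmulF e (e * (e + 1) * E) (e + 1) (sh u b0)
    (by
      intro i
      have h2 := hcoef 0 i
      have h3 : G 0 = b0 := by simp [G]
      rwa [h3] at h2)
    (fun l => sh u ((sh u (g l)).coeff (κ l)))
    (by
      intro l i
      rw [sh_sh_coeff]
      apply hscal
      have h2 := hcoef ⟨l + 1, by have := l.2; omega⟩ (i + κ l)
      have h3 : G ⟨l + 1, by have := l.2; omega⟩ = g l := by
        have h4 : 0 < (l : ℕ) + 1 ∧ (l : ℕ) + 1 ≤ e := ⟨by omega, by have := l.2; omega⟩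
        simp [G, h4]
      rwa [h3] at h2)
    c hc j k
  obtain ⟨p, hp, hpe⟩ := key
  refine ⟨G, p, hG, hp.trans ?_, hpe⟩
  have h5 : e * (e * (e + 1)) ≤ E * (E * (E + 1)) := by gcongr
  have h6 : e * (e + 1) * E ≤ E * (E + 1) * E := by gcongr
  calc e * (e * (e + 1)) + e * (e + 1) * E ≤ E * (E * (E + 1)) + E * (E + 1) * E :=
        add_le_add h5 h6
    _ = 2 * E ^ 2 * (E + 1) := by ring

end AK
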