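import Pool.Agent.Lib.MP_64d474_lc.AK.TE7
import Pool.Agent.Lib.MP_64d474_lc.AK.Ex2
import Pool.Agent.Lib.MP_64d474_lc.AK.E48

set_option autoImplicit false

namespace AK

open Polynomial

universe u

/-! Row CG (centres, general): the Taylor coefficients of all members of `BB` can be matched at a
root of `b0`, zero values included. -/

theorem centre_gen {F : Type u} [Field F] {n E : ℕ} (u : Fin n → F)
    (BB : Finset (MvPolynomial (Fin n) F)) (h0 : ∀ b ∈ BB, b ≠ 0)
    (hE : ∀ b ∈ BB, (sh u b).natDegree ≤ E) (b0 : MvPolynomial (Fin n) F) (hb0 : b0 ∈ BB) :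
    ∃ BB' : Finset (MvPolynomial (Fin n) F),
      (∀ b ∈ BB', b ≠ 0 ∧ Expr u E (2 * E ^ 2 * (E + 1)) BB b) ∧
      ∀ (L : Type u) [Field L] [IsAlgClosed L] [Algebra F L] (Γ : Type u)
        [LinearOrderedCommGroupWithZero Γ] (v : Valuation L Γ), (∃ a : L, v a ≠ 0 ∧ v a < 1) →
        ∀ x x' : Fin n → L, Gen F x →
        (∀ b ∈ BB', v (MvPolynomial.aeval x b) = v (MvPolynomial.aeval x' b)) →
        ∀ ρ : L, MvPolynomial.aeval (mv x ρ u) b0 = 0 →
        ∃ ρ' : L, ∀ b ∈ BB, ∀ k : ℕ,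
          v (MvPolynomial.aeval (mv x ρ u) ((sh u b).coeff k)) =
          v (MvPolynomial.aeval (mv x' ρ' u) ((sh u b).coeff k)) := by
  classical
  rcases Nat.eq_zero_or_pos (sh u b0).natDegree with hz | hpos
  · -- no roots at all
    refine ⟨∅, by simp, ?_⟩
    intro L _ _ _ Γ _ v _ x x' hx _ ρ hρ
    exfalso
    have hc : sh u b0 = C ((sh u b0).coeff 0) := eq_C_of_natDegree_eq_zero hz
    have h1 := sh_eval u x ρ b0
    rw [hρ, hc, Polynomial.map_C, eval_C] at h1
    have h3 : (sh u b0).coeff 0 ≠ 0 := by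
      intro h4
      have h5 : sh u b0 = 0 := by rw [hc, h4, C_0]
      have h6 := sh_eval u x 0 b0
      rw [h5, Polynomial.map_zero, eval_zero] at h6
      have h7 : mv x 0 u = x := by
        funext i
        simp [mv]
      rw [h7] at h6
      exact hx b0 (h0 b0 hb0) h6.symm
    exact hx _ h3 h1
  set B := sh u b0 with hB
  set e := B.natDegree with he
  have heE : e ≤ E := hE b0 hb0
  have hE1 : 1 ≤ E := le_trans hpos heE
  have hB0 : B ≠ 0 := by
    intro h0
    rw [he, h0, natDegree_zero] at hpos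
    exact lt_irrefl _ hpos
  have hlc0 : B.leadingCoeff ≠ 0 := leadingCoeff_ne_zero.2 hB0
  let P : BB × Fin (E + 1) → (MvPolynomial (Fin n) F)[X] := fun i =>
    sh u ((sh u (i.1 : MvPolynomial (Fin n) F)).coeff (i.2 : ℕ))
  have hP : ∀ i, (P i).natDegree ≤ E := by
    intro i
    refine natDegree_le_iff_coeff_eq_zero.2 fun N hN => ?_
    have h1 := sh_sh_coeff u (i.1 : MvPolynomial (Fin n) F) N (i.2 : ℕ)
    have h2 : (sh u (i.1 : MvPolynomial (Fin n) F)).coeff (N + (i.2 : ℕ)) = 0 :=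
      coeff_eq_zero_of_natDegree_lt (lt_of_le_of_lt (hE _ i.1.2) (by omega))
    rw [h2, mul_zero] at h1
    exact h1
  let H : (Fin e → BB × Fin (E + 1)) → (Fin e → ℕ) → ((MvPolynomial (Fin n) F)[X])[X] := fun i c =>
    chi (B.map C) (∏ m, ((P (i m)).map C + C X) ^ c m) e (e * (e + 1) * E)
  let BB' : Finset (MvPolynomial (Fin n) F) := insert B.leadingCoeff
    ((Finset.univ : Finset ((Fin e → BB × Fin (E + 1)) × (Fin e → Fin (e + 2)))).biUnion fun p =>
      (H p.1 fun m => (p.2 m : ℕ)).support.biUnion fun j =>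
        ((H p.1 fun m => (p.2 m : ℕ)).coeff j).support.image fun k =>
          ((H p.1 fun m => (p.2 m : ℕ)).coeff j).coeff k)
  have hmemBB : ∀ (i : Fin e → BB × Fin (E + 1)) (c : Fin e → ℕ), (∀ m, c m ≤ e + 1) → ∀ j k,
      ((H i c).coeff j).coeff k ≠ 0 → ((H i c).coeff j).coeff k ∈ BB' := by
    intro i c hc j k hjk
    refine Finset.mem_insert_of_mem (Finset.mem_biUnion.2
      ⟨(i, fun m => ⟨c m, by have := hc m; omega⟩), Finset.mem_univ _, ?_⟩)
    refine Finset.mem_biUnion.2 ⟨j, mem_support_iff.2 ?_, ?_⟩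
    · intro h
      apply hjk
      show ((H i c).coeff j).coeff k = 0
      have h' : (H i c).coeff j = 0 := h
      rw [h', coeff_zero]
    · exact Finset.mem_image.2 ⟨k, mem_support_iff.2 hjk, rfl⟩
  refine ⟨BB', ?_, ?_⟩
  · intro b hb
    rcases Finset.mem_insert.1 hb with h | h
    · rw [h]
      refine ⟨hlc0, fun _ => b0, MvPolynomial.X (0, ⟨e, by omega⟩), fun _ => hb0, ?_, ?_⟩
      · rw [MvPolynomial.totalDegree_X]
        have h1 : 1 ≤ E ^ 2 := Nat.one_le_pow _ _ hE1
        nlinarith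
      · rw [MvPolynomial.aeval_X]
        rfl
    · obtain ⟨p, _, hp⟩ := Finset.mem_biUnion.1 h
      obtain ⟨j, _, hj⟩ := Finset.mem_biUnion.1 hp
      obtain ⟨k, hk, rfl⟩ := Finset.mem_image.1 hj
      refine ⟨mem_support_iff.1 hk, ?_⟩
      exact chi_expr u E BB hE b0 hb0 e rfl
        (fun l => ((p.1 l).1 : MvPolynomial (Fin n) F)) (fun l => (p.1 l).1.2)
        (fun l => ((p.1 l).2 : ℕ)) (fun m => (p.2 m : ℕ)) (fun m => by have := (p.2 m).2; omega) j k
  · intro L _ _ _ Γ _ v hnt x x' hx hBB ρ hρ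
    set φ : MvPolynomial (Fin n) F →+* L :=
      (MvPolynomial.aeval x : MvPolynomial (Fin n) F →ₐ[F] L).toRingHom with hφd
    set ψ : MvPolynomial (Fin n) F →+* L :=
      (MvPolynomial.aeval x' : MvPolynomial (Fin n) F →ₐ[F] L).toRingHom with hψd
    have hφlc : φ B.leadingCoeff ≠ 0 := hx _ hlc0
    have hvlc : v (φ B.leadingCoeff) = v (ψ B.leadingCoeff) :=
      hBB _ (Finset.mem_insert_self _ _)
    have hψlc : ψ B.leadingCoeff ≠ 0 := by
      intro h0
      rw [h0, map_zero, map_eq_zero] at hvlc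
      exact hφlc hvlc
    have hBφ : B.map φ ≠ 0 := by
      intro h0
      apply hφlc
      have := congrArg (fun p => coeff p B.natDegree) h0
      simpa [coeff_map] using this
    have hρ' : ρ ∈ (B.map φ).roots := by
      rw [mem_roots hBφ, IsRoot.def]
      exact (sh_eval u x ρ b0).trans hρ
    obtain ⟨b, hb, hbv⟩ := transfer_eps v hnt φ ψ B hφlc hψlc hvlc P E hP
      (fun i c hc j k => by
        by_cases h0 : ((H i c).coeff j).coeff k = 0
        · have h1 : ((chi (B.map C) (∏ m, ((P (i m)).map C + C X) ^ c m) B.natDegree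
              (B.natDegree * (B.natDegree + 1) * E)).coeff j).coeff k = 0 := h0
          rw [h1, map_zero φ, map_zero ψ]
        · exact hBB _ (hmemBB i c hc j k h0))
      hρ'
    refine ⟨b, fun c hc k => ?_⟩
    by_cases hk : k < E + 1
    · have h1 := hbv (⟨c, hc⟩, ⟨k, hk⟩)
      have h2 := sh_eval u x ρ ((sh u c).coeff k)
      have h3 := sh_eval u x' b ((sh u c).coeff k)
      rw [← h2, ← h3]
      exact h1
    · have h1 : (sh u c).coeff k = 0 :=
        coeff_eq_zero_of_natDegree_lt (lt_of_le_of_lt (hE _ hc) (by omega))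
      rw [h1]
      simp only [map_zero]

end AK
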