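import Pool.Agent.Lib.MP_64d474_lc.AK.Defs
import Pool.Agent.Lib.MP_64d474_lc.S3.Lines2

/-! # Row R (generic root) -/

set_option autoImplicit false

namespace AK

open Polynomial

section shift
variable {F : Type*} [Field F] {σ : Type*}

/-- `x ↦ x + X u` as an endomorphism of `F[x][X]`. -/
noncomputable def shHom2 (u : σ → F) :
    (MvPolynomial σ F)[X] →ₐ[F] (MvPolynomial σ F)[X] :=
  Polynomial.eval₂AlgHom (sh u) X (fun _ => Commute.all _ _)

theorem shHom2_C (u : σ → F) (a : MvPolynomial σ F) : shHom2 u (C a) = sh u a := by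
  simp [shHom2]

theorem shHom2_X (u : σ → F) : shHom2 u X = X := by
  simp [shHom2]

theorem shHom2_comp (u w : σ → F) (h : ∀ i, u i + w i = 0) :
    (shHom2 u).comp (shHom2 w) = AlgHom.id F _ := by
  apply Polynomial.algHom_ext'
  · apply MvPolynomial.algHom_ext
    intro i
    have hCC : shHom2 u (C (MvPolynomial.C (w i))) = C (MvPolynomial.C (w i)) := by
      rw [shHom2_C, sh, MvPolynomial.aeval_C]
      rfl
    have h1 : (C (MvPolynomial.C (u i)) : (MvPolynomial σ F)[X]) + C (MvPolynomial.C (w i)) = 0 := by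
      rw [← map_add, ← map_add, h i, map_zero, map_zero]
    have h2 : sh w (MvPolynomial.X i) = C (MvPolynomial.X i) + X * C (MvPolynomial.C (w i)) := by
      rw [sh, MvPolynomial.aeval_X]
    have h3 : sh u (MvPolynomial.X i) = C (MvPolynomial.X i) + X * C (MvPolynomial.C (u i)) := by
      rw [sh, MvPolynomial.aeval_X]
    show shHom2 u (shHom2 w (C (MvPolynomial.X i))) = C (MvPolynomial.X i)
    rw [shHom2_C, h2, map_add, map_mul, shHom2_X, hCC, shHom2_C, h3]
    linear_combination X * h1
  · show shHom2 u (shHom2 w X) = X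
    rw [shHom2_X, shHom2_X]

theorem isRelPrime_sh2 (u : σ → F) {b c : MvPolynomial σ F} (h : IsRelPrime b c) :
    IsRelPrime (sh u b) (sh u c) := by
  let e : (MvPolynomial σ F)[X] ≃ₐ[F] (MvPolynomial σ F)[X] :=
    AlgEquiv.ofAlgHom (shHom2 u) (shHom2 fun i => -u i)
      (shHom2_comp u _ fun i => add_neg_cancel _) (shHom2_comp _ u fun i => neg_add_cancel _)
  have he : ∀ a, e (C a) = sh u a := fun a => shHom2_C u a
  rw [← he b, ← he c]
  apply IsRelPrime.of_map e.symm
  rw [AlgEquiv.symm_apply_apply, AlgEquiv.symm_apply_apply]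
  exact S3.isRelPrime_C2 h

end shift

theorem generic_root {F L : Type*} [Field F] {σ : Type*} [Field L] [Algebra F L] (u : σ → F)
    {b c : MvPolynomial σ F} (hb : Irreducible b) (hc : ¬ b ∣ c) (x : σ → L) (hx : Gen F x)
    (_hd : 0 < (sh u b).natDegree) (ρ : L) (h0 : MvPolynomial.aeval (mv x ρ u) b = 0) :
    MvPolynomial.aeval (mv x ρ u) c ≠ 0 := by
  intro h1
  have hrel : IsRelPrime b c := (hb.isRelPrime_iff_not_dvd).2 hc
  set φ : MvPolynomial σ F →+* L :=
    (MvPolynomial.aeval x : MvPolynomial σ F →ₐ[F] L).toRingHom with hφ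
  have hinj : Function.Injective φ := by
    rw [injective_iff_map_eq_zero]
    intro a ha
    by_contra hne
    exact hx a hne ha
  have hev : ∀ a : MvPolynomial σ F, (sh u a).eval₂ φ ρ = MvPolynomial.aeval (mv x ρ u) a := by
    intro a
    have key : ((Polynomial.eval₂AlgHom (MvPolynomial.aeval x : MvPolynomial σ F →ₐ[F] L) ρ
        (fun _ => Commute.all _ _)).comp (sh u)) = MvPolynomial.aeval (mv x ρ u) := by
      apply MvPolynomial.algHom_ext
      intro i
      show Polynomial.eval₂ _ ρ (sh u (MvPolynomial.X i)) = _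
      rw [sh, MvPolynomial.aeval_X, MvPolynomial.aeval_X]
      simp [mv]
      ring
    exact DFunLike.congr_fun key a
  exact S3.no_root2 φ hinj (isRelPrime_sh2 u hrel) ρ ((hev b).trans h0) ((hev c).trans h1)

end AK
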