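import Pool.Agent.Lib.MP_64d474_lc.AK.Transfer97
import Pool.Agent.Lib.MP_64d474_lc.AK.RowH82
import Pool.Agent.Lib.MP_64d474_lc.AK.E48
import Pool.Agent.Lib.MP_64d474_lc.AK.R2

set_option autoImplicit false

namespace AK

open Polynomial

universe u

/-! Row CEN (centres): the Taylor coefficients can be matched at a root. -/

theorem centre {F : Type u} [Field F] {n D : ℕ} (hD : 1 ≤ D) (u : Fin n → F)
    (b0 : MvPolynomial (Fin n) F) (hb0 : Irreducible b0) (hd0 : b0.totalDegree ≤ D)
    (hpos : 0 < (sh u b0).natDegree) (CC : Finset (MvPolynomial (Fin n) F))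
    (hCC : ∀ c ∈ CC, c.totalDegree ≤ D) :
    ∃ BB' : Finset (MvPolynomial (Fin n) F), (∀ b ∈ BB', b ≠ 0 ∧ b.totalDegree ≤ 4 * D ^ 4) ∧
      ∀ (L : Type u) [Field L] [IsAlgClosed L] [Algebra F L] (Γ : Type u)
        [LinearOrderedCommGroupWithZero Γ] (v : Valuation L Γ), ∀ x x' : Fin n → L, Gen F x →
        (∀ b ∈ BB', v (MvPolynomial.aeval x b) = v (MvPolynomial.aeval x' b)) →
        ∀ ρ : L, MvPolynomial.aeval (mv x ρ u) b0 = 0 →
        ∃ ρ' : L, ∀ c ∈ CC,
          v (MvPolynomial.aeval (mv x ρ u) c) = v (MvPolynomial.aeval (mv x' ρ' u) c) := by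
  classical
  set B := sh u b0 with hB
  set e := B.natDegree with he
  have heD : e ≤ D := (sh_natDegree_le u b0).trans hd0
  have hB0 : B ≠ 0 := by
    intro h0
    rw [he, h0, natDegree_zero] at hpos
    exact lt_irrefl _ hpos
  have hlc0 : B.leadingCoeff ≠ 0 := leadingCoeff_ne_zero.2 hB0
  let CC1 : Finset (MvPolynomial (Fin n) F) := CC.filter fun c => ¬ b0 ∣ c
  let Q : (Fin e → CC1) → (Fin e → ℕ) → MvPolynomial (Fin n) F := fun i c =>
    ∏ m, (i m : MvPolynomial (Fin n) F) ^ c m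
  have hQ : ∀ i c, sh u (Q i c) = ∏ m, sh u (i m : MvPolynomial (Fin n) F) ^ c m := by
    intro i c
    show sh u (∏ m, (i m : MvPolynomial (Fin n) F) ^ c m) = _
    rw [map_prod]
    exact Finset.prod_congr rfl fun m _ => map_pow _ _ _
  let H : (Fin e → CC1) → (Fin e → ℕ) → (MvPolynomial (Fin n) F)[X] := fun i c =>
    chi B (∏ m, sh u (i m : MvPolynomial (Fin n) F) ^ c m) e (e * (e + 1) * D)
  have hdegD : B.leadingCoeff.totalDegree ≤ 4 * D ^ 4 := by
    have h1 : B.leadingCoeff.totalDegree ≤ D :=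
      (sh_coeff_totalDegree u b0 e).trans ((Nat.sub_le _ _).trans hd0)
    have h2 : D ≤ D ^ 4 := Nat.le_self_pow (by norm_num) D
    omega
  have hdegH : ∀ (i : Fin e → CC1) (c : Fin e → ℕ), (∀ m, c m ≤ e + 1) → ∀ j,
      ((H i c).coeff j).totalDegree ≤ 4 * D ^ 4 := by
    intro i c hc j
    have h0 : H i c = chi (sh u b0) (sh u (Q i c)) e (e * (e + 1) * D) := by
      rw [hQ]
    have hbd : e * (e + 1) * D ≤ D * (D + 1) * D := by gcongr
    have h1 : (Q i c).totalDegree ≤ D * (D + 1) * D := by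
      refine (MvPolynomial.totalDegree_finsetProd _ _).trans ?_
      calc ∑ m : Fin e, ((i m : MvPolynomial (Fin n) F) ^ c m).totalDegree
          ≤ ∑ _m : Fin e, (e + 1) * D := by
            refine Finset.sum_le_sum fun m _ => ?_
            refine (MvPolynomial.totalDegree_pow _ _).trans ?_
            exact Nat.mul_le_mul (hc m) (hCC _ (Finset.mem_filter.1 (i m).2).1)
        _ = e * (e + 1) * D := by
            rw [Finset.sum_const, Finset.card_univ, Fintype.card_fin, smul_eq_mul]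
            ring
        _ ≤ D * (D + 1) * D := hbd
    rw [h0]
    refine (chi_totalDegree u b0 (Q i c) D (D * (D + 1) * D) e _ hd0 h1 heD hbd j).trans ?_
    obtain ⟨E, rfl⟩ := Nat.exists_eq_add_of_le hD
    nlinarith [pow_pos (show 0 < 1 + E by omega) 3, pow_pos (show 0 < 1 + E by omega) 4,
      Nat.zero_le (E * (1 + E) ^ 3)]
  let BB' : Finset (MvPolynomial (Fin n) F) := insert B.leadingCoeff
    ((Finset.univ : Finset ((Fin e → CC1) × (Fin e → Fin (e + 2)))).biUnion fun p =>
      (H p.1 fun m => (p.2 m : ℕ)).support.image fun j => (H p.1 fun m => (p.2 m : ℕ)).coeff j)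
  have hmemBB : ∀ (i : Fin e → CC1) (c : Fin e → ℕ), (∀ m, c m ≤ e + 1) → ∀ j,
      (H i c).coeff j ≠ 0 → (H i c).coeff j ∈ BB' := by
    intro i c hc j hj
    refine Finset.mem_insert_of_mem (Finset.mem_biUnion.2
      ⟨(i, fun m => ⟨c m, by have := hc m; omega⟩), Finset.mem_univ _, ?_⟩)
    exact Finset.mem_image.2 ⟨j, mem_support_iff.2 hj, rfl⟩
  refine ⟨BB', ?_, ?_⟩
  · intro b hb
    rcases Finset.mem_insert.1 hb with h | h
    · rw [h]
      exact ⟨hlc0, hdegD⟩
    · obtain ⟨p, _, hp⟩ := Finset.mem_biUnion.1 h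
      obtain ⟨j, hj, rfl⟩ := Finset.mem_image.1 hp
      exact ⟨mem_support_iff.1 hj, hdegH _ _ (fun m => by have := (p.2 m).2; omega) j⟩
  · intro L _ _ _ Γ _ v x x' hx hBB ρ hρ
    set φ : MvPolynomial (Fin n) F →+* L :=
      (MvPolynomial.aeval x : MvPolynomial (Fin n) F →ₐ[F] L).toRingHom with hφd
    set ψ : MvPolynomial (Fin n) F →+* L :=
      (MvPolynomial.aeval x' : MvPolynomial (Fin n) F →ₐ[F] L).toRingHom with hψd
    have hφlc : φ B.leadingCoeff ≠ 0 := hx _ hlc0
    have hvlc : v (φ B.leadingCoeff) = v (ψ B.leadingCoeff) :=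
      hBB _ (Finset.mem_insert_self _ _)
    have hψlc : ψ B.leadingCoeff ≠ 0 := by
      intro h0
      rw [h0, map_zero, map_eq_zero] at hvlc
      exact hφlc hvlc
    have hBφ : B.map φ ≠ 0 := by
      intro h0
      apply hφlc
      have := congrArg (fun p => coeff p B.natDegree) h0
      simpa [coeff_map] using this
    have hρ' : ρ ∈ (B.map φ).roots := by
      rw [mem_roots hBφ, IsRoot.def]
      exact (sh_eval u x ρ b0).trans hρ
    obtain ⟨b, hb, hbv⟩ := transfer v φ ψ B hφlc hψlc hvlc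
      (fun c : CC1 => sh u (c : MvPolynomial (Fin n) F)) D
      (fun c => (sh_natDegree_le u _).trans (hCC _ (Finset.mem_filter.1 c.2).1))
      (fun i c hc j => by
        by_cases h0 : (H i c).coeff j = 0
        · have h1 : (chi B (∏ m, sh u (i m : MvPolynomial (Fin n) F) ^ c m) B.natDegree
              (B.natDegree * (B.natDegree + 1) * D)).coeff j = 0 := h0
          rw [h1, map_zero φ, map_zero ψ]
        · exact hBB _ (hmemBB i c hc j h0))
      hρ' (fun c => by
        have h1 := sh_eval u x ρ (c : MvPolynomial (Fin n) F)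
        rw [h1]
        exact generic_root u hb0 (Finset.mem_filter.1 c.2).2 x hx hpos ρ hρ)
    refine ⟨b, fun c hc => ?_⟩
    by_cases hdiv : b0 ∣ c
    · obtain ⟨q, rfl⟩ := hdiv
      have hb' : MvPolynomial.aeval (mv x' b u) b0 = 0 := by
        rw [← sh_eval u x' b b0]
        exact (mem_roots'.1 hb).2
      have e1 : MvPolynomial.aeval (mv x ρ u) (b0 * q) = 0 := by rw [map_mul, hρ, zero_mul]
      have e2 : MvPolynomial.aeval (mv x' b u) (b0 * q) = 0 := by rw [map_mul, hb', zero_mul]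
      rw [e1, e2]
    · have h1 := hbv ⟨c, Finset.mem_filter.2 ⟨hc, hdiv⟩⟩
      have h2 := sh_eval u x ρ c
      have h3 := sh_eval u x' b c
      rw [← h2, ← h3]
      exact h1

end AK
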