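import Pool.Agent.Lib.MP_64d474_lc.AK.Defs

/-! # Row C: the polynomial `chi` -/

set_option autoImplicit false

namespace AK

open Polynomial

theorem chi_map {R S : Type*} [CommRing R] [CommRing S] (φ : R →+* S) (B Q : R[X]) (e m : ℕ) :
    (chi B Q e m).map φ = chi (B.map φ) (Q.map φ) e m := by
  have h1 : (chi B Q e m).map φ = mapRingHom φ (chi B Q e m) := rfl
  have h2 : ∀ P : R[X], (P.map (C : R →+* R[X])).map (mapRingHom φ) =
      (P.map φ).map (C : S →+* S[X]) := by
    intro P
    rw [Polynomial.map_map, Polynomial.map_map]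
    congr 1
    ext a
    simp
  rw [h1]
  unfold chi
  rw [← resultant_map_map, h2, Polynomial.map_sub, h2, map_C, coe_mapRingHom, map_X]

theorem chi_eq_prod {L : Type*} [Field L] [IsAlgClosed L] (B Q : L[X]) (m : ℕ)
    (hQ : Q.natDegree ≤ m) :
    chi B Q B.natDegree m =
      C (B.leadingCoeff ^ m) * (B.roots.map fun a => X - C (Q.eval a)).prod := by
  have hs : B.Splits := IsAlgClosed.splits B
  have hi : Function.Injective (C : L →+* L[X]) := C_injective
  have h1 : (B.map (C : L →+* L[X])).natDegree = B.natDegree := natDegree_map_eq_of_injective hi B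
  have h2 : (C (X : L[X]) - Q.map (C : L →+* L[X])).natDegree ≤ m := by
    refine (natDegree_sub_le _ _).trans ?_
    rw [natDegree_C, natDegree_map_eq_of_injective hi]
    exact max_le (Nat.zero_le _) hQ
  unfold chi
  rw [← h1, resultant_eq_prod_eval _ _ _ h2 (hs.map _), leadingCoeff_map_of_injective hi,
    hs.roots_map, Multiset.map_map, C_pow]
  congr 2
  refine Multiset.map_congr rfl fun a _ => ?_
  simp

end AK
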