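import Pool.Agent.Lib.MP_64d474_lc.AK.Defs

set_option autoImplicit false

namespace AK

open Polynomial

universe u

theorem DD_mono_right (r : ℕ) : ∀ {d d' : ℕ}, d ≤ d' → DD r d ≤ DD r d' := by
  induction r with
  | zero => intro d d' h; exact h
  | succ r ih =>
    intro d d' h
    exact ih (by gcongr)

theorem DD_succ (r d : ℕ) : DD r d ≤ DD (r + 1) d := by
  refine DD_mono_right r ?_
  rcases Nat.eq_zero_or_pos d with rfl | h
  · simp
  · calc d = d * 1 := (mul_one d).symm
      _ ≤ d * (4 * d ^ 3) := Nat.mul_le_mul_left d (Nat.mul_pos (by norm_num) (Nat.pow_pos h))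
      _ = 4 * d ^ 4 := by ring

theorem DD_mono_left (d : ℕ) {r r' : ℕ} (h : r ≤ r') : DD r d ≤ DD r' d :=
  monotone_nat_of_le_succ (f := fun r => DD r d) (fun r => DD_succ r d) h

/-- Row Z with row M as a hypothesis. -/
theorem nonzero_of_main {F : Type u} [Field F] {n : ℕ}
    (main : ∀ {r d : ℕ} (_ : 1 ≤ d) (T : Fin r → MvPolynomial (Fin n) F)
      (_ : AlgebraicIndependent F T) (_ : ∀ j, IsProd d (T j)),
      ∃ I : Finset (Fin n), I.card = r ∧ ∃ BB : Finset (MvPolynomial (Fin n) F),
        (∀ b ∈ BB, b ≠ 0 ∧ b.totalDegree ≤ DD r d) ∧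
        ∀ o : Fin n → F, (∀ b ∈ BB, MvPolynomial.eval o b ≠ 0) →
          AlgebraicIndependent F fun j => res I o (T j))
    {m r d : ℕ} (hd : 1 ≤ d)
    (T : Fin m → MvPolynomial (Fin n) F) (hprod : ∀ j, IsProd d (T j))
    (hr : ∀ s : Finset (Fin m), AlgebraicIndependent F (fun j : s => T j) → s.card ≤ r)
    (h : MvPolynomial (Fin n) F) (hh : h ∈ Algebra.adjoin F (Set.range T)) (h0 : h ≠ 0) :
    ∃ I : Finset (Fin n), I.card ≤ r ∧ ∃ BB : Finset (MvPolynomial (Fin n) F),
      (∀ b ∈ BB, b ≠ 0 ∧ b.totalDegree ≤ DD r d) ∧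
      ∀ o : Fin n → F, (∀ b ∈ BB, MvPolynomial.eval o b ≠ 0) → res I o h ≠ 0 := by
  classical
  -- a maximal independent subfamily
  obtain ⟨s, hs, hmax⟩ := Finset.exists_max_image
    (Finset.univ.filter fun s : Finset (Fin m) => AlgebraicIndependent F (fun j : s => T j))
    Finset.card ⟨∅, by
      simp only [Finset.mem_filter, Finset.mem_univ, true_and]
      exact algebraicIndependent_empty_type⟩
  simp only [Finset.mem_filter, Finset.mem_univ, true_and] at hs hmax
  have hs' : AlgebraicIndepOn F T (s : Set (Fin m)) := hs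
  have halg : ∀ i, IsAlgebraic (Algebra.adjoin F (T '' (s : Set (Fin m)))) (T i) := by
    intro i
    by_cases hi : i ∈ s
    · exact isAlgebraic_algebraMap
        (⟨T i, Algebra.subset_adjoin ⟨i, hi, rfl⟩⟩ : Algebra.adjoin F (T '' (s : Set (Fin m))))
    · by_contra hcon
      have h1 : AlgebraicIndepOn F T (insert i (s : Set (Fin m))) := hs'.insert hcon
      have h2 : AlgebraicIndependent F (fun j : (insert i s : Finset (Fin m)) => T j) := by
        have h3 : ((insert i s : Finset (Fin m)) : Set (Fin m)) = insert i (s : Set (Fin m)) :=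
          Finset.coe_insert i s
        rw [← h3] at h1
        exact h1
      have h4 := hmax _ h2
      rw [Finset.card_insert_of_notMem hi] at h4
      omega
  have halgh : IsAlgebraic (Algebra.adjoin F (T '' (s : Set (Fin m)))) h := by
    have hle : Algebra.adjoin F (Set.range T) ≤
        (Subalgebra.algebraicClosure (Algebra.adjoin F (T '' (s : Set (Fin m))))
          (MvPolynomial (Fin n) F)).restrictScalars F := by
      rw [Algebra.adjoin_le_iff]
      rintro _ ⟨i, rfl⟩
      exact halg i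
    exact hle hh
  obtain ⟨q, hq0, hdvd⟩ := halgh.exists_nonzero_dvd (mem_nonZeroDivisors_of_ne_zero h0)
  -- reindex
  let e : Fin s.card ≃ s := s.equivFin.symm
  have hT' : AlgebraicIndependent F (fun j : Fin s.card => T (e j)) := hs.comp e e.injective
  obtain ⟨I, hI, BB, hBB, hmain⟩ := main hd (fun j : Fin s.card => T (e j)) hT'
    (fun j => hprod _)
  refine ⟨I, hI.trans_le (hr s hs), BB, fun b hb => ⟨(hBB b hb).1,
    (hBB b hb).2.trans (DD_mono_left d (hr s hs))⟩, fun o ho hzero => ?_⟩
  have hind := hmain o ho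
  have hq : (q : MvPolynomial (Fin n) F) ∈ Algebra.adjoin F
      (Set.range fun j : Fin s.card => T (e j)) := by
    have h5 : (Set.range fun j : Fin s.card => T (e j)) = T '' (s : Set (Fin m)) := by
      ext p
      constructor
      · rintro ⟨j, rfl⟩
        exact ⟨e j, (e j).2, rfl⟩
      · rintro ⟨i, hi, rfl⟩
        exact ⟨e.symm ⟨i, hi⟩, by simp⟩
    rw [h5]
    exact q.2
  rw [Algebra.adjoin_range_eq_range_aeval] at hq
  obtain ⟨P, hP⟩ := hq
  have hP0 : P ≠ 0 := by
    rintro rfl
    apply hq0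
    apply Subtype.ext
    rw [← hP]
    simp
  obtain ⟨g, hg⟩ := hdvd
  have hq' : (algebraMap (Algebra.adjoin F (T '' (s : Set (Fin m)))) (MvPolynomial (Fin n) F)) q =
      (q : MvPolynomial (Fin n) F) := rfl
  rw [hq'] at hg
  have h6 : res I o (q : MvPolynomial (Fin n) F) = 0 := by
    rw [hg, map_mul, hzero, zero_mul]
  rw [← hP] at h6
  have h7 : MvPolynomial.aeval (fun j : Fin s.card => res I o (T (e j))) P = 0 := by
    rw [← h6]
    change _ = (res I o) ((MvPolynomial.aeval fun j : Fin s.card => T (e j)) P)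
    rw [← AlgHom.comp_apply, MvPolynomial.comp_aeval]
  exact hP0 ((injective_iff_map_eq_zero _).1 hind P h7)

end AK
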