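import Pool.Agent.Lib.MP_64d474_lc.AK.M90
import Pool.Agent.Lib.MP_64d474_lc.AK.Z4

/-!
# Iteration, main theorem and nonvanishing for abstract classes of polynomials

`K j` is a sequence of classes of polynomials (predicates), and the step leads from `K j` to
`K (j + 1)` in every coordinate direction.  The factors are in `K 0`, the finitely many
polynomials that must not vanish at the base point are in `K r`.
-/

set_option autoImplicit false

namespace AK

open Polynomial

universe u

/-- The step (row ST) in the direction `u` for the classes `P` and `P'`, for nontrivial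
valuations. -/
def StepK {F : Type u} [Field F] {n : ℕ} (P P' : MvPolynomial (Fin n) F → Prop)
    (u : Fin n → F) : Prop :=
  ∀ (BB : Finset (MvPolynomial (Fin n) F)), (∀ b ∈ BB, b ≠ 0 ∧ P b) →
    ∃ BB' : Finset (MvPolynomial (Fin n) F), (∀ b ∈ BB', b ≠ 0 ∧ P' b) ∧
      ∀ (L : Type u) [Field L] [IsAlgClosed L] [Algebra F L] (Γ : Type u)
        [LinearOrderedCommGroupWithZero Γ] (v : Valuation L Γ),
        (∀ c : F, c ≠ 0 → v (algebraMap F L c) = 1) → (∃ a : L, a ≠ 0 ∧ v a ≠ 1) →
        ∀ x x' : Fin n → L, Gen F x →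
        (∀ b ∈ BB', v (MvPolynomial.aeval x b) = v (MvPolynomial.aeval x' b)) →
        ∀ z : L, (∀ b ∈ BB, MvPolynomial.aeval (mv x z u) b ≠ 0) →
        ∃ z' : L, ∀ b ∈ BB,
          v (MvPolynomial.aeval (mv x z u) b) = v (MvPolynomial.aeval (mv x' z' u) b)

/-- The step for total degree. -/
theorem stepK_of_step {F : Type u} [Field F] {n : ℕ} (h : StepHyp90 F n) (D : ℕ) (hD : 1 ≤ D)
    (u : Fin n → F) :
    StepK (fun b : MvPolynomial (Fin n) F => b.totalDegree ≤ D)
      (fun b => b.totalDegree ≤ 4 * D ^ 4) u := by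
  intro BB hBB
  obtain ⟨BB', h1, h2⟩ := h D hD u BB hBB
  exact ⟨BB', h1, fun L _ _ _ Γ _ v hv _ => h2 L Γ v hv⟩

theorem iterK {F : Type u} [Field F] {n : ℕ} (K : ℕ → MvPolynomial (Fin n) F → Prop)
    (r : ℕ) : ∀ (D : ℕ)
    (u : Fin r → Fin n → F) (_ : ∀ j l, StepK (K j) (K (j + 1)) (u l))
    (BB : Finset (MvPolynomial (Fin n) F)) (_ : ∀ b ∈ BB, b ≠ 0 ∧ K D b),
    ∃ BB' : Finset (MvPolynomial (Fin n) F), (∀ b ∈ BB', b ≠ 0 ∧ K (D + r) b) ∧
      ∀ (L : Type u) [Field L] [IsAlgClosed L] [Algebra F L] (Γ : Type u)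
        [LinearOrderedCommGroupWithZero Γ] (v : Valuation L Γ),
        (∀ c : F, c ≠ 0 → v (algebraMap F L c) = 1) → (∃ a : L, a ≠ 0 ∧ v a ≠ 1) →
        ∀ x x' : Fin n → L, ∀ z : Fin r → L,
        (∀ j : ℕ, Gen F fun i => x i + ∑ l, if l.val < j then z l * algebraMap F L (u l i) else 0) →
        (∀ b ∈ BB', v (MvPolynomial.aeval x b) = v (MvPolynomial.aeval x' b)) →
        ∃ z' : Fin r → L, ∀ b ∈ BB,
          v (MvPolynomial.aeval (fun i => x i + ∑ l, z l * algebraMap F L (u l i)) b) =
          v (MvPolynomial.aeval (fun i => x' i + ∑ l, z' l * algebraMap F L (u l i)) b) := by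
  induction r with
  | zero =>
    intro D u hstep BB hd
    refine ⟨BB, fun b hb => ⟨(hd b hb).1, (hd b hb).2⟩, ?_⟩
    intro L _ _ _ Γ _ v hv hnt x x' z hgen hx
    refine ⟨z, fun b hb => ?_⟩
    simpa using hx b hb
  | succ r ih =>
    intro D u hstep BB hd
    obtain ⟨B1, hB1, h1⟩ := hstep D (Fin.last r) BB hd
    obtain ⟨B2, hB2, h2⟩ := ih (D + 1) (fun l => u l.castSucc) (fun j l => hstep j l.castSucc) B1 hB1
    refine ⟨B2, fun b hb => ⟨(hB2 b hb).1, ?_⟩, ?_⟩
    · have h0 := (hB2 b hb).2
      rwa [show D + 1 + r = D + (r + 1) by omega] at h0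
    intro L _ _ _ Γ _ v hv hnt x x' z hgen hx
    have hsum : ∀ (j : ℕ) (i : Fin n),
        (∑ l : Fin (r + 1), if l.val < min j r then z l * algebraMap F L (u l i) else 0) =
        ∑ l : Fin r, if l.val < j then z l.castSucc * algebraMap F L (u l.castSucc i) else 0 := by
      intro j i
      rw [Fin.sum_univ_castSucc]
      have h0 : ¬ ((Fin.last r).val < min j r) := by
        rw [Fin.val_last]; omega
      rw [if_neg h0, add_zero]
      refine Finset.sum_congr rfl fun l _ => ?_
      have hl := l.isLt
      by_cases h : l.val < j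
      · rw [if_pos h, if_pos (by rw [Fin.val_castSucc]; omega)]
      · rw [if_neg h, if_neg (by rw [Fin.val_castSucc]; omega)]
    have hgen' : ∀ j : ℕ, Gen F fun i => x i + ∑ l : Fin r, if l.val < j then
        z l.castSucc * algebraMap F L (u l.castSucc i) else 0 := by
      intro j
      have := hgen (min j r)
      simpa only [hsum] using this
    obtain ⟨z1, hz1⟩ := h2 L Γ v hv hnt x x' (fun l => z l.castSucc) hgen' hx
    have hgenX : Gen F fun i => x i + ∑ l : Fin r,
        z l.castSucc * algebraMap F L (u l.castSucc i) := by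
      have := hgen' r
      have h3 : ∀ i : Fin n, (∑ l : Fin r, if l.val < r then
        z l.castSucc * algebraMap F L (u l.castSucc i) else 0) =
        ∑ l : Fin r, z l.castSucc * algebraMap F L (u l.castSucc i) := by
        intro i
        refine Finset.sum_congr rfl fun l _ => ?_
        rw [if_pos l.isLt]
      simpa only [h3] using this
    have hmv : mv (fun i => x i + ∑ l : Fin r,
        z l.castSucc * algebraMap F L (u l.castSucc i)) (z (Fin.last r)) (u (Fin.last r)) =
        fun i => x i + ∑ l, z l * algebraMap F L (u l i) := by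
      funext i
      simp only [mv]
      rw [Fin.sum_univ_castSucc, add_assoc]
    have hne : ∀ b ∈ BB, MvPolynomial.aeval (mv (fun i => x i + ∑ l : Fin r,
        z l.castSucc * algebraMap F L (u l.castSucc i)) (z (Fin.last r)) (u (Fin.last r))) b ≠ 0 := by
      intro b hb
      rw [hmv]
      have h4 := hgen (r + 1) b (hd b hb).1
      have h5 : ∀ i : Fin n, (∑ l : Fin (r + 1), if l.val < r + 1 then
          z l * algebraMap F L (u l i) else 0) = ∑ l, z l * algebraMap F L (u l i) := by
        intro i
        refine Finset.sum_congr rfl fun l _ => ?_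
        rw [if_pos l.isLt]
      simpa only [h5] using h4
    obtain ⟨z2, hz2⟩ := h1 L Γ v hv hnt _ (fun i => x' i + ∑ l : Fin r,
        z1 l * algebraMap F L (u l.castSucc i)) hgenX hz1 (z (Fin.last r)) hne
    refine ⟨Fin.snoc z1 z2, fun b hb => ?_⟩
    have h6 := hz2 b hb
    rw [hmv] at h6
    rw [h6]
    congr 2
    congr 1
    funext i
    simp only [mv]
    rw [Fin.sum_univ_castSucc, add_assoc]
    simp only [Fin.snoc_castSucc, Fin.snoc_last]

/-- `T` is a product of members of the class `P`. -/
def IsProdK {F : Type*} [Field F] {n : ℕ} (P : MvPolynomial (Fin n) F → Prop)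
    (T : MvPolynomial (Fin n) F) : Prop :=
  ∃ s : Multiset (MvPolynomial (Fin n) F), (∀ p ∈ s, P p) ∧ T = s.prod

theorem mainK {F : Type u} [Field F] {n r : ℕ} (K : ℕ → MvPolynomial (Fin n) F → Prop)
    (hstep : ∀ j i, StepK (K j) (K (j + 1)) (Pi.single i 1))
    (hval : ValHyp90.{u}) (hsplit : SplitHyp90 F n) (hind : IndHyp90.{u})
    (T : Fin r → MvPolynomial (Fin n) F) (hT : AlgebraicIndependent F T)
    (hprod : ∀ j, IsProdK (K 0) (T j)) :
    ∃ I : Finset (Fin n), I.card = r ∧ ∃ BB : Finset (MvPolynomial (Fin n) F),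
      (∀ b ∈ BB, b ≠ 0 ∧ K r b) ∧
      ∀ o : Fin n → F, (∀ b ∈ BB, MvPolynomial.eval o b ≠ 0) →
        AlgebraicIndependent F fun j => res I o (T j) := by
  classical
  rcases Nat.eq_zero_or_pos r with hr0 | hr0
  · subst hr0
    refine ⟨∅, rfl, ∅, fun b hb => absurd hb (Finset.notMem_empty b), fun o _ => ?_⟩
    exact algebraicIndependent_empty_type
  obtain ⟨I, L, _, _, _, k, x, z, hI, hxk, hgen, hindk⟩ := hsplit T hT
  refine ⟨I, hI, ?_⟩
  choose s hs hsT using hprod
  have hTne : ∀ j, T j ≠ 0 := fun j => hT.ne_zero j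
  have hne : ∀ j, ∀ p ∈ s j, p ≠ 0 := by
    intro j p hp h0
    apply hTne j
    rw [hsT j]
    exact Multiset.prod_eq_zero (h0 ▸ hp)
  let B0 : Finset (MvPolynomial (Fin n) F) := Finset.univ.biUnion fun j => (s j).toFinset
  have hB0 : ∀ b ∈ B0, b ≠ 0 ∧ K 0 b := by
    intro b hb
    obtain ⟨j, _, hj⟩ := Finset.mem_biUnion.1 hb
    rw [Multiset.mem_toFinset] at hj
    exact ⟨hne j b hj, hs j b hj⟩
  let e : Fin r → Fin n := fun l => I.orderEmbOfFin hI l
  have he : Function.Injective e := (I.orderEmbOfFin hI).injective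
  have heI : ∀ l, e l ∈ I := fun l => Finset.orderEmbOfFin_mem I hI l
  have heimg : (Finset.univ.filter fun _ : Fin r => True).image e = I := by
    ext i
    rw [Finset.mem_image]
    constructor
    · rintro ⟨l, _, rfl⟩; exact heI l
    · intro hi
      have : i ∈ Set.range (I.orderEmbOfFin hI) := by
        rw [Finset.range_orderEmbOfFin]; exact hi
      obtain ⟨l, hl⟩ := this
      exact ⟨l, by simp, hl⟩
  obtain ⟨B1, hB1, h1⟩ := iterK K r 0 (fun l => Pi.single (e l) 1)
    (fun j l => hstep j (e l)) B0 hB0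
  rw [zero_add] at hB1
  refine ⟨B1, hB1, ?_⟩
  intro o ho
  obtain ⟨V, hVk, hVt⟩ := hval (fun j => MvPolynomial.aeval
    (fun i => x i + if i ∈ I then z i else 0) (T j)) hindk
  have hVF : ∀ c : F, c ≠ 0 → V.valuation (algebraMap F L c) = 1 := by
    intro c hc
    have := hVk (algebraMap F k c) (by
      intro h; apply hc
      exact (algebraMap F k).injective (by rw [h, map_zero]))
    exact this
  have hnt : ∃ a : L, a ≠ 0 ∧ V.valuation a ≠ 1 := by
    refine ⟨MvPolynomial.aeval (fun i => x i + if i ∈ I then z i else 0) (T ⟨0, hr0⟩),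
      hindk.ne_zero ⟨0, hr0⟩, ?_⟩
    have h1 := hVt (Finsupp.single ⟨0, hr0⟩ 1) 0 (by simp)
    simpa using h1
  have hg : ∀ j : ℕ, Gen F fun i => x i + ∑ l, if l.val < j then
      z (e l) * algebraMap F L ((Pi.single (e l) 1 : Fin n → F) i) else 0 := by
    intro j
    have h2 : ∀ i : Fin n, (∑ l, if l.val < j then
        z (e l) * algebraMap F L ((Pi.single (e l) 1 : Fin n → F) i) else 0) =
        if i ∈ (Finset.univ.filter fun l : Fin r => l.val < j).image e then z i else 0 := by
      intro i
      rw [sum_single90 e (fun l => z (e l)) (fun l => l.val < j) i,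
        sum_ite90 e he z (fun l => l.val < j) i]
    simp only [h2]
    apply hgen
    intro i hi
    obtain ⟨l, _, rfl⟩ := Finset.mem_image.1 hi
    exact heI l
  have hX : ∀ b ∈ B1, V.valuation (MvPolynomial.aeval x b) =
      V.valuation (MvPolynomial.aeval (fun i => algebraMap F L (o i)) b) := by
    intro b hb
    have h3 : MvPolynomial.aeval x b ≠ 0 := by
      have := hgen ∅ (Finset.empty_subset _) b (hB1 b hb).1
      simpa using this
    have h4 : MvPolynomial.aeval x b = algebraMap k L
        (MvPolynomial.aeval (fun i => (⟨x i, hxk i⟩ : k)) b) := by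
      rw [← MvPolynomial.aeval_algebraMap_apply]
      rfl
    have h5 : V.valuation (MvPolynomial.aeval x b) = 1 := by
      rw [h4]
      apply hVk
      intro h6
      apply h3
      rw [h4, h6, map_zero]
    have h7 : MvPolynomial.aeval (fun i => algebraMap F L (o i)) b =
        algebraMap F L (MvPolynomial.eval o b) := by
      have h8 : (fun i => algebraMap F L (o i)) = ⇑(algebraMap F L) ∘ o := rfl
      rw [h8, MvPolynomial.aeval_algebraMap_apply]
      rfl
    rw [h5, h7, hVF _ (ho b hb)]
  obtain ⟨z', hz'⟩ := h1 L _ V.valuation hVF hnt x (fun i => algebraMap F L (o i))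
    (fun l => z (e l)) hg hX
  have hsumI : ∀ (c : Fin r → L) (i : Fin n), (∑ l, c l *
      algebraMap F L ((Pi.single (e l) 1 : Fin n → F) i)) =
      ∑ l, if e l = i then c l else 0 := by
    intro c i
    have := sum_single90 (F := F) e c (fun _ => True) i
    simpa using this
  have hw : (fun i => x i + ∑ l, z (e l) * algebraMap F L ((Pi.single (e l) 1 : Fin n → F) i)) =
      fun i => x i + if i ∈ I then z i else 0 := by
    funext i
    have h8 := sum_single90 (F := F) e (fun l => z (e l)) (fun _ => True) i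
    have h9 := sum_ite90 e he z (fun _ => True) i
    rw [heimg] at h9
    rw [h9] at h8
    simp only [if_true] at h8
    rw [h8]
  rw [hw] at hz'
  set w' : Fin n → L := fun i => algebraMap F L (o i) + ∑ l, z' l *
      algebraMap F L ((Pi.single (e l) 1 : Fin n → F) i) with hw'
  have hTv : ∀ j, V.valuation (MvPolynomial.aeval (fun i => x i + if i ∈ I then z i else 0) (T j))
      = V.valuation (MvPolynomial.aeval w' (T j)) := by
    intro j
    rw [hsT j, map_multiset_prod, map_multiset_prod, map_multiset_prod, map_multiset_prod,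
      Multiset.map_map, Multiset.map_map]
    congr 1
    refine Multiset.map_congr rfl fun p hp => ?_
    exact hz' p (Finset.mem_biUnion.2 ⟨j, Finset.mem_univ _, Multiset.mem_toFinset.2 hp⟩)
  have hfin : AlgebraicIndependent F fun j => MvPolynomial.aeval w' (T j) := by
    refine hind V.valuation hVF _ ?_
    intro α β hab
    have key : ∀ γ : Fin r →₀ ℕ, V.valuation (γ.prod fun i m =>
        (MvPolynomial.aeval w' (T i)) ^ m) = V.valuation (γ.prod fun i m =>
        (MvPolynomial.aeval (fun i => x i + if i ∈ I then z i else 0) (T i)) ^ m) := by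
      intro γ
      simp only [Finsupp.prod, map_prod, map_pow]
      refine Finset.prod_congr rfl fun i _ => ?_
      rw [hTv i]
    rw [key α, key β]
    exact hVt α β hab
  let ψ : MvPolynomial (Fin n) F →ₐ[F] L :=
    MvPolynomial.aeval fun i => ∑ l, if e l = i then z' l else 0
  have hψ : ∀ q : MvPolynomial (Fin n) F, ψ (res I o q) = MvPolynomial.aeval w' q := by
    intro q
    have : ψ.comp (res I o) = MvPolynomial.aeval w' := by
      apply MvPolynomial.algHom_ext
      intro i
      rw [AlgHom.comp_apply]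
      simp only [res, MvPolynomial.aeval_X, ψ, hw']
      rw [map_add, hsumI z' i]
      have h10 : (MvPolynomial.aeval fun i => ∑ l, if e l = i then z' l else 0)
          (MvPolynomial.C (o i) : MvPolynomial (Fin n) F) = algebraMap F L (o i) := by
        rw [MvPolynomial.aeval_C]
      rw [h10]
      congr 1
      by_cases hi : i ∈ I
      · rw [if_pos hi, MvPolynomial.aeval_X]
      · rw [if_neg hi, map_zero]
        symm
        refine Finset.sum_eq_zero fun l _ => ?_
        rw [if_neg]
        intro h; exact hi (h ▸ heI l)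
    rw [← this]; rfl
  refine AlgebraicIndependent.of_comp ψ ?_
  have : (⇑ψ ∘ fun j => res I o (T j)) = fun j => MvPolynomial.aeval w' (T j) := by
    funext j
    exact hψ (T j)
  rw [this]
  exact hfin

theorem monoK {F : Type*} [Field F] {n : ℕ} {K : ℕ → MvPolynomial (Fin n) F → Prop}
    (hmono : ∀ j b, K j b → K (j + 1) b) {r r' : ℕ} (h : r ≤ r') (b : MvPolynomial (Fin n) F)
    (hb : K r b) : K r' b := by
  induction h with
  | refl => exact hb
  | step _ ih => exact hmono _ _ ih

/-- Polynomials of products of members of the class `K 0`, of transcendence degree at most `r`. -/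
theorem nonzeroK {F : Type u} [Field F] {n : ℕ} (K : ℕ → MvPolynomial (Fin n) F → Prop)
    (hstep : ∀ j i, StepK (K j) (K (j + 1)) (Pi.single i 1))
    (hmono : ∀ j b, K j b → K (j + 1) b)
    (hval : ValHyp90.{u}) (hsplit : SplitHyp90 F n) (hind : IndHyp90.{u})
    {m r : ℕ}
    (T : Fin m → MvPolynomial (Fin n) F) (hprod : ∀ j, IsProdK (K 0) (T j))
    (hr : ∀ s : Finset (Fin m), AlgebraicIndependent F (fun j : s => T j) → s.card ≤ r)
    (h : MvPolynomial (Fin n) F) (hh : h ∈ Algebra.adjoin F (Set.range T)) (h0 : h ≠ 0) :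
    ∃ I : Finset (Fin n), I.card ≤ r ∧ ∃ BB : Finset (MvPolynomial (Fin n) F),
      (∀ b ∈ BB, b ≠ 0 ∧ K r b) ∧
      ∀ o : Fin n → F, (∀ b ∈ BB, MvPolynomial.eval o b ≠ 0) → res I o h ≠ 0 := by
  classical
  -- a maximal independent subfamily
  obtain ⟨s, hs, hmax⟩ := Finset.exists_max_image
    (Finset.univ.filter fun s : Finset (Fin m) => AlgebraicIndependent F (fun j : s => T j))
    Finset.card ⟨∅, by
      simp only [Finset.mem_filter, Finset.mem_univ, true_and]
      exact algebraicIndependent_empty_type⟩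
  simp only [Finset.mem_filter, Finset.mem_univ, true_and] at hs hmax
  have hs' : AlgebraicIndepOn F T (s : Set (Fin m)) := hs
  have halg : ∀ i, IsAlgebraic (Algebra.adjoin F (T '' (s : Set (Fin m)))) (T i) := by
    intro i
    by_cases hi : i ∈ s
    · exact isAlgebraic_algebraMap
        (⟨T i, Algebra.subset_adjoin ⟨i, hi, rfl⟩⟩ : Algebra.adjoin F (T '' (s : Set (Fin m))))
    · by_contra hcon
      have h1 : AlgebraicIndepOn F T (insert i (s : Set (Fin m))) := hs'.insert hcon
      have h2 : AlgebraicIndependent F (fun j : (insert i s : Finset (Fin m)) => T j) := by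
        have h3 : ((insert i s : Finset (Fin m)) : Set (Fin m)) = insert i (s : Set (Fin m)) :=
          Finset.coe_insert i s
        rw [← h3] at h1
        exact h1
      have h4 := hmax _ h2
      rw [Finset.card_insert_of_notMem hi] at h4
      omega
  have halgh : IsAlgebraic (Algebra.adjoin F (T '' (s : Set (Fin m)))) h := by
    have hle : Algebra.adjoin F (Set.range T) ≤
        (Subalgebra.algebraicClosure (Algebra.adjoin F (T '' (s : Set (Fin m))))
          (MvPolynomial (Fin n) F)).restrictScalars F := by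
      rw [Algebra.adjoin_le_iff]
      rintro _ ⟨i, rfl⟩
      exact halg i
    exact hle hh
  obtain ⟨q, hq0, hdvd⟩ := halgh.exists_nonzero_dvd (mem_nonZeroDivisors_of_ne_zero h0)
  -- reindex
  let e : Fin s.card ≃ s := s.equivFin.symm
  have hT' : AlgebraicIndependent F (fun j : Fin s.card => T (e j)) := hs.comp e e.injective
  obtain ⟨I, hI, BB, hBB, hmain⟩ := mainK K hstep hval hsplit hind
    (fun j : Fin s.card => T (e j)) hT' (fun j => hprod _)
  refine ⟨I, hI.trans_le (hr s hs), BB, fun b hb => ⟨(hBB b hb).1,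
    monoK hmono (hr s hs) b (hBB b hb).2⟩, fun o ho hzero => ?_⟩
  have hind := hmain o ho
  have hq : (q : MvPolynomial (Fin n) F) ∈ Algebra.adjoin F
      (Set.range fun j : Fin s.card => T (e j)) := by
    have h5 : (Set.range fun j : Fin s.card => T (e j)) = T '' (s : Set (Fin m)) := by
      ext p
      constructor
      · rintro ⟨j, rfl⟩
        exact ⟨e j, (e j).2, rfl⟩
      · rintro ⟨i, hi, rfl⟩
        exact ⟨e.symm ⟨i, hi⟩, by simp⟩
    rw [h5]
    exact q.2
  rw [Algebra.adjoin_range_eq_range_aeval] at hq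
  obtain ⟨P, hP⟩ := hq
  have hP0 : P ≠ 0 := by
    rintro rfl
    apply hq0
    apply Subtype.ext
    rw [← hP]
    simp
  obtain ⟨g, hg⟩ := hdvd
  have hq' : (algebraMap (Algebra.adjoin F (T '' (s : Set (Fin m)))) (MvPolynomial (Fin n) F)) q =
      (q : MvPolynomial (Fin n) F) := rfl
  rw [hq'] at hg
  have h6 : res I o (q : MvPolynomial (Fin n) F) = 0 := by
    rw [hg, map_mul, hzero, zero_mul]
  rw [← hP] at h6
  have h7 : MvPolynomial.aeval (fun j : Fin s.card => res I o (T (e j))) P = 0 := by
    rw [← h6]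
    change _ = (res I o) ((MvPolynomial.aeval fun j : Fin s.card => T (e j)) P)
    rw [← AlgHom.comp_apply, MvPolynomial.comp_aeval]
  exact hP0 ((injective_iff_map_eq_zero _).1 hind P h7)

end AK
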