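import Mathlib

/-!
# Products of polynomials of low degree, bounded transcendence degree: definitions
-/

set_option autoImplicit false

namespace AK

open Polynomial

section defs

variable {F : Type*} [Field F] {σ : Type*}

/-- `a(x + X u)`. -/
noncomputable def sh (u : σ → F) : MvPolynomial σ F →ₐ[F] (MvPolynomial σ F)[X] :=
  MvPolynomial.aeval fun i => C (MvPolynomial.X i) + X * C (MvPolynomial.C (u i))

/-- The point `x + t u` over an extension field. -/
def mv {L : Type*} [Field L] [Algebra F L] (x : σ → L) (t : L) (u : σ → F) : σ → L :=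
  fun i => x i + t * algebraMap F L (u i)

/-- The point `x` is generic over `F`. -/
def Gen (F : Type*) [Field F] {σ : Type*} {L : Type*} [Field L] [Algebra F L] (x : σ → L) : Prop :=
  ∀ a : MvPolynomial σ F, a ≠ 0 → MvPolynomial.aeval x a ≠ 0

end defs

/-- `Res_w (B(w), t - Q(w))`, a polynomial in `t`, with formal degrees `e`, `m` in `w`. -/
noncomputable def chi {R : Type*} [CommRing R] (B Q : R[X]) (e m : ℕ) : R[X] :=
  resultant (B.map C) (C X - Q.map C) e m

/-- The degrees after `r` steps. -/
def DD : ℕ → ℕ → ℕ
  | 0, d => d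
  | r + 1, d => DD r (4 * d ^ 4)

/-- Restriction of a polynomial to the coordinate plane `o + F^I`. -/
noncomputable def res {F : Type*} [Field F] {n : ℕ} (I : Finset (Fin n)) (o : Fin n → F) :
    MvPolynomial (Fin n) F →ₐ[F] MvPolynomial (Fin n) F :=
  MvPolynomial.aeval fun i => MvPolynomial.C (o i) + if i ∈ I then MvPolynomial.X i else 0

/-- `T` is a product of polynomials of degree at most `d`. -/
def IsProd {F : Type*} [Field F] {n : ℕ} (d : ℕ) (T : MvPolynomial (Fin n) F) : Prop :=
  ∃ s : Multiset (MvPolynomial (Fin n) F), (∀ p ∈ s, p.totalDegree ≤ d) ∧ T = s.prod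

end AK
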