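import Pool.Agent.Lib.MP_64d474_lc.AK.GenDefs
import Pool.Agent.Lib.MP_64d474_lc.AK.RowH82
import Pool.Agent.Lib.MP_64d474_lc.AK.Chi97

/-! # Row EX: the coefficients of `chi` are expressions in the Taylor coefficients -/

set_option autoImplicit false

namespace AK

open Polynomial

namespace Ex3

/-- Taylor coefficients of Taylor coefficients -/
theorem sh_sh_coeff3 {F : Type*} [Field F] {σ : Type*} (u : σ → F) (a : MvPolynomial σ F)
    (j k : ℕ) :
    (sh u ((sh u a).coeff k)).coeff j =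
      ((j + k).choose k : MvPolynomial σ F) * (sh u a).coeff (j + k) := by
  have h : ((Polynomial.mapRingHom ((sh u : MvPolynomial σ F →ₐ[F] _) : MvPolynomial σ F →+*
      (MvPolynomial σ F)[X])).comp ((sh u : MvPolynomial σ F →ₐ[F] _) : MvPolynomial σ F →+*
      (MvPolynomial σ F)[X])) =
      (Polynomial.eval₂RingHom ((C : (MvPolynomial σ F)[X] →+* _).comp C)
        (X + C X : (MvPolynomial σ F)[X][X])).comp
        ((sh u : MvPolynomial σ F →ₐ[F] _) : MvPolynomial σ F →+* (MvPolynomial σ F)[X]) := by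
    apply MvPolynomial.ringHom_ext
    · intro r
      simp [sh]
    · intro i
      simp [sh]
      ring
  have h1 := congrArg (fun f => ((f a).coeff k).coeff j) h
  simp only [RingHom.comp_apply, coe_mapRingHom, coeff_map, RingHom.coe_coe,
    Polynomial.coe_eval₂RingHom] at h1
  rw [h1, Polynomial.eval₂_eq_sum_range, finsetSum_coeff, finsetSum_coeff]
  have h2 : ∀ n, (((C (C ((sh u a).coeff n)) : (MvPolynomial σ F)[X][X]) *
      (X + C X) ^ n).coeff k).coeff j =
      if n = j + k then ((j + k).choose k : MvPolynomial σ F) * (sh u a).coeff (j + k) else 0 := by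
    intro n
    rw [coeff_C_mul, coeff_X_add_C_pow, coeff_C_mul]
    rw [← C_eq_natCast, mul_comm (X ^ (n - k)) _, coeff_C_mul, coeff_X_pow]
    by_cases hn : n = j + k
    · subst hn
      rw [if_pos rfl, if_pos (by omega)]
      ring
    · rw [if_neg hn]
      by_cases hk : j = n - k
      · rw [if_pos hk]
        have : n < k := by omega
        rw [Nat.choose_eq_zero_of_lt this]
        simp
      · rw [if_neg hk]
        simp
  simp only [RingHom.comp_apply, h2]
  rw [Finset.sum_ite_eq']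
  split_ifs with h3
  · rfl
  · rw [Finset.mem_range, not_lt] at h3
    rw [coeff_eq_zero_of_natDegree_lt (by omega), mul_zero]

section filt

variable {A : Type*} [CommRing A]

/-- Polynomials in two variables with coefficients in the `d`-th step of a filtration. -/
def fil (P : ℕ → AddSubgroup A) (d : ℕ) : AddSubgroup A[X][X] where
  carrier := {x | ∀ i k, (x.coeff i).coeff k ∈ P d}
  zero_mem' := by
    intro i k
    rw [coeff_zero, coeff_zero]
    exact AddSubgroup.zero_mem _
  add_mem' := by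
    intro x y hx hy i k
    rw [coeff_add, coeff_add]
    exact AddSubgroup.add_mem _ (hx i k) (hy i k)
  neg_mem' := by
    intro x hx i k
    rw [coeff_neg, coeff_neg]
    exact AddSubgroup.neg_mem _ (hx i k)

variable {P : ℕ → AddSubgroup A}

theorem mem_fil {d : ℕ} {x : A[X][X]} :
    x ∈ fil P d ↔ ∀ i k, (x.coeff i).coeff k ∈ P d := Iff.rfl

theorem one_coeff_mem (h1 : (1 : A) ∈ P 0) (k : ℕ) : (1 : A[X]).coeff k ∈ P 0 := by
  rw [coeff_one]
  split_ifs
  · exact h1
  · exact AddSubgroup.zero_mem _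

theorem fil_one (h1 : (1 : A) ∈ P 0) : (1 : A[X][X]) ∈ fil P 0 := by
  intro i k
  rw [coeff_one]
  split_ifs
  · exact one_coeff_mem h1 k
  · rw [coeff_zero]
    exact AddSubgroup.zero_mem _

theorem fil_mul (hmul : ∀ (a b : ℕ) (x y : A), x ∈ P a → y ∈ P b → x * y ∈ P (a + b))
    {a b : ℕ} {x y : A[X][X]} (hx : x ∈ fil P a)
    (hy : y ∈ fil P b) : x * y ∈ fil P (a + b) := by
  intro i k
  rw [coeff_mul, finsetSum_coeff]
  refine AddSubgroup.sum_mem _ fun p _ => ?_
  rw [coeff_mul]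
  exact AddSubgroup.sum_mem _ fun q _ => hmul _ _ _ _ (hx _ _) (hy _ _)

theorem fil_mono (hm : ∀ a b : ℕ, a ≤ b → P a ≤ P b) {a b : ℕ} (h : a ≤ b) {x : A[X][X]}
    (hx : x ∈ fil P a) : x ∈ fil P b := fun i k => hm a b h (hx i k)

theorem fil_pow (h1 : (1 : A) ∈ P 0)
    (hmul : ∀ (a b : ℕ) (x y : A), x ∈ P a → y ∈ P b → x * y ∈ P (a + b))
    {a : ℕ} {x : A[X][X]} (hx : x ∈ fil P a) (n : ℕ) :
    x ^ n ∈ fil P (n * a) := by
  induction n with
  | zero => rw [pow_zero, zero_mul]; exact fil_one h1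
  | succ n ih =>
    rw [pow_succ, Nat.succ_mul]
    exact fil_mul hmul ih hx

theorem fil_prod (h1 : (1 : A) ∈ P 0)
    (hmul : ∀ (a b : ℕ) (x y : A), x ∈ P a → y ∈ P b → x * y ∈ P (a + b))
    {ι : Type*} (s : Finset ι) (x : ι → A[X][X]) (a : ι → ℕ)
    (h : ∀ i ∈ s, x i ∈ fil P (a i)) : ∏ i ∈ s, x i ∈ fil P (∑ i ∈ s, a i) := by
  classical
  induction s using Finset.induction_on with
  | empty => rw [Finset.prod_empty, Finset.sum_empty]; exact fil_one h1
  | insert i s hi ih =>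
    rw [Finset.prod_insert hi, Finset.sum_insert hi]
    exact fil_mul hmul (h i (Finset.mem_insert_self _ _))
      (ih fun j hj => h j (Finset.mem_insert_of_mem hj))

theorem C_mem_fil {a : ℕ} {x : A[X]} (hx : ∀ j, x.coeff j ∈ P a) :
    (C x : A[X][X]) ∈ fil P a := by
  intro i k
  rw [coeff_C]
  split_ifs
  · exact hx k
  · rw [coeff_zero]
    exact AddSubgroup.zero_mem _

theorem CC_mem_fil {a : ℕ} {x : A} (hx : x ∈ P a) :
    (C (C x) : A[X][X]) ∈ fil P a := by
  apply C_mem_fil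
  intro j
  rw [coeff_C]
  split_ifs
  · exact hx
  · exact AddSubgroup.zero_mem _

theorem X_mem_fil (h1 : (1 : A) ∈ P 0) : (X : A[X][X]) ∈ fil P 0 := by
  intro i k
  rw [coeff_X]
  split_ifs
  · exact one_coeff_mem h1 k
  · rw [coeff_zero]
    exact AddSubgroup.zero_mem _

theorem CX_mem_fil (h1 : (1 : A) ∈ P 0) : (C X : A[X][X]) ∈ fil P 0 := by
  apply C_mem_fil
  intro j
  rw [coeff_X]
  split_ifs
  · exact h1
  · exact AddSubgroup.zero_mem _

/-- a polynomial in `w` with coefficients in `P 1`, plus `u` -/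
theorem lin_mem_fil (h1 : (1 : A) ∈ P 0) (hm : ∀ a b : ℕ, a ≤ b → P a ≤ P b)
    {Q : A[X]} (hQ : ∀ j, Q.coeff j ∈ P 1) :
    (Q.map C + C X : A[X][X]) ∈ fil P 1 := by
  refine AddSubgroup.add_mem _ ?_ (fil_mono hm (Nat.zero_le _) (CX_mem_fil h1))
  intro i k
  rw [coeff_map, coeff_C]
  split_ifs
  · exact hQ i
  · exact AddSubgroup.zero_mem _

/-- the coefficients of `chi` -/
theorem chi_fil3 (h1 : (1 : A) ∈ P 0)
    (hmul : ∀ (a b : ℕ) (x y : A), x ∈ P a → y ∈ P b → x * y ∈ P (a + b))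
    (hm : ∀ a b : ℕ, a ≤ b → P a ≤ P b) {e : ℕ} {B : A[X]} (hB : ∀ j, B.coeff j ∈ P 1)
    {Q : A[X][X]} {a : ℕ} (hQ : Q ∈ fil P a) (m j k : ℕ) :
    ((chi (B.map C) Q e m).coeff j).coeff k ∈ P (e * a + m * 1) := by
  have h := resultant_filt82 (fil P) (fil_one h1)
    (fun a b x y hx hy => fil_mul hmul hx hy)
    ((B.map C).map C) (C X - Q.map C) 1 a e m
    (by
      intro i
      rw [coeff_map, coeff_map]
      exact CC_mem_fil (hB i))
    (by
      intro i
      rw [coeff_sub]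
      refine AddSubgroup.sub_mem _ ?_ ?_
      · rw [coeff_C]
        split_ifs
        · exact fil_mono hm (Nat.zero_le _) (X_mem_fil h1)
        · exact AddSubgroup.zero_mem _
      · rw [coeff_map]
        exact C_mem_fil (fun k => hQ i k))
  exact mem_fil.1 h j k

theorem chi_prod_fil3 (h1 : (1 : A) ∈ P 0)
    (hmul : ∀ (a b : ℕ) (x y : A), x ∈ P a → y ∈ P b → x * y ∈ P (a + b))
    (hm : ∀ a b : ℕ, a ≤ b → P a ≤ P b) {e : ℕ} {B : A[X]} (hB : ∀ j, B.coeff j ∈ P 1)
    {Q : Fin e → A[X]} (hQ : ∀ l j, (Q l).coeff j ∈ P 1) (c : Fin e → ℕ) (m j k : ℕ) :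
    ((chi (B.map C) (∏ l, ((Q l).map C + C X) ^ c l) e m).coeff j).coeff k ∈
      P (e * (∑ l, c l * 1) + m * 1) :=
  chi_fil3 h1 hmul hm hB
    (fil_prod h1 hmul _ _ _ (fun l _ => fil_pow h1 hmul (lin_mem_fil h1 hm (hQ l)) (c l))) m j k

end filt

/-- Polynomials of total degree at most `d`. -/
def tdf (F : Type*) [Field F] (σ : Type*) (d : ℕ) : AddSubgroup (MvPolynomial σ F) where
  carrier := {x | x.totalDegree ≤ d}
  zero_mem' := by simp
  add_mem' := by
    intro x y hx hy
    exact (MvPolynomial.totalDegree_add _ _).trans (max_le hx hy)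
  neg_mem' := by
    intro x hx
    show (-x).totalDegree ≤ d
    rw [MvPolynomial.totalDegree_neg]
    exact hx

theorem chi_deg3 {F : Type*} [Field F] {σ : Type*} {e : ℕ} {B : (MvPolynomial σ F)[X]}
    (hB : ∀ j, (B.coeff j).totalDegree ≤ 1) {Q : Fin e → (MvPolynomial σ F)[X]}
    (hQ : ∀ l j, ((Q l).coeff j).totalDegree ≤ 1) (c : Fin e → ℕ) (m j k : ℕ) :
    (((chi (B.map C) (∏ l, ((Q l).map C + C X) ^ c l) e m).coeff j).coeff k).totalDegree ≤
      e * (∑ l, c l * 1) + m * 1 := by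
  have h1 : (1 : MvPolynomial σ F) ∈ tdf F σ 0 := by
    show (1 : MvPolynomial σ F).totalDegree ≤ 0
    simp
  have hmul : ∀ (a b : ℕ) (x y : MvPolynomial σ F), x ∈ tdf F σ a → y ∈ tdf F σ b →
      x * y ∈ tdf F σ (a + b) := fun a b x y hx hy =>
    (MvPolynomial.totalDegree_mul x y).trans (add_le_add hx hy)
  exact chi_prod_fil3 (P := tdf F σ) h1 hmul (fun a b hab x hx => le_trans hx hab) hB hQ c m j k

/-- lifts of the polynomials `(g_kappa)(x + X u)` -/
theorem lift3 {F : Type*} [Field F] {σ : Type*} (u : σ → F) {E : ℕ}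
    (G : Fin (E + 1) → MvPolynomial σ F) (hG : ∀ i, (sh u (G i)).natDegree ≤ E)
    (i : Fin (E + 1)) (κ : ℕ) :
    ∃ p : (MvPolynomial (Fin (E + 1) × Fin (E + 1)) F)[X], (∀ j, (p.coeff j).totalDegree ≤ 1) ∧
      p.map ((MvPolynomial.aeval (fun ij : Fin (E + 1) × Fin (E + 1) =>
        (sh u (G ij.1)).coeff ij.2) : MvPolynomial (Fin (E + 1) × Fin (E + 1)) F →ₐ[F]
          MvPolynomial σ F) : MvPolynomial (Fin (E + 1) × Fin (E + 1)) F →+* MvPolynomial σ F) =
      sh u ((sh u (G i)).coeff κ) := by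
  refine ⟨∑ j ∈ Finset.range (E + 1), if h : j + κ < E + 1 then
      C (MvPolynomial.C ((j + κ).choose κ : F) * MvPolynomial.X (i, ⟨j + κ, h⟩)) * X ^ j else 0,
      ?_, ?_⟩
  · intro j'
    rw [finsetSum_coeff]
    refine (MvPolynomial.totalDegree_finsetSum _ _).trans (Finset.sup_le fun j _ => ?_)
    split_ifs with h
    · rw [coeff_C_mul, coeff_X_pow]
      split_ifs
      · rw [mul_one]
        refine (MvPolynomial.totalDegree_mul _ _).trans ?_
        rw [MvPolynomial.totalDegree_C, zero_add]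
        exact (MvPolynomial.totalDegree_X _).le
      · simp
    · simp
  · ext1 j'
    rw [sh_sh_coeff3, Polynomial.map_sum, finsetSum_coeff]
    have h1 : ∀ j ∈ Finset.range (E + 1), ((if h : j + κ < E + 1 then
        C (MvPolynomial.C ((j + κ).choose κ : F) * MvPolynomial.X (i, ⟨j + κ, h⟩)) * X ^ j
        else (0 : (MvPolynomial (Fin (E + 1) × Fin (E + 1)) F)[X])).map
          ((MvPolynomial.aeval (fun ij : Fin (E + 1) × Fin (E + 1) =>
            (sh u (G ij.1)).coeff ij.2) : MvPolynomial (Fin (E + 1) × Fin (E + 1)) F →ₐ[F]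
            MvPolynomial σ F) :
              MvPolynomial (Fin (E + 1) × Fin (E + 1)) F →+* MvPolynomial σ F)).coeff j' =
        if j = j' then ((j' + κ).choose κ : MvPolynomial σ F) *
          (sh u (G i)).coeff (j' + κ) else 0 := by
      intro j _
      split_ifs with h h2 h2
      · subst h2
        rw [coeff_map, coeff_C_mul, coeff_X_pow, if_pos rfl, mul_one, map_mul, RingHom.coe_coe,
          MvPolynomial.aeval_X, MvPolynomial.aeval_C]
        simp
      · rw [coeff_map, coeff_C_mul, coeff_X_pow, if_neg (Ne.symm h2), mul_zero, map_zero]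
      · subst h2
        rw [Polynomial.map_zero, coeff_zero, coeff_eq_zero_of_natDegree_lt, mul_zero]
        have := hG i
        omega
      · simp
    rw [Finset.sum_congr rfl h1, Finset.sum_ite_eq']
    split_ifs with h2
    · rfl
    · rw [Finset.mem_range, not_lt] at h2
      rw [coeff_eq_zero_of_natDegree_lt, mul_zero]
      have := hG i
      omega

theorem sh_coeff_zero3 {F : Type*} [Field F] {σ : Type*} (u : σ → F) (a : MvPolynomial σ F) :
    (sh u a).coeff 0 = a := by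
  have h : ((Polynomial.evalRingHom (0 : MvPolynomial σ F)).comp
      ((sh u : MvPolynomial σ F →ₐ[F] _) : MvPolynomial σ F →+*
        (MvPolynomial σ F)[X])) = RingHom.id _ := by
    apply MvPolynomial.ringHom_ext
    · intro r
      simp [sh]
    · intro i
      simp [sh]
  have h1 := congrArg (fun f => f a) h
  simp only [RingHom.comp_apply, Polynomial.coe_evalRingHom, RingHom.coe_coe,
    RingHom.id_apply] at h1
  rw [Polynomial.coeff_zero_eq_eval_zero, h1]

/-- the value of `chi` under a ring homomorphism -/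
theorem chi_val3 {S R : Type*} [CommRing S] [CommRing R] (φ : S →+* R) (B : S[X]) {e : ℕ}
    (Q : Fin e → S[X]) (c : Fin e → ℕ) (m j k : ℕ) (B' : R[X]) (Q' : Fin e → R[X])
    (hB : B.map φ = B') (hQ : ∀ l, (Q l).map φ = Q' l) :
    φ (((chi (B.map C) (∏ l, ((Q l).map C + C X) ^ c l) e m).coeff j).coeff k) =
      ((chi (B'.map C) (∏ l, ((Q' l).map C + C X) ^ c l) e m).coeff j).coeff k := by
  have hmap := chi_map (mapRingHom φ) (B.map C) (∏ l, ((Q l).map C + C X) ^ c l) e m
  have hC : ∀ p : S[X], (p.map (C : S →+* S[X])).map (mapRingHom φ) = (p.map φ).map C := by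
    intro p
    rw [Polynomial.map_map, Polynomial.map_map]
    congr 1
    ext a
    simp
  have hQm : (∏ l, ((Q l).map C + C X) ^ c l : S[X][X]).map (mapRingHom φ) =
      ∏ l, ((Q' l).map C + C X) ^ c l := by
    rw [Polynomial.map_prod]
    refine Finset.prod_congr rfl fun l _ => ?_
    rw [Polynomial.map_pow, Polynomial.map_add, hC, hQ, map_C, coe_mapRingHom, map_X]
  rw [hC, hB, hQm] at hmap
  rw [← hmap, coeff_map, coe_mapRingHom, coeff_map]

end Ex3

open Ex3 in
/-- Row EX -/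
theorem chi_expr {F : Type*} [Field F] {n : ℕ} (u : Fin n → F) (E : ℕ)
    (BB : Finset (MvPolynomial (Fin n) F)) (hE : ∀ b ∈ BB, (sh u b).natDegree ≤ E)
    (b0 : MvPolynomial (Fin n) F) (hb0 : b0 ∈ BB) (e : ℕ) (he : (sh u b0).natDegree = e)
    (g : Fin e → MvPolynomial (Fin n) F) (hg : ∀ l, g l ∈ BB) (κ c : Fin e → ℕ)
    (hc : ∀ l, c l ≤ e + 1) (j k : ℕ) :
    Expr u E (2 * E ^ 2 * (E + 1)) BB
      (((chi ((sh u b0).map C) (∏ l, ((sh u ((sh u (g l)).coeff (κ l))).map C + C X) ^ c l) e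
        (e * (e + 1) * E)).coeff j).coeff k) := by
  classical
  have heE : e ≤ E := he ▸ hE b0 hb0
  -- the generators
  obtain ⟨G, hG, hG0, L, hGL⟩ : ∃ G : Fin (E + 1) → MvPolynomial (Fin n) F, (∀ i, G i ∈ BB) ∧
      G 0 = b0 ∧ ∃ L : Fin e → Fin (E + 1), ∀ l, G (L l) = g l := by
    refine ⟨fun i => if h : (i : ℕ) - 1 < e ∧ (i : ℕ) ≠ 0 then g ⟨(i : ℕ) - 1, h.1⟩ else b0,
      ?_, ?_, fun l => ⟨(l : ℕ) + 1, by have := l.2; omega⟩, ?_⟩
    · intro i
      dsimp only
      split_ifs with h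
      · exact hg _
      · exact hb0
    · dsimp only
      rw [dif_neg]
      simp
    · intro l
      dsimp only
      rw [dif_pos ⟨by simp, by simp⟩]
      congr 1
  have key := lift3 u G (fun i => hE _ (hG i))
  obtain ⟨B, hB1, hB2⟩ := key 0 0
  rw [sh_coeff_zero3, hG0] at hB2
  choose Q hQ1 hQ2 using fun l : Fin e => key (L l) (κ l)
  refine ⟨G, ((chi (B.map C) (∏ l, ((Q l).map C + C X) ^ c l) e
        (e * (e + 1) * E)).coeff j).coeff k, hG, ?_, ?_⟩
  · -- the degree
    refine (chi_deg3 hB1 hQ1 c _ j k).trans ?_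
    have h0 : ∑ l, c l * 1 ≤ e * (e + 1) := by
      calc ∑ l, c l * 1 ≤ ∑ _l : Fin e, (e + 1) := by
            refine Finset.sum_le_sum fun l _ => ?_
            rw [mul_one]
            exact hc l
        _ = e * (e + 1) := by simp
    have h1 : e * (∑ l, c l * 1) ≤ E ^ 2 * (E + 1) := by
      calc e * (∑ l, c l * 1) ≤ e * (e * (e + 1)) := Nat.mul_le_mul le_rfl h0
        _ ≤ E * (E * (E + 1)) :=
            Nat.mul_le_mul heE (Nat.mul_le_mul heE (by omega))
        _ = E ^ 2 * (E + 1) := by ring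
    have h2 : e * (e + 1) * E * 1 ≤ E ^ 2 * (E + 1) := by
      calc e * (e + 1) * E * 1 ≤ E * (E + 1) * E * 1 :=
            Nat.mul_le_mul (Nat.mul_le_mul (Nat.mul_le_mul heE (by omega)) le_rfl) le_rfl
        _ = E ^ 2 * (E + 1) := by ring
    calc e * (∑ l, c l * 1) + e * (e + 1) * E * 1 ≤ E ^ 2 * (E + 1) + E ^ 2 * (E + 1) :=
          add_le_add h1 h2
      _ = 2 * E ^ 2 * (E + 1) := by ring
  · -- the value
    have h := chi_val3 _ B Q c (e * (e + 1) * E) j k _
      (fun l => sh u ((sh u (g l)).coeff (κ l))) hB2 (fun l => by rw [hQ2, hGL])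
    rw [← h]
    rfl

end AK
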