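import Pool.Agent.Lib.MP_64d474_lc.AK.Defs
import Pool.Agent.Lib.MP_64d474_lc.K3.Disc29

/-!
# Row G
-/

set_option autoImplicit false

namespace AK

open Polynomial

theorem zeta_coeff {F L Γ : Type*} [Field F] [Field L] [Algebra F L]
    [LinearOrderedCommGroupWithZero Γ] (v : Valuation L Γ)
    (hv : ∀ c : F, c ≠ 0 → v (algebraMap F L c) = 1) (p : L[X]) :
    {ζ : F | ∃ k, ¬ v (p.coeff k) ≤ v (p.eval (algebraMap F L ζ))}.Finite := by
  refine (K3.isGauss_generic hv p 0 1).subset ?_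
  rintro ζ ⟨k, hk⟩ hg
  apply hk
  have := hg.1 k
  rw [taylor_zero, map_one, one_pow, mul_one, zero_add, mul_one] at this
  exact this

theorem zeta_near {F L Γ : Type*} [Field F] [Field L] [IsAlgClosed L] [Algebra F L]
    [LinearOrderedCommGroupWithZero Γ] (v : Valuation L Γ)
    (hv : ∀ c : F, c ≠ 0 → v (algebraMap F L c) = 1) (p : L[X]) (_hp : p ≠ 0) (z ρ : L)
    (hmin : ∀ a ∈ p.roots, v (z - ρ) ≤ v (z - a)) :
    {ζ : F | v (p.eval (ρ + algebraMap F L ζ * (z - ρ))) ≠ v (p.eval z)}.Finite := by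
  refine (K3.isGauss_generic hv p ρ (z - ρ)).subset ?_
  intro ζ hζ hg
  exact hζ (hg.unique (K3.isGauss_nearest p ρ z hmin))

end AK
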