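import Pool.Agent.Lib.MP_64d474_lc.AK.Defs

/-!
# Round 2: general classes of factors (for example sparse polynomials of bounded individual degree)
-/

set_option autoImplicit false

namespace AK

open Polynomial

universe u

/-- `b` is a polynomial expression of degree at most `M` in Taylor coefficients (in direction `u`)
of at most `E + 1` members of `BB` (`E + 1` coefficients each). -/
def Expr {F : Type*} [Field F] {n : ℕ} (u : Fin n → F) (E M : ℕ)
    (BB : Finset (MvPolynomial (Fin n) F)) (b : MvPolynomial (Fin n) F) : Prop :=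
  ∃ (g : Fin (E + 1) → MvPolynomial (Fin n) F) (p : MvPolynomial (Fin (E + 1) × Fin (E + 1)) F),
    (∀ i, g i ∈ BB) ∧ p.totalDegree ≤ M ∧
    b = MvPolynomial.aeval (fun ij => (sh u (g ij.1)).coeff ij.2) p

/-- Values on `BB'` at `x`, `x'` control the values on `BB` after a move in direction `u`. -/
def StepProp {F : Type u} [Field F] {n : ℕ} (u : Fin n → F)
    (BB BB' : Finset (MvPolynomial (Fin n) F)) : Prop :=
  ∀ (L : Type u) [Field L] [IsAlgClosed L] [Algebra F L] (Γ : Type u)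
    [LinearOrderedCommGroupWithZero Γ] (v : Valuation L Γ),
    (∀ c : F, c ≠ 0 → v (algebraMap F L c) = 1) → (∃ a : L, v a ≠ 0 ∧ v a < 1) →
    ∀ x x' : Fin n → L, Gen F x →
    (∀ b ∈ BB', v (MvPolynomial.aeval x b) = v (MvPolynomial.aeval x' b)) →
    ∀ z : L, (∀ b ∈ BB, MvPolynomial.aeval (mv x z u) b ≠ 0) →
    ∃ z' : L, ∀ b ∈ BB,
      v (MvPolynomial.aeval (mv x z u) b) = v (MvPolynomial.aeval (mv x' z' u) b)

/-- The classes `P 0, P 1, ..` admit steps in all coordinate directions. -/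
def Steps {F : Type u} [Field F] {n : ℕ} (P : ℕ → MvPolynomial (Fin n) F → Prop) : Prop :=
  ∀ (m : ℕ) (i : Fin n) (BB : Finset (MvPolynomial (Fin n) F)), (∀ b ∈ BB, b ≠ 0 ∧ P m b) →
    ∃ BB' : Finset (MvPolynomial (Fin n) F), (∀ b ∈ BB', b ≠ 0 ∧ P (m + 1) b) ∧
      StepProp (Pi.single i 1) BB BB'

/-- `b` is `s`-sparse of individual degree at most `d`. -/
def Sparse {F : Type*} [Field F] {n : ℕ} (s d : ℕ) (b : MvPolynomial (Fin n) F) : Prop :=
  b.support.card ≤ s ∧ ∀ i, b.degreeOf i ≤ d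

/-- Sparsity and individual degree after `m` steps. -/
def SS : ℕ → ℕ × ℕ → ℕ × ℕ
  | 0, p => p
  | m + 1, p => SS m (((p.2 + 1) * (p.2 + 1) * p.1 + 1) ^ (2 * p.2 ^ 2 * (p.2 + 1)),
      2 * p.2 ^ 2 * (p.2 + 1) * p.2)

end AK
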