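import Mathlib
import Pool.Agent.Lib.MP_64d474_lc.AK.Defs
import Pool.Agent.Lib.MP_64d474_lc.S3.Hit35b

/-!
# The tests: moment generator and grid
-/

set_option autoImplicit false

namespace AK

open MvPolynomial Pool.Agent.Lib.MP_64d474_lc.S3

universe u

/-- The test point: `∑ i, z_i (y_i ^ k)_k + ∑ j, w_j e_(I j)`. -/
def test {F : Type*} [Field F] {n S r : ℕ} (z y : Fin S → F) (I : Fin r → Fin n) (w : Fin r → F) :
    Fin n → F :=
  fun k => ∑ i, z i * y i ^ (k : ℕ) + ∑ j, if I j = k then w j else 0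

theorem totalDegree_aeval_le_of_linear {F σ τ : Type*} [Field F] (g : σ → MvPolynomial τ F)
    (hg : ∀ k, (g k).totalDegree ≤ 1) (f : MvPolynomial σ F) :
    (aeval g f).totalDegree ≤ f.totalDegree := by
  rw [aeval_def, eval₂_eq]
  refine (totalDegree_finsetSum _ _).trans (Finset.sup_le fun d hd => ?_)
  refine (totalDegree_mul _ _).trans ?_
  have h1 : (algebraMap F (MvPolynomial τ F) (coeff d f)).totalDegree = 0 := by
    rw [algebraMap_eq]; exact totalDegree_C _
  rw [h1, zero_add]
  refine (totalDegree_finsetProd _ _).trans ?_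
  calc ∑ i ∈ d.support, (g i ^ d i).totalDegree ≤ ∑ i ∈ d.support, d i := by
        refine Finset.sum_le_sum fun i _ => (totalDegree_pow _ _).trans ?_
        calc d i * (g i).totalDegree ≤ d i * 1 := Nat.mul_le_mul_left _ (hg i)
          _ = d i := mul_one _
    _ ≤ f.totalDegree := le_totalDegree hd

/-- Some point of the moment generator with `S` seeds is not a zero of a given nonzero polynomial
of degree at most `S`. -/
theorem exists_moment {F : Type*} [Field F] [CharZero F] {n S : ℕ} {P : MvPolynomial (Fin n) F}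
    (hP : P ≠ 0) (hd : P.totalDegree ≤ S) :
    ∃ z y : Fin S → F, eval (fun k : Fin n => ∑ i, z i * y i ^ (k : ℕ)) P ≠ 0 := by
  classical
  set V : Matrix (Fin n) (Fin n) F := Matrix.vandermonde fun i : Fin n => ((i : ℕ) : F) with hV
  have hdet : V.transpose.det ≠ 0 := by
    rw [Matrix.det_transpose, hV, Matrix.det_vandermonde_ne_zero_iff]
    intro i j hij
    exact Fin.ext (Nat.cast_injective hij)
  set g : Fin n → MvPolynomial (Fin n) F := fun k => ∑ j, C (V j k) * X j with hg
  have hev : ∀ c : Fin n → F, eval c (aeval g P) = eval (fun k => ∑ j, V j k * c j) P := by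
    intro c
    have h1 := MvPolynomial.comp_aeval_apply g (aeval c : MvPolynomial (Fin n) F →ₐ[F] F) P
    rw [aeval_eq_eval] at h1
    rw [h1, aeval_eq_eval]
    congr 2
    funext k
    simp [hg]
  have hne : aeval g P ≠ 0 := by
    obtain ⟨x, hx⟩ : ∃ x : Fin n → F, eval x P ≠ 0 := by
      by_contra hno
      push Not at hno
      exact hP (MvPolynomial.funext fun x => by rw [map_zero]; exact hno x)
    intro h0
    apply hx
    have h2 := hev (V.transpose⁻¹.mulVec x)
    rw [h0, map_zero] at h2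
    have h3 : (fun k => ∑ j, V j k * (V.transpose⁻¹.mulVec x) j) = x := by
      have h4 : V.transpose.mulVec (V.transpose⁻¹.mulVec x) = x := by
        rw [Matrix.mulVec_mulVec, Matrix.mul_nonsing_inv _ (isUnit_iff_ne_zero.2 hdet),
          Matrix.one_mulVec]
      funext k
      have h5 := congrFun h4 k
      simpa [Matrix.mulVec, dotProduct] using h5
    rw [h3] at h2
    exact h2.symm
  have hdeg : (aeval g P).totalDegree ≤ S := by
    refine (totalDegree_aeval_le_of_linear g (fun k => ?_) P).trans hd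
    refine (totalDegree_finsetSum _ _).trans (Finset.sup_le fun j _ => ?_)
    refine (totalDegree_mul _ _).trans ?_
    rw [totalDegree_C, totalDegree_X]
  obtain ⟨T, hT, c, hc, hne'⟩ := exists_sparse_point hne hdeg
  rw [hev] at hne'
  obtain ⟨r, rfl⟩ := Nat.exists_eq_add_of_le hT
  refine ⟨Fin.append (fun i => c (T.equivFin.symm i)) (fun _ => 0),
    Fin.append (fun i => (((T.equivFin.symm i : Fin n) : ℕ) : F)) (fun _ => 0), ?_⟩
  have h6 : (fun k : Fin n => ∑ i, Fin.append (fun i => c (T.equivFin.symm i)) (fun _ : Fin r => 0) i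
      * Fin.append (fun i => (((T.equivFin.symm i : Fin n) : ℕ) : F)) (fun _ : Fin r => 0) i ^ (k : ℕ))
      = fun k => ∑ j, V j k * c j := by
    funext k
    rw [Fin.sum_univ_add]
    simp only [Fin.append_left, Fin.append_right, zero_mul, Finset.sum_const_zero, add_zero]
    rw [Equiv.sum_comp T.equivFin.symm (fun j : T => c j * (((j : Fin n) : ℕ) : F) ^ (k : ℕ))]
    rw [Finset.sum_coe_sort T (fun j : Fin n => c j * ((j : ℕ) : F) ^ (k : ℕ))]
    rw [← Finset.sum_subset (Finset.subset_univ T)]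
    · refine Finset.sum_congr rfl fun j _ => ?_
      rw [hV, Matrix.vandermonde_apply, mul_comm]
    · intro j _ hj
      rw [hc j hj, mul_zero]
  rw [h6]
  exact hne'

theorem exists_index {F : Type*} [Field F] {n : ℕ} (hn : 0 < n) (I : Finset (Fin n)) :
    ∀ r : ℕ, I.card ≤ r → ∃ I' : Fin r → Fin n, ∀ w : Fin n → F, ∃ w' : Fin r → F,
      ∀ k, (∑ j, if I' j = k then w' j else 0) = if k ∈ I then w k else 0 := by
  classical
  induction I using Finset.induction_on with
  | empty =>
    intro r _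
    exact ⟨fun _ => ⟨0, hn⟩, fun w => ⟨fun _ => 0, fun k => by simp⟩⟩
  | insert a I ha ih =>
    intro r hr
    rw [Finset.card_insert_of_notMem ha] at hr
    obtain ⟨r, rfl⟩ : ∃ r', r = r' + 1 := ⟨r - 1, by omega⟩
    obtain ⟨I', h⟩ := ih r (by omega)
    refine ⟨Fin.cons a I', fun w => ?_⟩
    obtain ⟨w', hw'⟩ := h w
    refine ⟨Fin.cons (w a) w', fun k => ?_⟩
    rw [Fin.sum_univ_succ]
    simp only [Fin.cons_zero, Fin.cons_succ]
    rw [hw' k]
    by_cases hka : a = k
    · subst hka
      simp [ha]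
    · simp [hka, Ne.symm hka]

/-- The generic test. -/
noncomputable def gX (F : Type*) [Field F] (n S r : ℕ) (I : Fin r → Fin n) (k : Fin n) :
    MvPolynomial ((Fin S ⊕ Fin S) ⊕ Fin r) F :=
  ∑ i, X (Sum.inl (Sum.inl i)) * X (Sum.inl (Sum.inr i)) ^ (k : ℕ) +
    ∑ j, if I j = k then X (Sum.inr j) else 0

theorem eval_gX {F : Type*} [Field F] {n S r : ℕ} (I : Fin r → Fin n) (h : MvPolynomial (Fin n) F)
    (z y : Fin S → F) (w : Fin r → F) :
    eval (Sum.elim (Sum.elim z y) w) (aeval (gX F n S r I) h) = eval (test z y I w) h := by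
  have h1 := MvPolynomial.comp_aeval_apply (gX F n S r I)
    (aeval (Sum.elim (Sum.elim z y) w) : MvPolynomial ((Fin S ⊕ Fin S) ⊕ Fin r) F →ₐ[F] F) h
  rw [aeval_eq_eval] at h1
  rw [h1, aeval_eq_eval]
  congr 2
  funext k
  simp only [gX, test, map_add, map_sum, map_mul, map_pow, eval_X, Sum.elim_inl, Sum.elim_inr]
  congr 1
  refine Finset.sum_congr rfl fun j _ => ?_
  split_ifs <;> simp

theorem degreeOf_gX_z {F : Type*} [Field F] {n S r : ℕ} (I : Fin r → Fin n) (k : Fin n)
    (i : Fin S) : (gX F n S r I k).degreeOf (Sum.inl (Sum.inl i)) ≤ 1 := by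
  classical
  rw [gX]
  refine (degreeOf_add_le _ _ _).trans (max_le ?_ ?_)
  · refine (degreeOf_sum_le _ _ _).trans (Finset.sup_le fun a _ => ?_)
    refine (degreeOf_mul_le _ _ _).trans ?_
    have h2 : ((X (Sum.inl (Sum.inr a)) : MvPolynomial ((Fin S ⊕ Fin S) ⊕ Fin r) F)
        ^ (k : ℕ)).degreeOf (Sum.inl (Sum.inl i)) ≤ 0 := by
      refine (degreeOf_pow_le _ _ _).trans ?_
      rw [degreeOf_X]; simp
    have h1 : (X (Sum.inl (Sum.inl a)) : MvPolynomial ((Fin S ⊕ Fin S) ⊕ Fin r) F).degreeOf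
        (Sum.inl (Sum.inl i)) ≤ 1 := by
      rw [degreeOf_X]; split_ifs <;> simp
    omega
  · refine (degreeOf_sum_le _ _ _).trans (Finset.sup_le fun a _ => ?_)
    split_ifs
    · rw [degreeOf_X]; simp
    · simp

theorem degreeOf_gX_y {F : Type*} [Field F] {n S r : ℕ} (I : Fin r → Fin n) (k : Fin n)
    (i : Fin S) : (gX F n S r I k).degreeOf (Sum.inl (Sum.inr i)) ≤ n := by
  classical
  rw [gX]
  refine (degreeOf_add_le _ _ _).trans (max_le ?_ ?_)
  · refine (degreeOf_sum_le _ _ _).trans (Finset.sup_le fun a _ => ?_)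
    refine (degreeOf_mul_le _ _ _).trans ?_
    have h2 : ((X (Sum.inl (Sum.inr a)) : MvPolynomial ((Fin S ⊕ Fin S) ⊕ Fin r) F)
        ^ (k : ℕ)).degreeOf (Sum.inl (Sum.inr i)) ≤ k := by
      refine (degreeOf_pow_le _ _ _).trans ?_
      rw [degreeOf_X]; split_ifs <;> simp
    have h1 : (X (Sum.inl (Sum.inl a)) : MvPolynomial ((Fin S ⊕ Fin S) ⊕ Fin r) F).degreeOf
        (Sum.inl (Sum.inr i)) = 0 := by
      rw [degreeOf_X]; simp
    have h3 := k.isLt
    omega
  · refine (degreeOf_sum_le _ _ _).trans (Finset.sup_le fun a _ => ?_)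
    split_ifs
    · rw [degreeOf_X]; simp
    · simp

theorem degreeOf_gX_w {F : Type*} [Field F] {n S r : ℕ} (I : Fin r → Fin n) (k : Fin n)
    (i : Fin r) : (gX F n S r I k).degreeOf (Sum.inr i) ≤ 1 := by
  classical
  rw [gX]
  refine (degreeOf_add_le _ _ _).trans (max_le ?_ ?_)
  · refine (degreeOf_sum_le _ _ _).trans (Finset.sup_le fun a _ => ?_)
    refine (degreeOf_mul_le _ _ _).trans ?_
    have h2 : ((X (Sum.inl (Sum.inr a)) : MvPolynomial ((Fin S ⊕ Fin S) ⊕ Fin r) F)
        ^ (k : ℕ)).degreeOf (Sum.inr i) ≤ 0 := by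
      refine (degreeOf_pow_le _ _ _).trans ?_
      rw [degreeOf_X]; simp
    have h1 : (X (Sum.inl (Sum.inl a)) : MvPolynomial ((Fin S ⊕ Fin S) ⊕ Fin r) F).degreeOf
        (Sum.inr i) = 0 := by
      rw [degreeOf_X]; simp
    omega
  · refine (degreeOf_sum_le _ _ _).trans (Finset.sup_le fun a _ => ?_)
    split_ifs
    · rw [degreeOf_X]; split_ifs <;> simp
    · simp

/-- From the restriction theorem to the tests. -/
theorem hit_core {F : Type*} [Field F] [CharZero F] {n r S N : ℕ} (hn : 0 < n)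
    (h : MvPolynomial (Fin n) F) (hN : h.totalDegree ≤ N) (I : Finset (Fin n)) (hI : I.card ≤ r)
    (BB : Finset (MvPolynomial (Fin n) F)) (hBB : ∀ b ∈ BB, b ≠ 0 ∧ b.totalDegree ≤ S)
    (hres : ∀ o : Fin n → F, (∀ b ∈ BB, eval o b ≠ 0) → res I o h ≠ 0) :
    ∃ (z y : Fin S → ℕ) (I' : Fin r → Fin n) (w : Fin r → ℕ), (∀ i, z i ≤ N) ∧
      (∀ i, y i ≤ n * N) ∧ (∀ i, w i ≤ N) ∧
      eval (test (fun i => (z i : F)) (fun i => (y i : F)) I' (fun i => (w i : F))) h ≠ 0 := by
  classical
  obtain ⟨I', hI'⟩ := exists_index (F := F) hn I r hI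
  -- a point of the moment generator
  obtain ⟨z, y, hzy⟩ : ∃ z y : Fin S → F, ∀ b ∈ BB,
      eval (fun k : Fin n => ∑ i, z i * y i ^ (k : ℕ)) b ≠ 0 := by
    have key : ∀ (b : MvPolynomial (Fin n) F) (x : (Fin S ⊕ Fin S) ⊕ Fin 0 → F),
        eval x (aeval (gX F n S 0 Fin.elim0) b) =
        eval (fun k : Fin n => ∑ i, x (Sum.inl (Sum.inl i)) * x (Sum.inl (Sum.inr i)) ^ (k : ℕ))
          b := by
      intro b x
      have h1 := eval_gX (Fin.elim0 : Fin 0 → Fin n) b (fun i => x (Sum.inl (Sum.inl i)))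
        (fun i => x (Sum.inl (Sum.inr i))) (fun i => x (Sum.inr i))
      have h2 : Sum.elim (Sum.elim (fun i => x (Sum.inl (Sum.inl i)))
          (fun i => x (Sum.inl (Sum.inr i)))) (fun i => x (Sum.inr i)) = x := by
        funext j
        rcases j with (j | j) | j <;> rfl
      rw [h2] at h1
      rw [h1]
      congr 2
      funext k
      simp [test]
    have hprod : (∏ b ∈ BB, aeval (gX F n S 0 Fin.elim0) b) ≠ 0 := by
      rw [Finset.prod_ne_zero_iff]
      intro b hb h0
      obtain ⟨z, y, hzy⟩ := exists_moment (hBB b hb).1 (hBB b hb).2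
      apply hzy
      have h1 := key b (Sum.elim (Sum.elim z y) Fin.elim0)
      rw [h0, map_zero] at h1
      simpa using h1.symm
    obtain ⟨x, hx⟩ : ∃ x : (Fin S ⊕ Fin S) ⊕ Fin 0 → F,
        eval x (∏ b ∈ BB, aeval (gX F n S 0 Fin.elim0) b) ≠ 0 := by
      by_contra hno
      push Not at hno
      exact hprod (MvPolynomial.funext fun x => by rw [map_zero]; exact hno x)
    rw [map_prod, Finset.prod_ne_zero_iff] at hx
    refine ⟨fun i => x (Sum.inl (Sum.inl i)), fun i => x (Sum.inl (Sum.inr i)), fun b hb => ?_⟩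
    rw [← key]
    exact hx b hb
  -- the polynomial in the seeds is nonzero
  have hpoly : aeval (gX F n S r I') h ≠ 0 := by
    have h1 := hres _ hzy
    obtain ⟨w, hw⟩ : ∃ w : Fin n → F,
        eval w (res I (fun k : Fin n => ∑ i, z i * y i ^ (k : ℕ)) h) ≠ 0 := by
      by_contra hno
      push Not at hno
      exact h1 (MvPolynomial.funext fun x => by rw [map_zero]; exact hno x)
    obtain ⟨w', hw'⟩ := hI' w
    intro h0
    apply hw
    have h2 := eval_gX I' h z y w'
    rw [h0, map_zero] at h2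
    have h3 := MvPolynomial.comp_aeval_apply
      (fun i : Fin n => (C (∑ j, z j * y j ^ (i : ℕ)) + if i ∈ I then X i else 0 :
        MvPolynomial (Fin n) F))
      (aeval w : MvPolynomial (Fin n) F →ₐ[F] F) h
    rw [aeval_eq_eval] at h3
    rw [res, h3, aeval_eq_eval]
    have h4 : (fun i : Fin n => (eval w) (C (∑ j, z j * y j ^ (i : ℕ)) +
        if i ∈ I then X i else 0)) = test z y I' w' := by
      funext k
      rw [map_add, eval_C, test, hw' k]
      congr 1
      split_ifs
      · rw [eval_X]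
      · rw [map_zero]
    rw [h4]
    exact h2.symm
  by_contra hno
  push Not at hno
  apply hpoly
  refine eq_zero_of_eval_zero_at_prod_finset (aeval (gX F n S r I') h)
    (Sum.elim (Sum.elim (fun _ => (Finset.range (N + 1)).image (fun a : ℕ => (a : F)))
      (fun _ => (Finset.range (n * N + 1)).image (fun a : ℕ => (a : F))))
      (fun _ => (Finset.range (N + 1)).image (fun a : ℕ => (a : F)))) ?_ ?_
  · rintro ((i | i) | i)
    · simp only [Sum.elim_inl]
      rw [Finset.card_image_of_injective _ Nat.cast_injective, Finset.card_range]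
      refine Nat.lt_succ_of_le ((degreeOf_aeval_le _ _ 1 (fun k => degreeOf_gX_z I' k i) h).trans ?_)
      simpa using hN
    · simp only [Sum.elim_inl, Sum.elim_inr]
      rw [Finset.card_image_of_injective _ Nat.cast_injective, Finset.card_range]
      refine Nat.lt_succ_of_le ((degreeOf_aeval_le _ _ n (fun k => degreeOf_gX_y I' k i) h).trans ?_)
      rw [mul_comm]
      exact Nat.mul_le_mul_left _ hN
    · simp only [Sum.elim_inr]
      rw [Finset.card_image_of_injective _ Nat.cast_injective, Finset.card_range]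
      refine Nat.lt_succ_of_le ((degreeOf_aeval_le _ _ 1 (fun k => degreeOf_gX_w I' k i) h).trans ?_)
      simpa using hN
  · intro x hx
    have hz : ∀ i : Fin S, ∃ a : ℕ, a ≤ N ∧ (a : F) = x (Sum.inl (Sum.inl i)) := by
      intro i
      have := hx (Sum.inl (Sum.inl i))
      simp only [Sum.elim_inl, Finset.mem_image, Finset.mem_range] at this
      obtain ⟨a, ha, ha2⟩ := this
      exact ⟨a, by omega, ha2⟩
    have hy : ∀ i : Fin S, ∃ a : ℕ, a ≤ n * N ∧ (a : F) = x (Sum.inl (Sum.inr i)) := by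
      intro i
      have := hx (Sum.inl (Sum.inr i))
      simp only [Sum.elim_inl, Sum.elim_inr, Finset.mem_image, Finset.mem_range] at this
      obtain ⟨a, ha, ha2⟩ := this
      exact ⟨a, by omega, ha2⟩
    have hw : ∀ i : Fin r, ∃ a : ℕ, a ≤ N ∧ (a : F) = x (Sum.inr i) := by
      intro i
      have := hx (Sum.inr i)
      simp only [Sum.elim_inr, Finset.mem_image, Finset.mem_range] at this
      obtain ⟨a, ha, ha2⟩ := this
      exact ⟨a, by omega, ha2⟩
    choose z' hz1 hz2 using hz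
    choose y' hy1 hy2 using hy
    choose w' hw1 hw2 using hw
    have h1 := hno z' y' I' w' hz1 hy1 hw1
    have h2 := eval_gX I' h (fun i => (z' i : F)) (fun i => (y' i : F)) (fun i => (w' i : F))
    rw [h1] at h2
    have h5 : x = Sum.elim (Sum.elim (fun i => (z' i : F)) (fun i => (y' i : F)))
        (fun i => (w' i : F)) := by
      funext j
      rcases j with (j | j) | j
      · exact (hz2 j).symm
      · exact (hy2 j).symm
      · exact (hw2 j).symm
    rw [h5]
    exact h2

/-- The statement of row Z. -/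
def StNonzero : Prop :=
  ∀ (F : Type u) [Field F] [Infinite F] (n m r d : ℕ), 1 ≤ d →
    ∀ T : Fin m → MvPolynomial (Fin n) F, (∀ j, IsProd d (T j)) →
      (∀ s : Finset (Fin m), AlgebraicIndependent F (fun j : s => T j) → s.card ≤ r) →
      ∀ h : MvPolynomial (Fin n) F, h ∈ Algebra.adjoin F (Set.range T) → h ≠ 0 →
      ∃ I : Finset (Fin n), I.card ≤ r ∧ ∃ BB : Finset (MvPolynomial (Fin n) F),
        (∀ b ∈ BB, b ≠ 0 ∧ b.totalDegree ≤ DD r d) ∧
        ∀ o : Fin n → F, (∀ b ∈ BB, MvPolynomial.eval o b ≠ 0) → res I o h ≠ 0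

theorem hit_of_nonzero (hNZ : StNonzero.{u}) {F : Type u} [Field F] [CharZero F]
    {n m r d N : ℕ} (hn : 0 < n) (hd : 1 ≤ d)
    (T : Fin m → MvPolynomial (Fin n) F) (hprod : ∀ j, IsProd d (T j))
    (hr : ∀ s : Finset (Fin m), AlgebraicIndependent F (fun j : s => T j) → s.card ≤ r)
    (h : MvPolynomial (Fin n) F) (hh : h ∈ Algebra.adjoin F (Set.range T)) (h0 : h ≠ 0)
    (hN : h.totalDegree ≤ N) :
    ∃ (z y : Fin (DD r d) → ℕ) (I : Fin r → Fin n) (w : Fin r → ℕ), (∀ i, z i ≤ N) ∧
      (∀ i, y i ≤ n * N) ∧ (∀ i, w i ≤ N) ∧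
      MvPolynomial.eval (test (fun i => (z i : F)) (fun i => (y i : F)) I
        (fun i => (w i : F))) h ≠ 0 := by
  obtain ⟨I, hI, BB, hBB, hres⟩ := hNZ F n m r d hd T hprod hr h hh h0
  exact hit_core hn h hN I hI BB hBB hres

end AK
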