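import Pool.Agent.Lib.MP_64d474_lc.AK.Defs

/-!
# Row I: independence from a valuation (helper90)
-/

set_option autoImplicit false

namespace AK

theorem indep_of_val {F L Γ : Type*} [Field F] [Field L] [Algebra F L]
    [LinearOrderedCommGroupWithZero Γ] (v : Valuation L Γ)
    (hv : ∀ c : F, c ≠ 0 → v (algebraMap F L c) = 1) {r : ℕ} (t : Fin r → L)
    (h : ∀ α β : Fin r →₀ ℕ, α ≠ β →
      v (α.prod fun i m => t i ^ m) ≠ v (β.prod fun i m => t i ^ m)) :
    AlgebraicIndependent F t := by
  classical
  rw [algebraicIndependent_iff]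
  intro p hp
  by_contra hne
  have ht : ∀ i, t i ≠ 0 := by
    intro i hi
    apply h (Finsupp.single i 1) (Finsupp.single i 2)
    · intro h2
      have := DFunLike.congr_fun h2 i
      simp at this
    · simp [hi]
  have hv0 : ∀ α : Fin r →₀ ℕ, v (α.prod fun i m => t i ^ m) ≠ 0 := by
    intro α
    rw [Valuation.ne_zero_iff]
    exact Finset.prod_ne_zero_iff.2 fun i _ => pow_ne_zero _ (ht i)
  have hsupp : p.support.Nonempty := MvPolynomial.support_nonempty.2 hne
  obtain ⟨α, hα, hmax⟩ := Finset.exists_max_image p.support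
    (fun α => v (α.prod fun i m => t i ^ m)) hsupp
  have hsum : MvPolynomial.aeval t p = ∑ β ∈ p.support,
      algebraMap F L (p.coeff β) * (β.prod fun i m => t i ^ m) := by
    rw [MvPolynomial.aeval_def, MvPolynomial.eval₂_eq']
    refine Finset.sum_congr rfl fun β _ => ?_
    rw [Finsupp.prod_fintype]
    intro i; exact pow_zero _
  rw [← Finset.add_sum_erase _ _ hα] at hsum
  have hvt : ∀ β ∈ p.support, v (algebraMap F L (p.coeff β) * (β.prod fun i m => t i ^ m)) =
      v (β.prod fun i m => t i ^ m) := by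
    intro β hβ
    rw [map_mul, hv _ (MvPolynomial.mem_support_iff.1 hβ), one_mul]
  have hlt : v (∑ β ∈ p.support.erase α,
      algebraMap F L (p.coeff β) * (β.prod fun i m => t i ^ m)) <
      v (algebraMap F L (p.coeff α) * (α.prod fun i m => t i ^ m)) := by
    rw [hvt α hα]
    refine Valuation.map_sum_lt v (hv0 α) fun β hβ => ?_
    obtain ⟨h1, h2⟩ := Finset.mem_erase.1 hβ
    rw [hvt β h2]
    exact lt_of_le_of_ne (hmax β h2) (h β α h1)
  have h3 := Valuation.map_add_eq_of_lt_left v hlt
  rw [← hsum, hp, map_zero, hvt α hα] at h3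
  exact hv0 α h3.symm

end AK
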