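import Pool.Agent.Lib.MP_64d474_lc.AK.Defs

/-!
# Row IT: the iteration of the step (helper90)
-/

set_option autoImplicit false

namespace AK

open Polynomial

universe u

/-- The statement of row ST (step), as a hypothesis. -/
def StepHyp90 (F : Type u) [Field F] (n : ℕ) : Prop :=
  ∀ (D : ℕ), 1 ≤ D → ∀ (u : Fin n → F)
    (BB : Finset (MvPolynomial (Fin n) F)), (∀ b ∈ BB, b ≠ 0 ∧ b.totalDegree ≤ D) →
    ∃ BB' : Finset (MvPolynomial (Fin n) F), (∀ b ∈ BB', b ≠ 0 ∧ b.totalDegree ≤ 4 * D ^ 4) ∧
      ∀ (L : Type u) [Field L] [IsAlgClosed L] [Algebra F L] (Γ : Type u)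
        [LinearOrderedCommGroupWithZero Γ] (v : Valuation L Γ),
        (∀ c : F, c ≠ 0 → v (algebraMap F L c) = 1) → ∀ x x' : Fin n → L, Gen F x →
        (∀ b ∈ BB', v (MvPolynomial.aeval x b) = v (MvPolynomial.aeval x' b)) →
        ∀ z : L, (∀ b ∈ BB, MvPolynomial.aeval (mv x z u) b ≠ 0) →
        ∃ z' : L, ∀ b ∈ BB,
          v (MvPolynomial.aeval (mv x z u) b) = v (MvPolynomial.aeval (mv x' z' u) b)

theorem iter_of_step90 {F : Type u} [Field F] {n : ℕ} (hstep : StepHyp90 F n)
    (r : ℕ) : ∀ (D : ℕ) (_ : 1 ≤ D)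
    (u : Fin r → Fin n → F)
    (BB : Finset (MvPolynomial (Fin n) F)) (_ : ∀ b ∈ BB, b ≠ 0 ∧ b.totalDegree ≤ D),
    ∃ BB' : Finset (MvPolynomial (Fin n) F), (∀ b ∈ BB', b ≠ 0 ∧ b.totalDegree ≤ DD r D) ∧
      ∀ (L : Type u) [Field L] [IsAlgClosed L] [Algebra F L] (Γ : Type u)
        [LinearOrderedCommGroupWithZero Γ] (v : Valuation L Γ),
        (∀ c : F, c ≠ 0 → v (algebraMap F L c) = 1) → ∀ x x' : Fin n → L,
        ∀ z : Fin r → L,
        (∀ j : ℕ, Gen F fun i => x i + ∑ l, if l.val < j then z l * algebraMap F L (u l i) else 0) →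
        (∀ b ∈ BB', v (MvPolynomial.aeval x b) = v (MvPolynomial.aeval x' b)) →
        ∃ z' : Fin r → L, ∀ b ∈ BB,
          v (MvPolynomial.aeval (fun i => x i + ∑ l, z l * algebraMap F L (u l i)) b) =
          v (MvPolynomial.aeval (fun i => x' i + ∑ l, z' l * algebraMap F L (u l i)) b) := by
  induction r with
  | zero =>
    intro D hD u BB hd
    refine ⟨BB, fun b hb => ⟨(hd b hb).1, (hd b hb).2⟩, ?_⟩
    intro L _ _ _ Γ _ v hv x x' z hgen hx
    refine ⟨z, fun b hb => ?_⟩
    simpa using hx b hb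
  | succ r ih =>
    intro D hD u BB hd
    obtain ⟨B1, hB1, h1⟩ := hstep D hD (u (Fin.last r)) BB hd
    have hD1 : 1 ≤ 4 * D ^ 4 := by
      have := Nat.one_le_pow 4 D hD
      omega
    obtain ⟨B2, hB2, h2⟩ := ih (4 * D ^ 4) hD1 (fun l => u l.castSucc) B1 hB1
    refine ⟨B2, hB2, ?_⟩
    intro L _ _ _ Γ _ v hv x x' z hgen hx
    have hsum : ∀ (j : ℕ) (i : Fin n),
        (∑ l : Fin (r + 1), if l.val < min j r then z l * algebraMap F L (u l i) else 0) =
        ∑ l : Fin r, if l.val < j then z l.castSucc * algebraMap F L (u l.castSucc i) else 0 := by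
      intro j i
      rw [Fin.sum_univ_castSucc]
      have h0 : ¬ ((Fin.last r).val < min j r) := by
        rw [Fin.val_last]; omega
      rw [if_neg h0, add_zero]
      refine Finset.sum_congr rfl fun l _ => ?_
      have hl := l.isLt
      by_cases h : l.val < j
      · rw [if_pos h, if_pos (by rw [Fin.val_castSucc]; omega)]
      · rw [if_neg h, if_neg (by rw [Fin.val_castSucc]; omega)]
    have hgen' : ∀ j : ℕ, Gen F fun i => x i + ∑ l : Fin r, if l.val < j then
        z l.castSucc * algebraMap F L (u l.castSucc i) else 0 := by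
      intro j
      have := hgen (min j r)
      simpa only [hsum] using this
    obtain ⟨z1, hz1⟩ := h2 L Γ v hv x x' (fun l => z l.castSucc) hgen' hx
    have hgenX : Gen F fun i => x i + ∑ l : Fin r,
        z l.castSucc * algebraMap F L (u l.castSucc i) := by
      have := hgen' r
      have h3 : ∀ i : Fin n, (∑ l : Fin r, if l.val < r then
        z l.castSucc * algebraMap F L (u l.castSucc i) else 0) =
        ∑ l : Fin r, z l.castSucc * algebraMap F L (u l.castSucc i) := by
        intro i
        refine Finset.sum_congr rfl fun l _ => ?_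
        rw [if_pos l.isLt]
      simpa only [h3] using this
    have hmv : mv (fun i => x i + ∑ l : Fin r,
        z l.castSucc * algebraMap F L (u l.castSucc i)) (z (Fin.last r)) (u (Fin.last r)) =
        fun i => x i + ∑ l, z l * algebraMap F L (u l i) := by
      funext i
      simp only [mv]
      rw [Fin.sum_univ_castSucc, add_assoc]
    have hne : ∀ b ∈ BB, MvPolynomial.aeval (mv (fun i => x i + ∑ l : Fin r,
        z l.castSucc * algebraMap F L (u l.castSucc i)) (z (Fin.last r)) (u (Fin.last r))) b ≠ 0 := by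
      intro b hb
      rw [hmv]
      have h4 := hgen (r + 1) b (hd b hb).1
      have h5 : ∀ i : Fin n, (∑ l : Fin (r + 1), if l.val < r + 1 then
          z l * algebraMap F L (u l i) else 0) = ∑ l, z l * algebraMap F L (u l i) := by
        intro i
        refine Finset.sum_congr rfl fun l _ => ?_
        rw [if_pos l.isLt]
      simpa only [h5] using h4
    obtain ⟨z2, hz2⟩ := h1 L Γ v hv _ (fun i => x' i + ∑ l : Fin r,
        z1 l * algebraMap F L (u l.castSucc i)) hgenX hz1 (z (Fin.last r)) hne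
    refine ⟨Fin.snoc z1 z2, fun b hb => ?_⟩
    have h6 := hz2 b hb
    rw [hmv] at h6
    rw [h6]
    congr 2
    congr 1
    funext i
    simp only [mv]
    rw [Fin.sum_univ_castSucc, add_assoc]
    simp only [Fin.snoc_castSucc, Fin.snoc_last]

end AK
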