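import Pool.Agent.Lib.MP_64d474_lc.AK.Defs

set_option autoImplicit false

/-!
# Row M: the main theorem from the rows IT, X, V, I
-/

namespace AK

open Polynomial

universe u

/-- The statement of row IT. -/
def IterHyp (F : Type u) [Field F] (n : ℕ) : Prop :=
  ∀ (r D : ℕ) (_ : 1 ≤ D) (u : Fin r → Fin n → F)
    (BB : Finset (MvPolynomial (Fin n) F)) (_ : ∀ b ∈ BB, b ≠ 0 ∧ b.totalDegree ≤ D),
    ∃ BB' : Finset (MvPolynomial (Fin n) F), (∀ b ∈ BB', b ≠ 0 ∧ b.totalDegree ≤ DD r D) ∧
      ∀ (L : Type u) [Field L] [IsAlgClosed L] [Algebra F L] (Γ : Type u)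
        [LinearOrderedCommGroupWithZero Γ] (v : Valuation L Γ),
        (∀ c : F, c ≠ 0 → v (algebraMap F L c) = 1) → ∀ x x' : Fin n → L,
        ∀ z : Fin r → L,
        (∀ j : ℕ, Gen F fun i => x i + ∑ l, if l.val < j then z l * algebraMap F L (u l i) else 0) →
        (∀ b ∈ BB', v (MvPolynomial.aeval x b) = v (MvPolynomial.aeval x' b)) →
        ∃ z' : Fin r → L, ∀ b ∈ BB,
          v (MvPolynomial.aeval (fun i => x i + ∑ l, z l * algebraMap F L (u l i)) b) =
          v (MvPolynomial.aeval (fun i => x' i + ∑ l, z' l * algebraMap F L (u l i)) b)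

/-- The statement of row V. -/
def ValHyp : Prop :=
  ∀ {k L : Type u} [Field k] [Field L] [Algebra k L] {r : ℕ} (t : Fin r → L)
    (_ : AlgebraicIndependent k t),
    ∃ V : ValuationSubring L, (∀ c : k, c ≠ 0 → V.valuation (algebraMap k L c) = 1) ∧
      ∀ α β : Fin r →₀ ℕ, α ≠ β →
        V.valuation (α.prod fun i m => t i ^ m) ≠ V.valuation (β.prod fun i m => t i ^ m)

/-- The statement of row X. -/
def SplitHyp (F : Type u) [Field F] (n : ℕ) : Prop :=
  ∀ {r : ℕ} (T : Fin r → MvPolynomial (Fin n) F) (_ : AlgebraicIndependent F T),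
    ∃ (I : Finset (Fin n)) (L : Type u) (_ : Field L) (_ : IsAlgClosed L) (_ : Algebra F L)
      (k : IntermediateField F L) (o z : Fin n → L), I.card = r ∧ (∀ i, o i ∈ k) ∧
      (∀ J ⊆ I, Gen F fun i => o i + if i ∈ J then z i else 0) ∧
      AlgebraicIndependent k fun j =>
        MvPolynomial.aeval (fun i => o i + if i ∈ I then z i else 0) (T j)

/-- The statement of row I. -/
def IndHyp : Prop :=
  ∀ {F L Γ : Type u} [Field F] [Field L] [Algebra F L]
    [LinearOrderedCommGroupWithZero Γ] (v : Valuation L Γ)
    (_ : ∀ c : F, c ≠ 0 → v (algebraMap F L c) = 1) {r : ℕ} (t : Fin r → L)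
    (_ : ∀ α β : Fin r →₀ ℕ, α ≠ β →
      v (α.prod fun i m => t i ^ m) ≠ v (β.prod fun i m => t i ^ m)),
    AlgebraicIndependent F t

/-- The value of a product is determined by the values of the factors. -/
theorem val_prod_eq63 {F L Γ : Type*} [Field F] [Field L] [Algebra F L]
    [LinearOrderedCommGroupWithZero Γ] (v : Valuation L Γ) {n : ℕ} (y y' : Fin n → L)
    (s : Multiset (MvPolynomial (Fin n) F))
    (h : ∀ b ∈ s, v (MvPolynomial.aeval y b) = v (MvPolynomial.aeval y' b)) :
    v (MvPolynomial.aeval y s.prod) = v (MvPolynomial.aeval y' s.prod) := by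
  induction s using Multiset.induction_on with
  | empty => simp
  | cons a s ih =>
    rw [Multiset.prod_cons, map_mul, map_mul, map_mul, map_mul,
      h a (Multiset.mem_cons_self a s), ih fun b hb => h b (Multiset.mem_cons_of_mem hb)]

theorem main_of63 {F : Type u} [Field F] {n : ℕ} (hIT : IterHyp F n) (hX : SplitHyp F n)
    (hV : ValHyp.{u}) (hI : IndHyp.{u}) {r d : ℕ} (hd : 1 ≤ d)
    (T : Fin r → MvPolynomial (Fin n) F) (hT : AlgebraicIndependent F T)
    (hprod : ∀ j, IsProd d (T j)) :
    ∃ I : Finset (Fin n), I.card = r ∧ ∃ BB : Finset (MvPolynomial (Fin n) F),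
      (∀ b ∈ BB, b ≠ 0 ∧ b.totalDegree ≤ DD r d) ∧
      ∀ o : Fin n → F, (∀ b ∈ BB, MvPolynomial.eval o b ≠ 0) →
        AlgebraicIndependent F fun j => res I o (T j) := by
  classical
  obtain ⟨I, L, _, _, _, k, o, z, hcard, hok, hgen, hind⟩ := hX T hT
  obtain ⟨V, hVk, hVsep⟩ := hV _ hind
  choose s hs hsT using hprod
  have hTne : ∀ j, T j ≠ 0 := fun j => hT.ne_zero j
  -- the directions
  set e : Fin r ↪o Fin n := I.orderEmbOfFin hcard with he
  have heI : ∀ l, e l ∈ I := fun l => I.orderEmbOfFin_mem hcard l
  have heS : ∀ i ∈ I, ∃ l, e l = i := by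
    intro i hi
    have h1 : Set.range e = I := I.range_orderEmbOfFin hcard
    have h2 : i ∈ Set.range e := by
      rw [h1]
      exact hi
    exact h2
  set u : Fin r → Fin n → F := fun l i => if e l = i then 1 else 0 with hu
  have hsum : ∀ (K : Type u) [Field K] [Algebra F K] (w : Fin r → K) (P : Fin r → Prop)
      [DecidablePred P] (i : Fin n),
      (∑ l, if P l then w l * algebraMap F K (u l i) else 0) =
        ∑ l, if e l = i ∧ P l then w l else 0 := by
    intro K _ _ w P _ i
    refine Finset.sum_congr rfl fun l _ => ?_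
    by_cases h1 : P l
    · by_cases h2 : e l = i
      · simp only [hu, if_pos h1, if_pos h2, if_pos (And.intro h2 h1), map_one, mul_one]
      · simp only [hu, if_pos h1, if_neg h2, map_zero, mul_zero]
        rw [if_neg fun h => h2 h.1]
    · rw [if_neg h1, if_neg fun h => h1 h.2]
  set BB : Finset (MvPolynomial (Fin n) F) := Finset.univ.biUnion fun j => (s j).toFinset with hBB
  have hBBd : ∀ b ∈ BB, b ≠ 0 ∧ b.totalDegree ≤ d := by
    intro b hb
    rw [hBB, Finset.mem_biUnion] at hb
    obtain ⟨j, _, hb⟩ := hb
    rw [Multiset.mem_toFinset] at hb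
    refine ⟨?_, hs j b hb⟩
    rintro rfl
    exact hTne j (by rw [hsT j]; exact Multiset.prod_eq_zero hb)
  obtain ⟨BB', hBB', hiter⟩ := hIT r d hd u BB hBBd
  refine ⟨I, hcard, BB', hBB', fun o' ho' => ?_⟩
  set v := V.valuation with hv
  have hvF : ∀ c : F, c ≠ 0 → v (algebraMap F L c) = 1 := by
    intro c hc
    have h1 := hVk (algebraMap F k c) (by
      intro h0
      exact hc ((algebraMap F k).injective (by rw [h0, map_zero])))
    rw [← IsScalarTower.algebraMap_apply F k L] at h1
    exact h1
  have hg1 : ∀ j : ℕ, Gen F fun i => o i + ∑ l : Fin r,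
      if l.val < j then z (e l) * algebraMap F L (u l i) else 0 := by
    intro j
    have h1 := hgen ((Finset.univ.filter fun l : Fin r => l.val < j).image e) (by
      intro i hi
      rw [Finset.mem_image] at hi
      obtain ⟨l, _, rfl⟩ := hi
      exact heI l)
    have h2 : (fun i => o i + ∑ l, if l.val < j then z (e l) * algebraMap F L (u l i) else 0) =
        fun i => o i + if i ∈ (Finset.univ.filter fun l : Fin r => l.val < j).image e
          then z i else 0 := by
      funext i
      congr 1
      rw [hsum L (fun l => z (e l)) (fun l => l.val < j) i]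
      by_cases hi : i ∈ (Finset.univ.filter fun l : Fin r => l.val < j).image e
      · rw [if_pos hi]
        rw [Finset.mem_image] at hi
        obtain ⟨l, hl, rfl⟩ := hi
        rw [Finset.mem_filter] at hl
        rw [Finset.sum_eq_single l]
        · rw [if_pos ⟨rfl, hl.2⟩]
        · intro b _ hb
          rw [if_neg fun h => hb (e.injective h.1)]
        · intro h
          exact absurd (Finset.mem_univ _) h
      · rw [if_neg hi]
        refine Finset.sum_eq_zero fun l _ => ?_
        rw [if_neg]
        rintro ⟨rfl, h3⟩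
        exact hi (Finset.mem_image_of_mem _ (Finset.mem_filter.2 ⟨Finset.mem_univ _, h3⟩))
    rw [h2]
    exact h1
  have hv1 : ∀ b ∈ BB', v (MvPolynomial.aeval o b) =
      v (MvPolynomial.aeval (fun i => algebraMap F L (o' i)) b) := by
    intro b hb
    have h1 : MvPolynomial.aeval o b ≠ 0 := by
      have h2 := hgen ∅ (Finset.empty_subset _) b (hBB' b hb).1
      simpa using h2
    have h3 : MvPolynomial.aeval o b ∈ k := by
      have h5 : algebraMap k L (MvPolynomial.aeval (fun i => (⟨o i, hok i⟩ : k)) b) =
          MvPolynomial.aeval o b := by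
        rw [← MvPolynomial.aeval_algebraMap_apply]
        rfl
      rw [← h5]
      exact SetLike.coe_mem _
    have h6 : v (MvPolynomial.aeval o b) = 1 := by
      have h7 := hVk ⟨MvPolynomial.aeval o b, h3⟩ (by
        intro h0
        exact h1 (congrArg Subtype.val h0))
      exact h7
    have h8 : MvPolynomial.aeval (fun i => algebraMap F L (o' i)) b =
        algebraMap F L (MvPolynomial.eval o' b) := by
      have h9 := MvPolynomial.aeval_algebraMap_apply L o' b
      have h10 : MvPolynomial.aeval o' b = MvPolynomial.eval o' b :=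
        DFunLike.congr_fun (MvPolynomial.coe_aeval_eq_eval o') b
      rw [h10] at h9
      exact h9
    rw [h6, h8, hvF _ (ho' b hb)]
  obtain ⟨z', hz'⟩ := hiter L V.ValueGroup v hvF o (fun i => algebraMap F L (o' i))
    (fun l => z (e l)) hg1 hv1
  set y : Fin n → L := fun i => o i + ∑ l, z (e l) * algebraMap F L (u l i) with hy
  set y' : Fin n → L := fun i => algebraMap F L (o' i) + ∑ l, z' l * algebraMap F L (u l i)
    with hy'
  have hyI : y = fun i => o i + if i ∈ I then z i else 0 := by
    funext i
    rw [hy]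
    simp only
    congr 1
    have h1 := hsum L (fun l => z (e l)) (fun _ => True) i
    simp only [if_true, and_true] at h1
    rw [h1]
    by_cases hi : i ∈ I
    · obtain ⟨l, rfl⟩ := heS i hi
      rw [if_pos hi, Finset.sum_eq_single l]
      · rw [if_pos rfl]
      · intro b _ hb
        rw [if_neg fun h => hb (e.injective h)]
      · intro h
        exact absurd (Finset.mem_univ _) h
    · rw [if_neg hi]
      refine Finset.sum_eq_zero fun l _ => ?_
      rw [if_neg]
      rintro rfl
      exact hi (heI l)
  have hval : ∀ j, v (MvPolynomial.aeval y (T j)) = v (MvPolynomial.aeval y' (T j)) := by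
    intro j
    rw [hsT j]
    refine val_prod_eq63 v y y' (s j) fun b hb => hz' b ?_
    rw [hBB, Finset.mem_biUnion]
    exact ⟨j, Finset.mem_univ _, by rw [Multiset.mem_toFinset]; exact hb⟩
  have hmon : ∀ α : Fin r →₀ ℕ, v (α.prod fun j m => MvPolynomial.aeval y (T j) ^ m) =
      v (α.prod fun j m => MvPolynomial.aeval y' (T j) ^ m) := by
    intro α
    rw [Finsupp.prod, Finsupp.prod, map_prod, map_prod]
    refine Finset.prod_congr rfl fun j _ => ?_
    rw [map_pow, map_pow, hval]
  have hind' : AlgebraicIndependent F fun j => MvPolynomial.aeval y' (T j) := by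
    refine hI v hvF _ fun α β hαβ => ?_
    rw [← hmon, ← hmon]
    rw [hyI]
    exact hVsep α β hαβ
  -- the point of the plane
  set w : Fin n → L := fun i => ∑ l, z' l * algebraMap F L (u l i) with hw
  have hres : ∀ p, MvPolynomial.aeval w (res I o' p) = MvPolynomial.aeval y' p := by
    intro p
    have h1 : (MvPolynomial.aeval w).comp (res I o') =
        (MvPolynomial.aeval y' : MvPolynomial (Fin n) F →ₐ[F] L) := by
      apply MvPolynomial.algHom_ext
      intro i
      rw [AlgHom.comp_apply, res, MvPolynomial.aeval_X, MvPolynomial.aeval_X, map_add,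
        MvPolynomial.aeval_C]
      rw [hy']
      simp only
      congr 1
      by_cases hi : i ∈ I
      · rw [if_pos hi, MvPolynomial.aeval_X]
      · rw [if_neg hi, map_zero]
        symm
        refine Finset.sum_eq_zero fun l _ => ?_
        have : u l i = 0 := by
          rw [hu]
          simp only
          rw [if_neg]
          rintro rfl
          exact hi (heI l)
        rw [this, map_zero, mul_zero]
    exact DFunLike.congr_fun h1 p
  have hfun : (fun j => MvPolynomial.aeval y' (T j)) =
      (MvPolynomial.aeval w : MvPolynomial (Fin n) F →ₐ[F] L) ∘ fun j => res I o' (T j) := by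
    funext j
    exact (hres (T j)).symm
  rw [hfun] at hind'
  exact hind'.of_comp _

end AK
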