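import Pool.Agent.Lib.MP_64d474_lc.AK.IT90

/-!
# Row M: the main theorem from rows IT, V, X, I (helper90)
-/

set_option autoImplicit false

namespace AK

open Polynomial

universe u

/-- The statement of row IT (iter), as a hypothesis. -/
def IterHyp90 (F : Type u) [Field F] (n : ℕ) : Prop :=
  ∀ (r D : ℕ), 1 ≤ D → ∀ (u : Fin r → Fin n → F)
    (BB : Finset (MvPolynomial (Fin n) F)), (∀ b ∈ BB, b ≠ 0 ∧ b.totalDegree ≤ D) →
    ∃ BB' : Finset (MvPolynomial (Fin n) F), (∀ b ∈ BB', b ≠ 0 ∧ b.totalDegree ≤ DD r D) ∧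
      ∀ (L : Type u) [Field L] [IsAlgClosed L] [Algebra F L] (Γ : Type u)
        [LinearOrderedCommGroupWithZero Γ] (v : Valuation L Γ),
        (∀ c : F, c ≠ 0 → v (algebraMap F L c) = 1) → ∀ x x' : Fin n → L,
        ∀ z : Fin r → L,
        (∀ j : ℕ, Gen F fun i => x i + ∑ l, if l.val < j then z l * algebraMap F L (u l i) else 0) →
        (∀ b ∈ BB', v (MvPolynomial.aeval x b) = v (MvPolynomial.aeval x' b)) →
        ∃ z' : Fin r → L, ∀ b ∈ BB,
          v (MvPolynomial.aeval (fun i => x i + ∑ l, z l * algebraMap F L (u l i)) b) =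
          v (MvPolynomial.aeval (fun i => x' i + ∑ l, z' l * algebraMap F L (u l i)) b)

/-- The statement of row V (exists_val), as a hypothesis. -/
def ValHyp90 : Prop :=
  ∀ {k L : Type u} [Field k] [Field L] [Algebra k L] {r : ℕ} (t : Fin r → L)
    (_ : AlgebraicIndependent k t),
    ∃ V : ValuationSubring L, (∀ c : k, c ≠ 0 → V.valuation (algebraMap k L c) = 1) ∧
      ∀ α β : Fin r →₀ ℕ, α ≠ β →
        V.valuation (α.prod fun i m => t i ^ m) ≠ V.valuation (β.prod fun i m => t i ^ m)

/-- The statement of row X (exists_split), as a hypothesis. -/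
def SplitHyp90 (F : Type u) [Field F] (n : ℕ) : Prop :=
  ∀ {r : ℕ} (T : Fin r → MvPolynomial (Fin n) F)
    (_ : AlgebraicIndependent F T),
    ∃ (I : Finset (Fin n)) (L : Type u) (_ : Field L) (_ : IsAlgClosed L) (_ : Algebra F L)
      (k : IntermediateField F L) (o z : Fin n → L), I.card = r ∧ (∀ i, o i ∈ k) ∧
      (∀ J ⊆ I, Gen F fun i => o i + if i ∈ J then z i else 0) ∧
      AlgebraicIndependent k fun j => MvPolynomial.aeval (fun i => o i + if i ∈ I then z i else 0) (T j)

/-- The statement of row I (indep_of_val), as a hypothesis. -/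
def IndHyp90 : Prop :=
  ∀ {F L Γ : Type u} [Field F] [Field L] [Algebra F L]
    [LinearOrderedCommGroupWithZero Γ] (v : Valuation L Γ)
    (_ : ∀ c : F, c ≠ 0 → v (algebraMap F L c) = 1) {r : ℕ} (t : Fin r → L)
    (_ : ∀ α β : Fin r →₀ ℕ, α ≠ β →
      v (α.prod fun i m => t i ^ m) ≠ v (β.prod fun i m => t i ^ m)),
    AlgebraicIndependent F t

theorem sum_single90 {F L : Type*} [Field F] [Field L] [Algebra F L] {n r : ℕ}
    (e : Fin r → Fin n) (c : Fin r → L) (P : Fin r → Prop)
    [DecidablePred P] (i : Fin n) :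
    (∑ l, if P l then c l * algebraMap F L ((Pi.single (e l) 1 : Fin n → F) i) else 0) =
      ∑ l, if P l ∧ e l = i then c l else 0 := by
  refine Finset.sum_congr rfl fun l _ => ?_
  by_cases h : P l
  · by_cases h2 : e l = i
    · subst h2
      simp [h]
    · have h3 : (Pi.single (e l) 1 : Fin n → F) i = 0 := by
        rw [Pi.single_apply, if_neg (fun h => h2 h.symm)]
      rw [if_pos h, h3, map_zero, mul_zero, if_neg (fun hh => h2 hh.2)]
  · simp [h]

theorem sum_ite90 {L : Type*} [Field L] {n r : ℕ}
    (e : Fin r → Fin n) (he : Function.Injective e) (z : Fin n → L) (P : Fin r → Prop)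
    [DecidablePred P] (i : Fin n) :
    (∑ l, if P l ∧ e l = i then z (e l) else 0) =
      if i ∈ (Finset.univ.filter P).image e then z i else 0 := by
  by_cases h : i ∈ (Finset.univ.filter P).image e
  · rw [if_pos h]
    obtain ⟨l, hl, rfl⟩ := Finset.mem_image.1 h
    rw [Finset.sum_eq_single l]
    · rw [if_pos ⟨(Finset.mem_filter.1 hl).2, rfl⟩]
    · intro b _ hb
      rw [if_neg]
      rintro ⟨_, h2⟩
      exact hb (he h2)
    · intro h; exact absurd (Finset.mem_univ _) h
  · rw [if_neg h]
    refine Finset.sum_eq_zero fun l _ => ?_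
    rw [if_neg]
    rintro ⟨h1, h2⟩
    exact h (Finset.mem_image.2 ⟨l, Finset.mem_filter.2 ⟨Finset.mem_univ _, h1⟩, h2⟩)

theorem main_of90 {F : Type u} [Field F] {n r d : ℕ} (hd : 1 ≤ d)
    (hiter : IterHyp90 F n) (hval : ValHyp90.{u}) (hsplit : SplitHyp90 F n) (hind : IndHyp90.{u})
    (T : Fin r → MvPolynomial (Fin n) F) (hT : AlgebraicIndependent F T)
    (hprod : ∀ j, IsProd d (T j)) :
    ∃ I : Finset (Fin n), I.card = r ∧ ∃ BB : Finset (MvPolynomial (Fin n) F),
      (∀ b ∈ BB, b ≠ 0 ∧ b.totalDegree ≤ DD r d) ∧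
      ∀ o : Fin n → F, (∀ b ∈ BB, MvPolynomial.eval o b ≠ 0) →
        AlgebraicIndependent F fun j => res I o (T j) := by
  classical
  obtain ⟨I, L, _, _, _, k, x, z, hI, hxk, hgen, hindk⟩ := hsplit T hT
  refine ⟨I, hI, ?_⟩
  choose s hs hsT using hprod
  have hTne : ∀ j, T j ≠ 0 := fun j => hT.ne_zero j
  have hne : ∀ j, ∀ p ∈ s j, p ≠ 0 := by
    intro j p hp h0
    apply hTne j
    rw [hsT j]
    exact Multiset.prod_eq_zero (h0 ▸ hp)
  let B0 : Finset (MvPolynomial (Fin n) F) := Finset.univ.biUnion fun j => (s j).toFinset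
  have hB0 : ∀ b ∈ B0, b ≠ 0 ∧ b.totalDegree ≤ d := by
    intro b hb
    obtain ⟨j, _, hj⟩ := Finset.mem_biUnion.1 hb
    rw [Multiset.mem_toFinset] at hj
    exact ⟨hne j b hj, hs j b hj⟩
  let e : Fin r → Fin n := fun l => I.orderEmbOfFin hI l
  have he : Function.Injective e := (I.orderEmbOfFin hI).injective
  have heI : ∀ l, e l ∈ I := fun l => Finset.orderEmbOfFin_mem I hI l
  have heimg : (Finset.univ.filter fun _ : Fin r => True).image e = I := by
    ext i
    rw [Finset.mem_image]
    constructor
    · rintro ⟨l, _, rfl⟩; exact heI l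
    · intro hi
      have : i ∈ Set.range (I.orderEmbOfFin hI) := by
        rw [Finset.range_orderEmbOfFin]; exact hi
      obtain ⟨l, hl⟩ := this
      exact ⟨l, by simp, hl⟩
  obtain ⟨B1, hB1, h1⟩ := hiter r d hd (fun l => Pi.single (e l) 1) B0 hB0
  refine ⟨B1, hB1, ?_⟩
  intro o ho
  obtain ⟨V, hVk, hVt⟩ := hval (fun j => MvPolynomial.aeval
    (fun i => x i + if i ∈ I then z i else 0) (T j)) hindk
  have hVF : ∀ c : F, c ≠ 0 → V.valuation (algebraMap F L c) = 1 := by
    intro c hc
    have := hVk (algebraMap F k c) (by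
      intro h; apply hc
      exact (algebraMap F k).injective (by rw [h, map_zero]))
    exact this
  have hg : ∀ j : ℕ, Gen F fun i => x i + ∑ l, if l.val < j then
      z (e l) * algebraMap F L ((Pi.single (e l) 1 : Fin n → F) i) else 0 := by
    intro j
    have h2 : ∀ i : Fin n, (∑ l, if l.val < j then
        z (e l) * algebraMap F L ((Pi.single (e l) 1 : Fin n → F) i) else 0) =
        if i ∈ (Finset.univ.filter fun l : Fin r => l.val < j).image e then z i else 0 := by
      intro i
      rw [sum_single90 e (fun l => z (e l)) (fun l => l.val < j) i,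
        sum_ite90 e he z (fun l => l.val < j) i]
    simp only [h2]
    apply hgen
    intro i hi
    obtain ⟨l, _, rfl⟩ := Finset.mem_image.1 hi
    exact heI l
  have hX : ∀ b ∈ B1, V.valuation (MvPolynomial.aeval x b) =
      V.valuation (MvPolynomial.aeval (fun i => algebraMap F L (o i)) b) := by
    intro b hb
    have h3 : MvPolynomial.aeval x b ≠ 0 := by
      have := hgen ∅ (Finset.empty_subset _) b (hB1 b hb).1
      simpa using this
    have h4 : MvPolynomial.aeval x b = algebraMap k L
        (MvPolynomial.aeval (fun i => (⟨x i, hxk i⟩ : k)) b) := by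
      rw [← MvPolynomial.aeval_algebraMap_apply]
      rfl
    have h5 : V.valuation (MvPolynomial.aeval x b) = 1 := by
      rw [h4]
      apply hVk
      intro h6
      apply h3
      rw [h4, h6, map_zero]
    have h7 : MvPolynomial.aeval (fun i => algebraMap F L (o i)) b =
        algebraMap F L (MvPolynomial.eval o b) := by
      have h8 : (fun i => algebraMap F L (o i)) = ⇑(algebraMap F L) ∘ o := rfl
      rw [h8, MvPolynomial.aeval_algebraMap_apply]
      rfl
    rw [h5, h7, hVF _ (ho b hb)]
  obtain ⟨z', hz'⟩ := h1 L _ V.valuation hVF x (fun i => algebraMap F L (o i))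
    (fun l => z (e l)) hg hX
  have hsumI : ∀ (c : Fin r → L) (i : Fin n), (∑ l, c l *
      algebraMap F L ((Pi.single (e l) 1 : Fin n → F) i)) =
      ∑ l, if e l = i then c l else 0 := by
    intro c i
    have := sum_single90 (F := F) e c (fun _ => True) i
    simpa using this
  have hw : (fun i => x i + ∑ l, z (e l) * algebraMap F L ((Pi.single (e l) 1 : Fin n → F) i)) =
      fun i => x i + if i ∈ I then z i else 0 := by
    funext i
    have h8 := sum_single90 (F := F) e (fun l => z (e l)) (fun _ => True) i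
    have h9 := sum_ite90 e he z (fun _ => True) i
    rw [heimg] at h9
    rw [h9] at h8
    simp only [if_true] at h8
    rw [h8]
  rw [hw] at hz'
  set w' : Fin n → L := fun i => algebraMap F L (o i) + ∑ l, z' l *
      algebraMap F L ((Pi.single (e l) 1 : Fin n → F) i) with hw'
  have hTv : ∀ j, V.valuation (MvPolynomial.aeval (fun i => x i + if i ∈ I then z i else 0) (T j))
      = V.valuation (MvPolynomial.aeval w' (T j)) := by
    intro j
    rw [hsT j, map_multiset_prod, map_multiset_prod, map_multiset_prod, map_multiset_prod,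
      Multiset.map_map, Multiset.map_map]
    congr 1
    refine Multiset.map_congr rfl fun p hp => ?_
    exact hz' p (Finset.mem_biUnion.2 ⟨j, Finset.mem_univ _, Multiset.mem_toFinset.2 hp⟩)
  have hfin : AlgebraicIndependent F fun j => MvPolynomial.aeval w' (T j) := by
    refine hind V.valuation hVF _ ?_
    intro α β hab
    have key : ∀ γ : Fin r →₀ ℕ, V.valuation (γ.prod fun i m =>
        (MvPolynomial.aeval w' (T i)) ^ m) = V.valuation (γ.prod fun i m =>
        (MvPolynomial.aeval (fun i => x i + if i ∈ I then z i else 0) (T i)) ^ m) := by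
      intro γ
      simp only [Finsupp.prod, map_prod, map_pow]
      refine Finset.prod_congr rfl fun i _ => ?_
      rw [hTv i]
    rw [key α, key β]
    exact hVt α β hab
  let ψ : MvPolynomial (Fin n) F →ₐ[F] L :=
    MvPolynomial.aeval fun i => ∑ l, if e l = i then z' l else 0
  have hψ : ∀ q : MvPolynomial (Fin n) F, ψ (res I o q) = MvPolynomial.aeval w' q := by
    intro q
    have : ψ.comp (res I o) = MvPolynomial.aeval w' := by
      apply MvPolynomial.algHom_ext
      intro i
      rw [AlgHom.comp_apply]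
      simp only [res, MvPolynomial.aeval_X, ψ, hw']
      rw [map_add, hsumI z' i]
      have h10 : (MvPolynomial.aeval fun i => ∑ l, if e l = i then z' l else 0)
          (MvPolynomial.C (o i) : MvPolynomial (Fin n) F) = algebraMap F L (o i) := by
        rw [MvPolynomial.aeval_C]
      rw [h10]
      congr 1
      by_cases hi : i ∈ I
      · rw [if_pos hi, MvPolynomial.aeval_X]
      · rw [if_neg hi, map_zero]
        symm
        refine Finset.sum_eq_zero fun l _ => ?_
        rw [if_neg]
        intro h; exact hi (h ▸ heI l)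
    rw [← this]; rfl
  refine AlgebraicIndependent.of_comp ψ ?_
  have : (⇑ψ ∘ fun j => res I o (T j)) = fun j => MvPolynomial.aeval w' (T j) := by
    funext j
    exact hψ (T j)
  rw [this]
  exact hfin

end AK
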