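import Pool.Agent.Lib.MP_64d474_lc.AK.Defs

/-!
# Row V: a valuation, trivial on `k`, whose values separate the monomials of an independent family
-/

set_option autoImplicit false

namespace AK

open MvPolynomial

namespace V29

variable {k L : Type*} [Field k] [Field L] [Algebra k L] {r : ℕ}

/-- the monomial order used -/
noncomputable def mo (r : ℕ) : MonomialOrder (Fin r) := MonomialOrder.lex

/-- fractions of degree at most zero -/
def Le (t : Fin r → L) (x : L) : Prop :=
  ∃ f g : MvPolynomial (Fin r) k, g ≠ 0 ∧ aeval t g * x = aeval t f ∧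
    (mo r).toSyn ((mo r).degree f) ≤ (mo r).toSyn ((mo r).degree g)

/-- fractions of degree below zero -/
def Lt (t : Fin r → L) (x : L) : Prop :=
  ∃ f g : MvPolynomial (Fin r) k, g ≠ 0 ∧ aeval t g * x = aeval t f ∧
    (f = 0 ∨ (mo r).toSyn ((mo r).degree f) < (mo r).toSyn ((mo r).degree g))

theorem Le.mul {t : Fin r → L} {x y : L} (hx : Le (k := k) t x) (hy : Le (k := k) t y) :
    Le (k := k) t (x * y) := by
  obtain ⟨f, g, hg, h, hd⟩ := hx
  obtain ⟨f', g', hg', h', hd'⟩ := hy
  refine ⟨f * f', g * g', mul_ne_zero hg hg', ?_, ?_⟩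
  · rw [map_mul, map_mul, ← h, ← h']; ring
  · rw [(mo r).degree_mul hg hg', map_add]
    refine ((mo r).degree_mul_le).trans ?_
    rw [map_add]
    exact add_le_add hd hd'

theorem Le.add {t : Fin r → L} {x y : L} (hx : Le (k := k) t x) (hy : Le (k := k) t y) :
    Le (k := k) t (x + y) := by
  obtain ⟨f, g, hg, h, hd⟩ := hx
  obtain ⟨f', g', hg', h', hd'⟩ := hy
  refine ⟨f * g' + g * f', g * g', mul_ne_zero hg hg', ?_, ?_⟩
  · rw [map_mul, map_add, map_mul, map_mul, ← h, ← h']; ring
  · rw [(mo r).degree_mul hg hg', map_add]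
    refine ((mo r).degree_add_le).trans (max_le ?_ ?_)
    · refine ((mo r).degree_mul_le).trans ?_
      rw [map_add]
      exact add_le_add hd le_rfl
    · refine ((mo r).degree_mul_le).trans ?_
      rw [map_add]
      exact add_le_add le_rfl hd'

theorem Le.neg {t : Fin r → L} {x : L} (hx : Le (k := k) t x) : Le (k := k) t (-x) := by
  obtain ⟨f, g, hg, h, hd⟩ := hx
  refine ⟨-f, g, hg, ?_, ?_⟩
  · rw [map_neg, ← h]; ring
  · rwa [(mo r).degree_neg]

theorem Lt.add {t : Fin r → L} {x y : L} (hx : Lt (k := k) t x) (hy : Lt (k := k) t y) :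
    Lt (k := k) t (x + y) := by
  obtain ⟨f, g, hg, h, hd⟩ := hx
  obtain ⟨f', g', hg', h', hd'⟩ := hy
  refine ⟨f * g' + g * f', g * g', mul_ne_zero hg hg', ?_, ?_⟩
  · rw [map_mul, map_add, map_mul, map_mul, ← h, ← h']; ring
  · rw [(mo r).degree_mul hg hg', map_add]
    rcases hd with rfl | hd
    · rcases hd' with rfl | hd'
      · left; simp
      · right
        rw [zero_mul, zero_add]
        refine ((mo r).degree_mul_le).trans_lt ?_
        rw [map_add]
        exact add_lt_add_of_le_of_lt le_rfl hd'
    · rcases hd' with rfl | hd'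
      · right
        rw [mul_zero, add_zero]
        refine ((mo r).degree_mul_le).trans_lt ?_
        rw [map_add]
        exact add_lt_add_of_lt_of_le hd le_rfl
      · right
        refine ((mo r).degree_add_le).trans_lt (max_lt ?_ ?_)
        · refine ((mo r).degree_mul_le).trans_lt ?_
          rw [map_add]
          exact add_lt_add_of_lt_of_le hd le_rfl
        · refine ((mo r).degree_mul_le).trans_lt ?_
          rw [map_add]
          exact add_lt_add_of_le_of_lt le_rfl hd'

theorem Le.mul_lt {t : Fin r → L} {x y : L} (hx : Le (k := k) t x) (hy : Lt (k := k) t y) :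
    Lt (k := k) t (x * y) := by
  obtain ⟨f, g, hg, h, hd⟩ := hx
  obtain ⟨f', g', hg', h', hd'⟩ := hy
  refine ⟨f * f', g * g', mul_ne_zero hg hg', ?_, ?_⟩
  · rw [map_mul, map_mul, ← h, ← h']; ring
  · rw [(mo r).degree_mul hg hg', map_add]
    rcases hd' with rfl | hd'
    · left; simp
    · right
      refine ((mo r).degree_mul_le).trans_lt ?_
      rw [map_add]
      exact add_lt_add_of_le_of_lt hd hd'

/-- the ring -/
def ring (t : Fin r → L) : Subring L where
  carrier := {x | Le (k := k) t x}
  mul_mem' := fun hx hy => Le.mul hx hy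
  add_mem' := fun hx hy => Le.add hx hy
  neg_mem' := fun hx => Le.neg hx
  one_mem' := ⟨1, 1, one_ne_zero, by simp, le_rfl⟩
  zero_mem' := ⟨0, 1, one_ne_zero, by simp, by simp⟩

/-- the ideal -/
def ideal (t : Fin r → L) : Ideal (ring (k := k) t) where
  carrier := {x | Lt (k := k) t (x : L)}
  add_mem' := fun hx hy => Lt.add hx hy
  zero_mem' := ⟨0, 1, one_ne_zero, by simp, Or.inl rfl⟩
  smul_mem' := fun c x hx => Le.mul_lt c.2 hx

theorem ideal_ne (t : Fin r → L) (ht : AlgebraicIndependent k t) :
    ideal (k := k) t ≠ ⊤ := by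
  intro h
  have h1 : (1 : ring (k := k) t) ∈ ideal (k := k) t := by rw [h]; trivial
  obtain ⟨f, g, hg, h, hd⟩ : Lt (k := k) t ((1 : ring (k := k) t) : L) := h1
  have hfg : g = f := by
    apply ht
    simpa using h
  subst hfg
  rcases hd with h0 | h0
  · exact hg h0
  · exact lt_irrefl _ h0

end V29

open V29 in
theorem exists_val {k L : Type*} [Field k] [Field L] [Algebra k L] {r : ℕ} (t : Fin r → L)
    (ht : AlgebraicIndependent k t) :
    ∃ V : ValuationSubring L, (∀ c : k, c ≠ 0 → V.valuation (algebraMap k L c) = 1) ∧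
      ∀ α β : Fin r →₀ ℕ, α ≠ β →
        V.valuation (α.prod fun i m => t i ^ m) ≠ V.valuation (β.prod fun i m => t i ^ m) := by
  obtain ⟨B, hB, hI⟩ := Ideal.image_subset_nonunits_valuationSubring
    (ideal (k := k) t) (ideal_ne t ht)
  have hle : ∀ x : L, Le (k := k) t x → B.valuation x ≤ 1 := by
    intro x hx
    rw [ValuationSubring.valuation_le_one_iff]
    exact hB hx
  have hlt : ∀ x : L, Lt (k := k) t x → B.valuation x < 1 := by
    intro x hx
    have hx' : Le (k := k) t x := by
      obtain ⟨f, g, hg, h, hd⟩ := hx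
      refine ⟨f, g, hg, h, ?_⟩
      rcases hd with rfl | hd
      · simp
      · exact hd.le
    have : x ∈ B.nonunits := hI ⟨⟨x, hx'⟩, hx, rfl⟩
    exact this
  have hC : ∀ c : k, Le (k := k) t (algebraMap k L c) := by
    intro c
    refine ⟨C c, 1, one_ne_zero, by simp, ?_⟩
    rw [(mo r).degree_C]
    simp
  refine ⟨B, ?_, ?_⟩
  · intro c hc
    apply le_antisymm (hle _ (hC c))
    have h1 := hle _ (hC c⁻¹)
    rw [map_inv₀, map_inv₀] at h1
    have h0 : B.valuation (algebraMap k L c) ≠ 0 := by
      rw [Valuation.ne_zero_iff]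
      simpa using hc
    exact (inv_le_one₀ (zero_lt_iff.2 h0)).1 h1
  · have key : ∀ α β : Fin r →₀ ℕ, (mo r).toSyn α < (mo r).toSyn β →
        B.valuation (α.prod fun i m => t i ^ m) < B.valuation (β.prod fun i m => t i ^ m) := by
      intro α β hαβ
      have hm : ∀ γ : Fin r →₀ ℕ, aeval t (monomial γ (1 : k)) = γ.prod fun i m => t i ^ m := by
        intro γ
        rw [aeval_monomial, map_one, one_mul]
      have hm0 : ∀ γ : Fin r →₀ ℕ, (γ.prod fun i m => t i ^ m) ≠ 0 := by
        intro γ h0
        rw [← hm γ] at h0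
        have h1 : (monomial γ (1 : k)) = 0 := by
          apply ht
          rw [h0, map_zero]
        exact one_ne_zero ((monomial_eq_zero).1 h1)
      have h1 : B.valuation ((α.prod fun i m => t i ^ m) / (β.prod fun i m => t i ^ m)) < 1 := by
        apply hlt
        refine ⟨monomial α 1, monomial β 1, ?_, ?_, ?_⟩
        · intro h
          exact one_ne_zero ((monomial_eq_zero).1 h)
        · rw [hm, hm]
          exact mul_div_cancel₀ _ (hm0 β)
        · right
          classical
          rw [(mo r).degree_monomial, (mo r).degree_monomial]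
          simpa using hαβ
      rw [map_div₀] at h1
      have h0 : B.valuation (β.prod fun i m => t i ^ m) ≠ 0 := by
        rw [Valuation.ne_zero_iff]
        exact hm0 β
      rwa [div_lt_one₀ (zero_lt_iff.2 h0)] at h1
    intro α β hne
    rcases lt_trichotomy ((mo r).toSyn α) ((mo r).toSyn β) with h | h | h
    · exact (key _ _ h).ne
    · exact absurd ((mo r).toSyn.injective h) hne
    · exact (key _ _ h).ne'

end AK
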