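import Pool.Agent.Lib.MP_64d474_lc.AK.Defs

set_option autoImplicit false

namespace AK

open Polynomial

universe u

/-- the generic points `x`, `w` in an algebraically closed field -/
theorem exists_generic96 (F : Type u) [Field F] (n : ℕ) :
    ∃ (L : Type u) (_ : Field L) (_ : IsAlgClosed L) (_ : Algebra F L)
      (s : Fin n ⊕ Fin n → L), IsTranscendenceBasis F s := by
  let A := MvPolynomial (Fin n ⊕ Fin n) F
  let K := FractionRing A
  let L := AlgebraicClosure K
  have hK : Algebra.IsAlgebraic A K := (IsFractionRing.comap_isAlgebraic_iff (K := K)).mpr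
    (inferInstance : Algebra.IsAlgebraic K K)
  have hI : Function.Injective (algebraMap A K) := IsFractionRing.injective A K
  have hf : FaithfulSMul A K := (faithfulSMul_iff_algebraMap_injective A K).mpr hI
  refine ⟨L, inferInstance, inferInstance, inferInstance,
    algebraMap K L ∘ (algebraMap A K ∘ MvPolynomial.X), ?_⟩
  have h1 : IsTranscendenceBasis F (MvPolynomial.X : Fin n ⊕ Fin n → A) :=
    IsTranscendenceBasis.mvPolynomial _ _
  have h2 : IsTranscendenceBasis F (algebraMap A K ∘ (MvPolynomial.X : Fin n ⊕ Fin n → A)) :=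
    h1.algebraMap_comp
  exact h2.algebraMap_comp

theorem exists_split {F : Type u} [Field F] {n r : ℕ} (T : Fin r → MvPolynomial (Fin n) F)
    (hT : AlgebraicIndependent F T) :
    ∃ (I : Finset (Fin n)) (L : Type u) (_ : Field L) (_ : IsAlgClosed L) (_ : Algebra F L)
      (k : IntermediateField F L) (o z : Fin n → L), I.card = r ∧ (∀ i, o i ∈ k) ∧
      (∀ J ⊆ I, Gen F fun i => o i + if i ∈ J then z i else 0) ∧
      AlgebraicIndependent k fun j => MvPolynomial.aeval (fun i => o i + if i ∈ I then z i else 0) (T j) := by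
  classical
  obtain ⟨L, iF, iA, iAl, s, hs⟩ := exists_generic96 F n
  let x : Fin n → L := fun i => s (Sum.inl i)
  let w : Fin n → L := fun i => s (Sum.inr i)
  let t : Fin r → L := fun j => MvPolynomial.aeval w (T j)
  let z : Fin n → L := fun i => w i - x i
  have hsum : Sum.elim x w = s := by
    funext i; rcases i with i | i <;> rfl
  have hxw : AlgebraicIndependent F (Sum.elim x w) := by rw [hsum]; exact hs.1
  obtain ⟨hw, hx⟩ := AlgebraicIndependent.sumElim_iff.mp hxw
  have ht : AlgebraicIndependent F t := hT.map' (f := MvPolynomial.aeval w) hw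
  -- `x` over `F[t]`
  have hle : Algebra.adjoin F (Set.range t) ≤ Algebra.adjoin F (Set.range w) := by
    refine Algebra.adjoin_le ?_
    rintro _ ⟨j, rfl⟩
    rw [Algebra.adjoin_range_eq_range_aeval]
    exact ⟨T j, rfl⟩
  have hx2 : AlgebraicIndependent (Algebra.adjoin F (Set.range t)) x := by
    let _ : Algebra (Algebra.adjoin F (Set.range t)) (Algebra.adjoin F (Set.range w)) :=
      (Subalgebra.inclusion hle).toAlgebra
    have : IsScalarTower (Algebra.adjoin F (Set.range t)) (Algebra.adjoin F (Set.range w)) L :=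
      .of_algebraMap_eq fun a => rfl
    exact hx.restrictScalars (Subalgebra.inclusion_injective hle)
  have hxt : AlgebraicIndependent F (Sum.elim x t) := AlgebraicIndependent.sumElim_iff.mpr ⟨ht, hx2⟩
  have hinj : Function.Injective (Sum.elim x t) := hxt.injective
  let S0 : Set L := Set.range (Sum.elim x t)
  let S1 : Set L := S0 ∪ Set.range z
  have hS0 : AlgebraicIndepOn F id S0 := hxt.to_subtype_range
  have hle2 : Algebra.adjoin F (Set.range s) ≤ Algebra.adjoin F S1 := by
    refine Algebra.adjoin_le ?_
    rintro _ ⟨i, rfl⟩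
    have hxm : ∀ i, x i ∈ Algebra.adjoin F S1 := fun i =>
      Algebra.subset_adjoin (Or.inl ⟨Sum.inl i, rfl⟩)
    rcases i with i | i
    · exact hxm i
    · have h1 : z i ∈ Algebra.adjoin F S1 := Algebra.subset_adjoin (Or.inr ⟨i, rfl⟩)
      have h2 : s (Sum.inr i) = z i + x i := by
        change w i = (w i - x i) + x i
        ring
      rw [h2]
      exact add_mem h1 (hxm i)
  have hal : Algebra.IsAlgebraic (Algebra.adjoin F S1) L := by
    have := hs.isAlgebraic
    let _ : Algebra (Algebra.adjoin F (Set.range s)) (Algebra.adjoin F S1) :=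
      (Subalgebra.inclusion hle2).toAlgebra
    have : IsScalarTower (Algebra.adjoin F (Set.range s)) (Algebra.adjoin F S1) L :=
      .of_algebraMap_eq fun a => rfl
    exact Algebra.IsAlgebraic.extendScalars (R := Algebra.adjoin F (Set.range s))
      (Subalgebra.inclusion_injective hle2)
  obtain ⟨u, hu0, hu1, hu⟩ := exists_isTranscendenceBasis_between (R := F) S0 S1
    Set.subset_union_left hS0
  have hsurj : Set.SurjOn z Set.univ (u \ S0) := by
    rintro a ⟨ha, ha0⟩
    rcases hu1 ha with h | ⟨i, hi⟩
    · exact (ha0 h).elim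
    · exact ⟨i, trivial, hi⟩
  obtain ⟨J, -, hJ⟩ := hsurj.exists_bijOn_subset
  let v : (Fin n ⊕ Fin r) ⊕ J → L := Sum.elim (Sum.elim x t) (fun i : J => z i)
  have hvinj : Function.Injective v := by
    refine hinj.sumElim (fun a b hab => Subtype.ext (hJ.injOn a.2 b.2 hab)) ?_
    intro a b hab
    exact (hJ.mapsTo b.2).2 ⟨a, hab⟩
  have hvr : Set.range v = u := by
    have : Set.range (fun i : J => z i) = z '' J := by
      ext y; simp
    rw [show v = Sum.elim (Sum.elim x t) (fun i : J => z i) from rfl, Set.Sum.elim_range, this,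
      hJ.image_eq, Set.union_sdiff_self, Set.union_eq_right]
    exact hu0
  have hv : IsTranscendenceBasis F v := by
    rw [← hvr] at hu
    exact (isTranscendenceBasis_subtype_range hvinj).mp hu
  have hcard : Fintype.card ((Fin n ⊕ Fin r) ⊕ J) = Fintype.card (Fin n ⊕ Fin n) := by
    have h := hv.lift_cardinalMk_eq hs
    have h2 : ((Fintype.card ((Fin n ⊕ Fin r) ⊕ J) : ℕ) : Cardinal.{0}) =
        ((Fintype.card (Fin n ⊕ Fin n) : ℕ) : Cardinal.{0}) := by
      simpa using h
    exact_mod_cast h2
  let JF : Finset (Fin n) := J.toFinset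
  have hJF : ∀ i, i ∈ JF ↔ i ∈ J := fun i => Set.mem_toFinset
  have hJc : Fintype.card J = JF.card := (Set.toFinset_card J).symm
  -- `t` over `F(x, z_J)`
  let y : Fin n ⊕ J → L := Sum.elim x (fun i : J => z i)
  have hty : AlgebraicIndependent F (Sum.elim t y) := by
    have h := hv.1.comp (fun i : Fin r ⊕ (Fin n ⊕ J) => match i with
      | Sum.inl j => Sum.inl (Sum.inr j)
      | Sum.inr (Sum.inl i) => Sum.inl (Sum.inl i)
      | Sum.inr (Sum.inr i) => Sum.inr i) (by
        rintro (a | a | a) (b | b | b) h <;> simp_all)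
    have h2 : Sum.elim t y = v ∘ (fun i : Fin r ⊕ (Fin n ⊕ J) => match i with
      | Sum.inl j => Sum.inl (Sum.inr j)
      | Sum.inr (Sum.inl i) => Sum.inl (Sum.inl i)
      | Sum.inr (Sum.inr i) => Sum.inr i) := by
      funext i
      rcases i with i | i | i <;> rfl
    rw [h2]; exact h
  let k : IntermediateField F L := IntermediateField.adjoin F (Set.range y)
  have htk : AlgebraicIndependent k t :=
    IntermediateField.algebraicIndependent_adjoin_iff.mpr (AlgebraicIndependent.sumElim_iff.mp hty).2
  have hxk : ∀ i, x i ∈ k := fun i => IntermediateField.subset_adjoin _ _ ⟨Sum.inl i, rfl⟩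
  have hzk : ∀ i, i ∈ J → z i ∈ k := fun i hi =>
    IntermediateField.subset_adjoin _ _ ⟨Sum.inr ⟨i, hi⟩, rfl⟩
  let o : Fin n → L := fun i => x i + if i ∈ JF then z i else 0
  have hw' : (fun i => o i + if i ∈ JFᶜ then z i else 0) = w := by
    funext i
    by_cases hi : i ∈ JF
    · simp only [o, hi, if_true, Finset.mem_compl, not_true, if_false, z]; ring
    · simp only [o, hi, if_false, Finset.mem_compl, not_false_iff, if_true, z]; ring
  refine ⟨JFᶜ, L, iF, iA, iAl, k, o, z, ?_, ?_, ?_, ?_⟩
  · rw [Finset.card_compl, Fintype.card_fin]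
    simp only [Fintype.card_sum, Fintype.card_fin, hJc] at hcard
    omega
  · intro i
    refine add_mem (hxk i) ?_
    split_ifs with h
    · exact hzk i ((hJF i).mp h)
    · exact zero_mem _
  · intro S hS
    have h : AlgebraicIndependent F fun i : Fin n => s (if i ∈ JF ∨ i ∈ S then Sum.inr i else Sum.inl i) := by
      refine hs.1.comp (fun i : Fin n => if i ∈ JF ∨ i ∈ S then Sum.inr i else Sum.inl i) ?_
      intro a b hab
      dsimp only at hab
      split_ifs at hab <;> simp_all
    have h2 : (fun i => o i + if i ∈ S then z i else 0) =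
        fun i : Fin n => s (if i ∈ JF ∨ i ∈ S then Sum.inr i else Sum.inl i) := by
      funext i
      by_cases h1 : i ∈ JF
      · have h3 : i ∉ S := fun h3 => Finset.mem_compl.mp (hS h3) h1
        simp only [o, h1, h3, if_true, if_false, true_or, z]
        change x i + (w i - x i) + 0 = w i
        ring
      · by_cases h3 : i ∈ S
        · simp only [o, h1, h3, if_true, if_false, or_true, z]
          change x i + 0 + (w i - x i) = w i
          ring
        · simp only [o, h1, h3, if_false, or_false, z]
          change x i + 0 + 0 = x i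
          ring
    rw [h2]
    intro a ha h0
    exact ha ((algebraicIndependent_iff.mp h) a h0)
  · rw [hw']
    exact htk

end AK
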