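import Pool.Agent.Lib.MP_64d474_lc.AK.StepAll55
import Pool.Agent.Lib.MP_64d474_lc.AK.IT90
import Pool.Agent.Lib.MP_64d474_lc.AK.M90
import Pool.Agent.Lib.MP_64d474_lc.AK.V29
import Pool.Agent.Lib.MP_64d474_lc.AK.X96
import Pool.Agent.Lib.MP_64d474_lc.AK.I90
import Pool.Agent.Lib.MP_64d474_lc.AK.Z4
import Pool.Agent.Lib.MP_64d474_lc.AK.Hit35

/-!
# AK: all constant top fan-ins, assembly (helper55)
-/

set_option autoImplicit false

namespace AK

open Polynomial

universe u

theorem stepHyp {F : Type u} [Field F] [Infinite F] (n : ℕ) : StepHyp90 F n :=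
  fun _ hD u BB hd => step hD u BB hd

theorem iterHyp {F : Type u} [Field F] [Infinite F] (n : ℕ) : IterHyp90 F n :=
  fun r D hD u BB hd => iter_of_step90 (stepHyp n) r D hD u BB hd

/-- Products of polynomials of degree at most `d` that are algebraically independent stay
independent on the coordinate plane `o + F^I`, `|I| = r`, as soon as `o` avoids finitely many
polynomials of degree at most `DD r d`. Any infinite field. -/
theorem main {F : Type u} [Field F] [Infinite F] {n r d : ℕ} (hd : 1 ≤ d)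
    (T : Fin r → MvPolynomial (Fin n) F) (hT : AlgebraicIndependent F T)
    (hprod : ∀ j, IsProd d (T j)) :
    ∃ I : Finset (Fin n), I.card = r ∧ ∃ BB : Finset (MvPolynomial (Fin n) F),
      (∀ b ∈ BB, b ≠ 0 ∧ b.totalDegree ≤ DD r d) ∧
      ∀ o : Fin n → F, (∀ b ∈ BB, MvPolynomial.eval o b ≠ 0) →
        AlgebraicIndependent F fun j => res I o (T j) :=
  main_of90 hd (iterHyp n) (fun t ht => exists_val t ht) (fun T hT => exists_split T hT)
    (fun v hv _ t h => indep_of_val v hv t h) T hT hprod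

theorem nonzero {F : Type u} [Field F] [Infinite F] {n m r d : ℕ} (hd : 1 ≤ d)
    (T : Fin m → MvPolynomial (Fin n) F) (hprod : ∀ j, IsProd d (T j))
    (hr : ∀ s : Finset (Fin m), AlgebraicIndependent F (fun j : s => T j) → s.card ≤ r)
    (h : MvPolynomial (Fin n) F) (hh : h ∈ Algebra.adjoin F (Set.range T)) (h0 : h ≠ 0) :
    ∃ I : Finset (Fin n), I.card ≤ r ∧ ∃ BB : Finset (MvPolynomial (Fin n) F),
      (∀ b ∈ BB, b ≠ 0 ∧ b.totalDegree ≤ DD r d) ∧
      ∀ o : Fin n → F, (∀ b ∈ BB, MvPolynomial.eval o b ≠ 0) → res I o h ≠ 0 :=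
  nonzero_of_main (fun hd T hT hprod => main hd T hT hprod) hd T hprod hr h hh h0

theorem stNonzero : StNonzero.{u} :=
  fun _ _ _ _ _ _ _ hd T hprod hr h hh h0 => nonzero hd T hprod hr h hh h0

theorem hit {F : Type u} [Field F] [CharZero F] {n m r d N : ℕ} (hn : 0 < n) (hd : 1 ≤ d)
    (T : Fin m → MvPolynomial (Fin n) F) (hprod : ∀ j, IsProd d (T j))
    (hr : ∀ s : Finset (Fin m), AlgebraicIndependent F (fun j : s => T j) → s.card ≤ r)
    (h : MvPolynomial (Fin n) F) (hh : h ∈ Algebra.adjoin F (Set.range T)) (h0 : h ≠ 0)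
    (hN : h.totalDegree ≤ N) :
    ∃ (z y : Fin (DD r d) → ℕ) (I : Fin r → Fin n) (w : Fin r → ℕ), (∀ i, z i ≤ N) ∧
      (∀ i, y i ≤ n * N) ∧ (∀ i, w i ≤ N) ∧
      MvPolynomial.eval (test (fun i => (z i : F)) (fun i => (y i : F)) I
        (fun i => (w i : F))) h ≠ 0 :=
  hit_of_nonzero stNonzero hn hd T hprod hr h hh h0 hN

end AK
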