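import Pool.Agent.Lib.MP_64d474_lc.AK.Defs

set_option autoImplicit false

namespace AK.S93

open Polynomial

universe u

/-- evaluation of `sh u a` at a point -/
theorem sh_eval {F L : Type*} [Field F] {σ : Type*} [Field L] [Algebra F L] (u : σ → F)
    (x : σ → L) (t : L) (a : MvPolynomial σ F) :
    ((sh u a).map (MvPolynomial.aeval x : MvPolynomial σ F →ₐ[F] L).toRingHom).eval t =
      MvPolynomial.aeval (mv x t u) a := by
  have h : ((Polynomial.evalRingHom t).comp
      ((Polynomial.mapRingHom (MvPolynomial.aeval x : MvPolynomial σ F →ₐ[F] L).toRingHom).comp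
        (sh u : MvPolynomial σ F →ₐ[F] (MvPolynomial σ F)[X]).toRingHom)) =
      (MvPolynomial.aeval (mv x t u) : MvPolynomial σ F →ₐ[F] L).toRingHom := by
    apply MvPolynomial.ringHom_ext
    · intro r
      simp [sh, Polynomial.algebraMap_apply, MvPolynomial.algebraMap_eq]
    · intro i
      simp [sh, mv]
      ring
  exact congrArg (fun f : MvPolynomial σ F →+* L => f a) h

/-- the Taylor polynomial at `x + ρ u` -/
theorem sh_taylor {F L : Type*} [Field F] {σ : Type*} [Field L] [Algebra F L] (u : σ → F)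
    (x : σ → L) (ρ s : L) (a : MvPolynomial σ F) :
    ((sh u a).map (MvPolynomial.aeval (mv x ρ u) : MvPolynomial σ F →ₐ[F] L).toRingHom).eval s =
      MvPolynomial.aeval (mv x (ρ + s) u) a := by
  rw [sh_eval]
  congr 1
  congr 1
  funext i
  simp only [mv]
  ring

/-- comparison of values of two polynomials with coefficients of equal value -/
theorem eval_le {L Γ : Type*} [Field L] [LinearOrderedCommGroupWithZero Γ] (v : Valuation L Γ)
    (p q : L[X]) (hpq : ∀ k, v (p.coeff k) = v (q.coeff k)) (a : L) (ha : v a ≤ 1)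
    (hq : ∀ k, v (q.coeff k) ≤ v (q.eval a)) : v (p.eval a) ≤ v (q.eval a) := by
  rw [Polynomial.eval_eq_sum_range]
  apply Valuation.map_sum_le
  intro i _
  rw [map_mul, map_pow]
  calc v (p.coeff i) * v a ^ i ≤ v (p.coeff i) * 1 :=
        mul_le_mul_right (pow_le_one' ha i) _
    _ = v (q.coeff i) := by rw [mul_one, hpq]
    _ ≤ _ := hq i

theorem eval_eq {L Γ : Type*} [Field L] [LinearOrderedCommGroupWithZero Γ] (v : Valuation L Γ)
    (p q : L[X]) (hpq : ∀ k, v (p.coeff k) = v (q.coeff k)) (a : L) (ha : v a ≤ 1)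
    (hp : ∀ k, v (p.coeff k) ≤ v (p.eval a)) (hq : ∀ k, v (q.coeff k) ≤ v (q.eval a)) :
    v (p.eval a) = v (q.eval a) :=
  le_antisymm (eval_le v p q hpq a ha hq) (eval_le v q p (fun k => (hpq k).symm) a ha hp)

open Classical in
/-- the step, from its inputs -/
theorem step_of {F : Type u} [Field F] [Infinite F] {n D : ℕ} (hD : 1 ≤ D) (u : Fin n → F)
    (hH : ∀ (a : MvPolynomial (Fin n) F) (j : ℕ),
      ((sh u a).coeff j).totalDegree ≤ a.totalDegree - j)
    (hzc : ∀ (L Γ : Type u) [Field L] [Algebra F L] [LinearOrderedCommGroupWithZero Γ]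
      (v : Valuation L Γ), (∀ c : F, c ≠ 0 → v (algebraMap F L c) = 1) → ∀ p : L[X],
      {ζ : F | ∃ k, ¬ v (p.coeff k) ≤ v (p.eval (algebraMap F L ζ))}.Finite)
    (hzn : ∀ (L Γ : Type u) [Field L] [IsAlgClosed L] [Algebra F L]
      [LinearOrderedCommGroupWithZero Γ] (v : Valuation L Γ),
      (∀ c : F, c ≠ 0 → v (algebraMap F L c) = 1) → ∀ p : L[X], p ≠ 0 → ∀ z ρ : L,
      (∀ a ∈ p.roots, v (z - ρ) ≤ v (z - a)) →
      {ζ : F | v (p.eval (ρ + algebraMap F L ζ * (z - ρ))) ≠ v (p.eval z)}.Finite)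
    (hcen : ∀ b0 : MvPolynomial (Fin n) F, Irreducible b0 → b0.totalDegree ≤ D →
      0 < (sh u b0).natDegree → ∀ CC : Finset (MvPolynomial (Fin n) F),
      (∀ c ∈ CC, c.totalDegree ≤ D) →
      ∃ BB' : Finset (MvPolynomial (Fin n) F), (∀ b ∈ BB', b ≠ 0 ∧ b.totalDegree ≤ 4 * D ^ 4) ∧
      ∀ (L : Type u) [Field L] [IsAlgClosed L] [Algebra F L] (Γ : Type u)
        [LinearOrderedCommGroupWithZero Γ] (v : Valuation L Γ), ∀ x x' : Fin n → L, Gen F x →
        (∀ b ∈ BB', v (MvPolynomial.aeval x b) = v (MvPolynomial.aeval x' b)) →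
        ∀ ρ : L, MvPolynomial.aeval (mv x ρ u) b0 = 0 →
        ∃ ρ' : L, ∀ c ∈ CC,
          v (MvPolynomial.aeval (mv x ρ u) c) = v (MvPolynomial.aeval (mv x' ρ' u) c))
    (BB : Finset (MvPolynomial (Fin n) F)) (hd : ∀ b ∈ BB, b ≠ 0 ∧ b.totalDegree ≤ D) :
    ∃ BB' : Finset (MvPolynomial (Fin n) F), (∀ b ∈ BB', b ≠ 0 ∧ b.totalDegree ≤ 4 * D ^ 4) ∧
      ∀ (L : Type u) [Field L] [IsAlgClosed L] [Algebra F L] (Γ : Type u)
        [LinearOrderedCommGroupWithZero Γ] (v : Valuation L Γ),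
        (∀ c : F, c ≠ 0 → v (algebraMap F L c) = 1) → ∀ x x' : Fin n → L, Gen F x →
        (∀ b ∈ BB', v (MvPolynomial.aeval x b) = v (MvPolynomial.aeval x' b)) →
        ∀ z : L, (∀ b ∈ BB, MvPolynomial.aeval (mv x z u) b ≠ 0) →
        ∃ z' : L, ∀ b ∈ BB,
          v (MvPolynomial.aeval (mv x z u) b) = v (MvPolynomial.aeval (mv x' z' u) b) := by
  set CC : Finset (MvPolynomial (Fin n) F) := BB.biUnion fun b =>
    (Finset.range ((sh u b).natDegree + 1)).image fun j => (sh u b).coeff j with hCC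
  have hCCd : ∀ c ∈ CC, c.totalDegree ≤ D := by
    intro c hc
    rw [hCC, Finset.mem_biUnion] at hc
    obtain ⟨b, hb, hc⟩ := hc
    rw [Finset.mem_image] at hc
    obtain ⟨j, _, rfl⟩ := hc
    exact (hH b j).trans ((Nat.sub_le _ _).trans (hd b hb).2)
  set Ir : Finset (MvPolynomial (Fin n) F) := BB.biUnion fun b =>
    (UniqueFactorizationMonoid.factors b).toFinset with hIr
  have hcen' : ∀ b0 : MvPolynomial (Fin n) F, ∃ BB' : Finset (MvPolynomial (Fin n) F),
      (∀ b ∈ BB', b ≠ 0 ∧ b.totalDegree ≤ 4 * D ^ 4) ∧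
      (Irreducible b0 → b0.totalDegree ≤ D → 0 < (sh u b0).natDegree →
      ∀ (L : Type u) [Field L] [IsAlgClosed L] [Algebra F L] (Γ : Type u)
        [LinearOrderedCommGroupWithZero Γ] (v : Valuation L Γ), ∀ x x' : Fin n → L, Gen F x →
        (∀ b ∈ BB', v (MvPolynomial.aeval x b) = v (MvPolynomial.aeval x' b)) →
        ∀ ρ : L, MvPolynomial.aeval (mv x ρ u) b0 = 0 →
        ∃ ρ' : L, ∀ c ∈ CC,
          v (MvPolynomial.aeval (mv x ρ u) c) = v (MvPolynomial.aeval (mv x' ρ' u) c)) := by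
    intro b0
    by_cases h : Irreducible b0 ∧ b0.totalDegree ≤ D ∧ 0 < (sh u b0).natDegree
    · obtain ⟨B, h1, h2⟩ := hcen b0 h.1 h.2.1 h.2.2 CC hCCd
      exact ⟨B, h1, fun _ _ _ => h2⟩
    · exact ⟨∅, by simp, fun h1 h2 h3 => absurd ⟨h1, h2, h3⟩ h⟩
  choose Bf hBf1 hBf2 using hcen'
  have hDD : D ≤ 4 * D ^ 4 := by
    calc D = D ^ 1 := (pow_one D).symm
      _ ≤ D ^ 4 := Nat.pow_le_pow_right hD (by norm_num)
      _ ≤ 4 * D ^ 4 := Nat.le_mul_of_pos_left _ (by norm_num)
  refine ⟨BB ∪ Ir.biUnion Bf, ?_, ?_⟩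
  · intro b hb
    rcases Finset.mem_union.1 hb with hb | hb
    · exact ⟨(hd b hb).1, (hd b hb).2.trans hDD⟩
    · rw [Finset.mem_biUnion] at hb
      obtain ⟨b0, _, hb⟩ := hb
      exact hBf1 b0 b hb
  intro L _ _ _ Γ _ v hv x x' hx hBB z hz
  -- the polynomials `b(x + T u)`
  set P : MvPolynomial (Fin n) F → L[X] := fun b =>
    (sh u b).map (MvPolynomial.aeval x : MvPolynomial (Fin n) F →ₐ[F] L).toRingHom with hP
  have hPe : ∀ (b : MvPolynomial (Fin n) F) (t : L),
      (P b).eval t = MvPolynomial.aeval (mv x t u) b := fun b t => sh_eval u x t b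
  have hmv0 : ∀ y : Fin n → L, mv y 0 u = y := by
    intro y
    funext i
    simp [mv]
  set R : Finset L := BB.biUnion fun b => (P b).roots.toFinset with hR
  by_cases hRn : R.Nonempty
  swap
  · -- no roots
    refine ⟨0, fun b hb => ?_⟩
    rw [hmv0]
    have hroots : (P b).roots = 0 := by
      by_contra h
      obtain ⟨a, ha⟩ := Multiset.exists_mem_of_ne_zero h
      exact hRn ⟨a, by
        rw [hR, Finset.mem_biUnion]
        exact ⟨b, hb, Multiset.mem_toFinset.2 ha⟩⟩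
    have hdeg : (P b).natDegree = 0 := by
      rw [← IsAlgClosed.card_roots_eq_natDegree, hroots, Multiset.card_zero]
    have hC := Polynomial.eq_C_of_natDegree_eq_zero hdeg
    have h1 : MvPolynomial.aeval (mv x z u) b = MvPolynomial.aeval x b := by
      rw [← hPe b z, hC, eval_C]
      have := hPe b 0
      rw [hmv0, hC, eval_C] at this
      exact this
    rw [h1]
    exact hBB b (Finset.mem_union_left _ hb)
  obtain ⟨ρ, hρR, hmin⟩ := Finset.exists_min_image R (fun a => v (z - a)) hRn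
  rw [hR, Finset.mem_biUnion] at hρR
  obtain ⟨b1, hb1, hρ1⟩ := hρR
  rw [Multiset.mem_toFinset] at hρ1
  have hzero1 : MvPolynomial.aeval (mv x ρ u) b1 = 0 := by
    rw [← hPe]
    exact (Polynomial.mem_roots'.1 hρ1).2
  -- an irreducible factor
  obtain ⟨b0, hb0f, hb0⟩ : ∃ b0 ∈ UniqueFactorizationMonoid.factors b1,
      MvPolynomial.aeval (mv x ρ u) b0 = 0 := by
    obtain ⟨w, hw⟩ := UniqueFactorizationMonoid.factors_prod (hd b1 hb1).1
    have h1 : MvPolynomial.aeval (mv x ρ u) ((UniqueFactorizationMonoid.factors b1).prod) = 0 := by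
      have h2 : MvPolynomial.aeval (mv x ρ u) ((UniqueFactorizationMonoid.factors b1).prod) *
          MvPolynomial.aeval (mv x ρ u) (w : MvPolynomial (Fin n) F) = 0 := by
        rw [← map_mul, hw, hzero1]
      rcases mul_eq_zero.1 h2 with h | h
      · exact h
      · exact absurd h ((w.isUnit.map
          (MvPolynomial.aeval (mv x ρ u) : MvPolynomial (Fin n) F →ₐ[F] L)).ne_zero)
    rw [map_multiset_prod, Multiset.prod_eq_zero_iff, Multiset.mem_map] at h1
    exact h1
  have hirr : Irreducible b0 := UniqueFactorizationMonoid.irreducible_of_factor b0 hb0f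
  have hdeg0 : b0.totalDegree ≤ D := by
    obtain ⟨c, hc⟩ := UniqueFactorizationMonoid.dvd_of_mem_factors hb0f
    have hc0 : c ≠ 0 := by
      rintro rfl
      exact (hd b1 hb1).1 (by rw [hc, mul_zero])
    have := MvPolynomial.totalDegree_mul_of_isDomain hirr.ne_zero hc0
    rw [← hc] at this
    have h2 := (hd b1 hb1).2
    omega
  have hpos : 0 < (sh u b0).natDegree := by
    rw [Nat.pos_iff_ne_zero]
    intro h
    have hC : sh u b0 = C ((sh u b0).coeff 0) := Polynomial.eq_C_of_natDegree_eq_zero h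
    have h1 := hPe b0 ρ
    have h2 := hPe b0 0
    rw [hP] at h1 h2
    simp only at h1 h2
    rw [hC, Polynomial.map_C, eval_C] at h1 h2
    rw [hmv0] at h2
    exact hx b0 hirr.ne_zero (by rw [← h2, h1, hb0])
  have hIrm : b0 ∈ Ir := by
    rw [hIr, Finset.mem_biUnion]
    exact ⟨b1, hb1, Multiset.mem_toFinset.2 hb0f⟩
  obtain ⟨ρ', hρ'⟩ := hBf2 b0 hirr hdeg0 hpos L Γ v x x' hx
    (fun b hb => hBB b (Finset.mem_union_right _ (Finset.mem_biUnion.2 ⟨b0, hIrm, hb⟩))) ρ hb0
  -- scaled Taylor polynomials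
  set q : MvPolynomial (Fin n) F → L[X] := fun b =>
    ((sh u b).map (MvPolynomial.aeval (mv x ρ u) : MvPolynomial (Fin n) F →ₐ[F] L).toRingHom).comp
      (C (z - ρ) * X) with hq
  set q' : MvPolynomial (Fin n) F → L[X] := fun b =>
    ((sh u b).map (MvPolynomial.aeval (mv x' ρ' u) : MvPolynomial (Fin n) F →ₐ[F] L).toRingHom).comp
      (C (z - ρ) * X) with hq'
  have hcoef : ∀ b ∈ BB, ∀ k, v ((q b).coeff k) = v ((q' b).coeff k) := by
    intro b hb k
    rw [hq, hq']
    simp only [Polynomial.comp_C_mul_X_coeff, Polynomial.coeff_map, map_mul]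
    congr 1
    by_cases hk : k ∈ Finset.range ((sh u b).natDegree + 1)
    · exact hρ' _ (by
        rw [hCC, Finset.mem_biUnion]
        exact ⟨b, hb, Finset.mem_image.2 ⟨k, hk, rfl⟩⟩)
    · have : (sh u b).coeff k = 0 := by
        apply Polynomial.coeff_eq_zero_of_natDegree_lt
        simpa using hk
      rw [this]
      simp
  have hqe : ∀ (b : MvPolynomial (Fin n) F) (a : L),
      (q b).eval a = MvPolynomial.aeval (mv x (ρ + a * (z - ρ)) u) b := by
    intro b a
    rw [hq]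
    simp only [Polynomial.eval_comp, eval_mul, eval_C, eval_X]
    rw [sh_taylor, mul_comm]
  have hqe' : ∀ (b : MvPolynomial (Fin n) F) (a : L),
      (q' b).eval a = MvPolynomial.aeval (mv x' (ρ' + a * (z - ρ)) u) b := by
    intro b a
    rw [hq']
    simp only [Polynomial.eval_comp, eval_mul, eval_C, eval_X]
    rw [sh_taylor, mul_comm]
  -- the finite set of bad `ζ`
  have hfin : (⋃ b ∈ BB, ({ζ : F | ∃ k, ¬ v ((q b).coeff k) ≤ v ((q b).eval (algebraMap F L ζ))} ∪
      {ζ : F | ∃ k, ¬ v ((q' b).coeff k) ≤ v ((q' b).eval (algebraMap F L ζ))} ∪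
      {ζ : F | v ((P b).eval (ρ + algebraMap F L ζ * (z - ρ))) ≠ v ((P b).eval z)})).Finite := by
    apply Set.Finite.biUnion (Finset.finite_toSet BB)
    intro b hb
    refine ((hzc L Γ v hv (q b)).union (hzc L Γ v hv (q' b))).union ?_
    apply hzn L Γ v hv (P b)
    · intro h0
      apply hz b hb
      rw [← hPe, h0, eval_zero]
    · intro a ha
      apply hmin a
      rw [hR, Finset.mem_biUnion]
      exact ⟨b, hb, Multiset.mem_toFinset.2 ha⟩
  obtain ⟨ζ, hζ⟩ := hfin.infinite_compl.nonempty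
  have hζ1 : v (algebraMap F L ζ) ≤ 1 := by
    by_cases h : ζ = 0
    · rw [h, map_zero, map_zero]
      exact zero_le_one
    · exact (hv ζ h).le
  refine ⟨ρ' + algebraMap F L ζ * (z - ρ), fun b hb => ?_⟩
  have hζb : ¬ ((∃ k, ¬ v ((q b).coeff k) ≤ v ((q b).eval (algebraMap F L ζ))) ∨
      (∃ k, ¬ v ((q' b).coeff k) ≤ v ((q' b).eval (algebraMap F L ζ))) ∨
      v ((P b).eval (ρ + algebraMap F L ζ * (z - ρ))) ≠ v ((P b).eval z)) := by
    intro h
    apply hζ
    rw [Set.mem_iUnion₂]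
    refine ⟨b, hb, ?_⟩
    rcases h with h | h | h
    · exact Or.inl (Or.inl h)
    · exact Or.inl (Or.inr h)
    · exact Or.inr h
  push Not at hζb
  obtain ⟨g1, g2, g3⟩ := hζb
  rw [← hPe, ← g3, hPe, ← hqe, ← hqe']
  exact eval_eq v (q b) (q' b) (hcoef b hb) _ hζ1 g1 g2

end AK.S93
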