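import Pool.Agent.Lib.MP_64d474_lc.AK.Cen2
import Pool.Agent.Lib.MP_64d474_lc.AK.Step93
import Pool.Agent.Lib.MP_64d474_lc.AK.G29
import Pool.Agent.Lib.MP_64d474_lc.AK.RowH82
import Pool.Agent.Lib.MP_64d474_lc.AK.IT90
import Pool.Agent.Lib.MP_64d474_lc.AK.M90
import Pool.Agent.Lib.MP_64d474_lc.AK.V29
import Pool.Agent.Lib.MP_64d474_lc.AK.X96
import Pool.Agent.Lib.MP_64d474_lc.AK.I90
import Pool.Agent.Lib.MP_64d474_lc.AK.Z4
import Pool.Agent.Lib.MP_64d474_lc.AK.Hit35

/-!
# Products of polynomials of low degree, bounded transcendence degree: the assembly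
-/

set_option autoImplicit false

namespace AK

open Polynomial

universe u

theorem step69 {F : Type u} [Field F] [Infinite F] (n : ℕ) : StepHyp90 F n := by
  intro D hD u BB hd
  exact S93.step_of hD u (sh_coeff_totalDegree u) (fun L Γ _ _ _ v hv p => zeta_coeff v hv p)
    (fun L Γ _ _ _ _ v hv p hp z ρ h => zeta_near v hv p hp z ρ h)
    (fun b0 hb0 hd0 hpos CC hCC => centre hD u b0 hb0 hd0 hpos CC hCC) BB hd

theorem main69 {F : Type u} [Field F] [Infinite F] {n r d : ℕ} (hd : 1 ≤ d)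
    (T : Fin r → MvPolynomial (Fin n) F) (hT : AlgebraicIndependent F T)
    (hprod : ∀ j, IsProd d (T j)) :
    ∃ I : Finset (Fin n), I.card = r ∧ ∃ BB : Finset (MvPolynomial (Fin n) F),
      (∀ b ∈ BB, b ≠ 0 ∧ b.totalDegree ≤ DD r d) ∧
      ∀ o : Fin n → F, (∀ b ∈ BB, MvPolynomial.eval o b ≠ 0) →
        AlgebraicIndependent F fun j => res I o (T j) :=
  main_of90 hd (fun r D hD u BB hd => iter_of_step90 (step69 n) r D hD u BB hd)
    (fun t ht => exists_val t ht) (fun T hT => exists_split T hT)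
    (fun v hv _ t h => indep_of_val v hv t h) T hT hprod

theorem stNonzero69 : StNonzero.{u} := by
  intro F _ _ n m r d hd T hprod hr h hh h0
  exact nonzero_of_main (fun hd T hT hp => main69 hd T hT hp) hd T hprod hr h hh h0

/-- **All top fan-ins, bounded transcendence degree.** -/
theorem hit69 {F : Type u} [Field F] [CharZero F]
    {n m r d N : ℕ} (hn : 0 < n) (hd : 1 ≤ d)
    (T : Fin m → MvPolynomial (Fin n) F) (hprod : ∀ j, IsProd d (T j))
    (hr : ∀ s : Finset (Fin m), AlgebraicIndependent F (fun j : s => T j) → s.card ≤ r)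
    (h : MvPolynomial (Fin n) F) (hh : h ∈ Algebra.adjoin F (Set.range T)) (h0 : h ≠ 0)
    (hN : h.totalDegree ≤ N) :
    ∃ (z y : Fin (DD r d) → ℕ) (I : Fin r → Fin n) (w : Fin r → ℕ), (∀ i, z i ≤ N) ∧
      (∀ i, y i ≤ n * N) ∧ (∀ i, w i ≤ N) ∧
      MvPolynomial.eval (test (fun i => (z i : F)) (fun i => (y i : F)) I
        (fun i => (w i : F))) h ≠ 0 :=
  hit_of_nonzero stNonzero69 hn hd T hprod hr h hh h0 hN

end AK
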