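import Pool.Agent.Lib.MP_64d474_lc.AK.GenDefs
import Pool.Agent.Lib.MP_64d474_lc.AK.Cls35
import Pool.Agent.Lib.MP_64d474_lc.AK.V29
import Pool.Agent.Lib.MP_64d474_lc.AK.X96
import Pool.Agent.Lib.MP_64d474_lc.AK.I90
import Pool.Agent.Lib.MP_64d474_lc.AK.ZG4

/-!
# Main theorem and nonvanishing for general classes of factors (helper55)
-/

set_option autoImplicit false

namespace AK

open Polynomial

universe u

theorem stepK_of_steps {F : Type u} [Field F] {n : ℕ}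
    {P : ℕ → MvPolynomial (Fin n) F → Prop} (hP : Steps P) (j : ℕ) (i : Fin n) :
    StepK (P j) (P (j + 1)) (Pi.single i 1) := by
  intro BB hBB
  obtain ⟨BB', h1, h2⟩ := hP j i BB hBB
  refine ⟨BB', h1, ?_⟩
  intro L _ _ _ Γ _ v hv hnt x x' hx heq z hz
  refine h2 L Γ v hv ?_ x x' hx heq z hz
  obtain ⟨a, ha0, ha1⟩ := hnt
  rcases lt_or_gt_of_ne ha1 with h | h
  · exact ⟨a, (Valuation.ne_zero_iff v).2 ha0, h⟩
  · refine ⟨a⁻¹, (Valuation.ne_zero_iff v).2 (inv_ne_zero ha0), ?_⟩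
    rw [map_inv₀]
    exact inv_lt_one_of_one_lt₀ h

theorem main_gen {F : Type u} [Field F] {n r : ℕ}
    (P : ℕ → MvPolynomial (Fin n) F → Prop) (hP : Steps P)
    (T : Fin r → MvPolynomial (Fin n) F) (hT : AlgebraicIndependent F T)
    (hprod : ∀ j, ∃ s : Multiset (MvPolynomial (Fin n) F), (∀ p ∈ s, P 0 p) ∧ T j = s.prod) :
    ∃ I : Finset (Fin n), I.card = r ∧ ∃ BB : Finset (MvPolynomial (Fin n) F),
      (∀ b ∈ BB, b ≠ 0 ∧ P r b) ∧
      ∀ o : Fin n → F, (∀ b ∈ BB, MvPolynomial.eval o b ≠ 0) →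
        AlgebraicIndependent F fun j => res I o (T j) :=
  mainK P (fun j i => stepK_of_steps hP j i) (fun t ht => exists_val t ht)
    (fun T hT => exists_split T hT) (fun v hv _ t h => indep_of_val v hv t h) T hT hprod

theorem nonzero_gen {F : Type u} [Field F] [Infinite F] {n m r : ℕ}
    (P : ℕ → MvPolynomial (Fin n) F → Prop) (hP : Steps P)
    (T : Fin m → MvPolynomial (Fin n) F)
    (hprod : ∀ j, ∃ s : Multiset (MvPolynomial (Fin n) F), (∀ p ∈ s, P 0 p) ∧ T j = s.prod)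
    (hr : ∀ s : Finset (Fin m), AlgebraicIndependent F (fun j : s => T j) → s.card ≤ r)
    (h : MvPolynomial (Fin n) F) (hh : h ∈ Algebra.adjoin F (Set.range T)) (h0 : h ≠ 0) :
    ∃ r' ≤ r, ∃ I : Finset (Fin n), I.card = r' ∧ ∃ BB : Finset (MvPolynomial (Fin n) F),
      (∀ b ∈ BB, b ≠ 0 ∧ P r' b) ∧
      ∀ o : Fin n → F, (∀ b ∈ BB, MvPolynomial.eval o b ≠ 0) → res I o h ≠ 0 :=
  nonzero_gen_of_main (fun P hP T hT hp => main_gen P hP T hT hp) P hP T hprod hr h hh h0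

end AK
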