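import Mathlib

set_option autoImplicit false

/-! Row N: a polynomial whose coefficients have the values of the coefficients of another one has
roots of the same values. -/

namespace AK

open Polynomial

namespace Newton69

variable {L Γ : Type*} [Field L] [LinearOrderedCommGroupWithZero Γ] (v : Valuation L Γ)

/-- at the radius `R` the term of degree `k` strictly dominates -/
def Dom (R : Γ) (p : L[X]) (k : ℕ) : Prop :=
  ∀ i, i ≠ k → v (p.coeff i) * R ^ i < v (p.coeff k) * R ^ k

variable {v}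

theorem Dom.pos {R : Γ} {p : L[X]} {k : ℕ} (h : Dom v R p k) : 0 < v (p.coeff k) * R ^ k :=
  lt_of_le_of_lt zero_le (h (k + 1) (Nat.succ_ne_self k))

theorem Dom.one (R : Γ) : Dom v R (1 : L[X]) 0 := by
  intro i hi
  rw [coeff_one, if_neg hi, coeff_one, if_pos rfl]
  simp

theorem Dom.mul_small {R : Γ} {p : L[X]} {k : ℕ} (h : Dom v R p k) {a : L} (ha : v a < R) :
    Dom v R ((X - C a) * p) (k + 1) := by
  have hM := h.pos
  have hR : 0 < R := lt_of_le_of_lt zero_le ha
  have h1 : ∀ i, v (p.coeff i) * R ^ i ≤ v (p.coeff k) * R ^ k := by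
    intro i
    by_cases hi : i = k
    · rw [hi]
    · exact (h i hi).le
  have h2 : ∀ i, v (a * p.coeff i) * R ^ i < v (p.coeff k) * R ^ (k + 1) := by
    intro i
    calc v (a * p.coeff i) * R ^ i = v a * (v (p.coeff i) * R ^ i) := by rw [map_mul, mul_assoc]
      _ ≤ v a * (v (p.coeff k) * R ^ k) := mul_le_mul_right (h1 i) _
      _ < R * (v (p.coeff k) * R ^ k) := mul_lt_mul_of_pos_right ha hM
      _ = v (p.coeff k) * R ^ (k + 1) := by rw [pow_succ, mul_left_comm R, mul_comm R (R ^ k)]
  have h3 : ∀ i, i ≠ k → v (p.coeff i) * R ^ (i + 1) < v (p.coeff k) * R ^ (k + 1) := by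
    intro i hi
    calc v (p.coeff i) * R ^ (i + 1) = R * (v (p.coeff i) * R ^ i) := by rw [pow_succ, mul_left_comm R, mul_comm R (R ^ i)]
      _ < R * (v (p.coeff k) * R ^ k) := mul_lt_mul_of_pos_left (h i hi) hR
      _ = v (p.coeff k) * R ^ (k + 1) := by rw [pow_succ, mul_left_comm R, mul_comm R (R ^ k)]
  have hk : v (((X - C a) * p).coeff (k + 1)) * R ^ (k + 1) = v (p.coeff k) * R ^ (k + 1) := by
    have e : ((X - C a) * p).coeff (k + 1) = p.coeff k - a * p.coeff (k + 1) := by
      rw [sub_mul, coeff_sub, coeff_X_mul, coeff_C_mul]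
    have h4 : v (a * p.coeff (k + 1)) < v (p.coeff k) := by
      have h5 := h2 (k + 1)
      exact lt_of_mul_lt_mul_right h5 zero_le
    rw [e, Valuation.map_sub_eq_of_lt_left _ h4]
  intro i hi
  rw [hk]
  cases i with
  | zero =>
    have e : ((X - C a) * p).coeff 0 = -(a * p.coeff 0) := by
      rw [sub_mul, coeff_sub, coeff_X_mul_zero, coeff_C_mul, zero_sub]
    rw [e, Valuation.map_neg]
    exact h2 0
  | succ i =>
    have e : ((X - C a) * p).coeff (i + 1) = p.coeff i - a * p.coeff (i + 1) := by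
      rw [sub_mul, coeff_sub, coeff_X_mul, coeff_C_mul]
    rw [e]
    have hik : i ≠ k := fun hh => hi (by rw [hh])
    rcases le_max_iff.1 (v.map_sub (p.coeff i) (a * p.coeff (i + 1))) with h6 | h6
    · exact lt_of_le_of_lt (mul_le_mul_left h6 _) (h3 i hik)
    · exact lt_of_le_of_lt (mul_le_mul_left h6 _) (h2 (i + 1))

theorem Dom.mul_big {R : Γ} {p : L[X]} {k : ℕ} (h : Dom v R p k) {a : L} (ha : R < v a) :
    Dom v R ((X - C a) * p) k := by
  have hM := h.pos
  have ha0 : 0 < v a := lt_of_le_of_lt zero_le ha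
  have h1 : ∀ i, v (p.coeff i) * R ^ i ≤ v (p.coeff k) * R ^ k := by
    intro i
    by_cases hi : i = k
    · rw [hi]
    · exact (h i hi).le
  have h2 : ∀ i, v (p.coeff i) * R ^ (i + 1) < v (a * p.coeff k) * R ^ k := by
    intro i
    calc v (p.coeff i) * R ^ (i + 1) = R * (v (p.coeff i) * R ^ i) := by rw [pow_succ, mul_left_comm R, mul_comm R (R ^ i)]
      _ ≤ R * (v (p.coeff k) * R ^ k) := mul_le_mul_right (h1 i) _
      _ < v a * (v (p.coeff k) * R ^ k) := mul_lt_mul_of_pos_right ha hM
      _ = v (a * p.coeff k) * R ^ k := by rw [map_mul, mul_assoc]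
  have h3 : ∀ i, i ≠ k → v (a * p.coeff i) * R ^ i < v (a * p.coeff k) * R ^ k := by
    intro i hi
    calc v (a * p.coeff i) * R ^ i = v a * (v (p.coeff i) * R ^ i) := by rw [map_mul, mul_assoc]
      _ < v a * (v (p.coeff k) * R ^ k) := mul_lt_mul_of_pos_left (h i hi) ha0
      _ = v (a * p.coeff k) * R ^ k := by rw [map_mul, mul_assoc]
  have hk : v (((X - C a) * p).coeff k) = v (a * p.coeff k) := by
    cases k with
    | zero =>
      have e : ((X - C a) * p).coeff 0 = -(a * p.coeff 0) := by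
        rw [sub_mul, coeff_sub, coeff_X_mul_zero, coeff_C_mul, zero_sub]
      rw [e, Valuation.map_neg]
    | succ k =>
      have e : ((X - C a) * p).coeff (k + 1) = p.coeff k - a * p.coeff (k + 1) := by
        rw [sub_mul, coeff_sub, coeff_X_mul, coeff_C_mul]
      have h4 : v (p.coeff k) < v (a * p.coeff (k + 1)) :=
        lt_of_mul_lt_mul_right (h2 k) zero_le
      rw [e, Valuation.map_sub_eq_of_lt_right _ h4]
  intro i hi
  rw [hk]
  cases i with
  | zero =>
    have e : ((X - C a) * p).coeff 0 = -(a * p.coeff 0) := by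
      rw [sub_mul, coeff_sub, coeff_X_mul_zero, coeff_C_mul, zero_sub]
    rw [e, Valuation.map_neg]
    exact h3 0 hi
  | succ i =>
    have e : ((X - C a) * p).coeff (i + 1) = p.coeff i - a * p.coeff (i + 1) := by
      rw [sub_mul, coeff_sub, coeff_X_mul, coeff_C_mul]
    rw [e]
    rcases le_max_iff.1 (v.map_sub (p.coeff i) (a * p.coeff (i + 1))) with h6 | h6
    · exact lt_of_le_of_lt (mul_le_mul_left h6 _) (h2 i)
    · exact lt_of_le_of_lt (mul_le_mul_left h6 _) (h3 (i + 1) hi)

theorem exists_dom (R : Γ) (s : Multiset L) (hs : ∀ a ∈ s, v a ≠ R) :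
    ∃ k, Dom v R (s.map fun a => X - C a).prod k := by
  induction s using Multiset.induction_on with
  | empty => exact ⟨0, by simpa using Dom.one (v := v) R⟩
  | cons a s ih =>
    obtain ⟨k, hk⟩ := ih fun b hb => hs b (Multiset.mem_cons_of_mem hb)
    rw [Multiset.map_cons, Multiset.prod_cons]
    rcases lt_or_gt_of_ne (hs a (Multiset.mem_cons_self a s)) with h | h
    · exact ⟨k + 1, hk.mul_small h⟩
    · exact ⟨k, hk.mul_big h⟩

theorem Dom.eval_ne_zero {p : L[X]} {k : ℕ} {q : L} (h : Dom v (v q) p k) : p.eval q ≠ 0 := by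
  have hM := h.pos
  have hk : k ∈ p.support := by
    rw [mem_support_iff]
    intro h0
    rw [h0, map_zero, zero_mul] at hM
    exact lt_irrefl _ hM
  intro h0
  rw [eval_eq_sum, Polynomial.sum, ← Finset.add_sum_erase _ _ hk] at h0
  have h1 : v (∑ i ∈ p.support.erase k, p.coeff i * q ^ i) < v (p.coeff k * q ^ k) := by
    apply Valuation.map_sum_lt
    · rw [map_mul, map_pow]
      exact hM.ne'
    · intro i hi
      rw [map_mul, map_pow, map_mul, map_pow]
      exact h i (Finset.mem_erase.1 hi).1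
  have h2 : p.coeff k * q ^ k = -∑ i ∈ p.support.erase k, p.coeff i * q ^ i :=
    eq_neg_of_add_eq_zero_left h0
  rw [h2, Valuation.map_neg] at h1
  exact lt_irrefl _ h1

end Newton69

theorem newton {L Γ : Type*} [Field L] [LinearOrderedCommGroupWithZero Γ] (v : Valuation L Γ)
    (s s' : Multiset L)
    (h : ∀ i, v ((s.map fun a => X - C a).prod.coeff i) =
      v ((s'.map fun a => X - C a).prod.coeff i)) {q : L} (hq : q ∈ s) :
    ∃ q' ∈ s', v q' = v q := by
  by_contra hcon
  push Not at hcon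
  obtain ⟨k, hk⟩ := Newton69.exists_dom (v := v) (v q) s' hcon
  have hk' : Newton69.Dom v (v q) (s.map fun a => X - C a).prod k := by
    intro i hi
    rw [h, h]
    exact hk i hi
  apply hk'.eval_ne_zero
  rw [eval_multiset_prod, Multiset.map_map]
  apply Multiset.prod_eq_zero
  rw [Multiset.mem_map]
  exact ⟨q, hq, by simp⟩

end AK
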