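import Pool.Agent.Lib.MP_64d474_lc.AK.Defs

/-! # Row S (separating exponents) -/

namespace AK

open Polynomial

/-- Small exponents separate one product from `e` others. -/
theorem exp_sep2 {Γ₀ : Type*} [LinearOrderedCommGroupWithZero Γ₀] (e : ℕ) (a : Fin e → Γ₀)
    (b : Fin e → Fin e → Γ₀) (ha : ∀ j, a j ≠ 0) (hne : ∀ l, a l ≠ b l l) :
    ∃ m : Fin e → ℕ, (∀ j, 1 ≤ m j ∧ m j ≤ e + 1) ∧
      ∀ l, ∏ j, a j ^ m j ≠ ∏ j, (b l j) ^ m j := by
  classical
  rcases Nat.eq_zero_or_pos e with he | he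
  · subst he
    exact ⟨fun _ => 1, fun j => j.elim0, fun l => l.elim0⟩
  let Bad : Fin e → Finset (Fin e → Fin (e + 1)) := fun l =>
    Finset.univ.filter fun m => ∏ j, a j ^ (m j + 1 : ℕ) = ∏ j, (b l j) ^ (m j + 1 : ℕ)
  have hcard : ∀ l, (Bad l).card ≤ (e + 1) ^ (e - 1) := by
    intro l
    have hinj : Set.InjOn (fun (m : Fin e → Fin (e + 1)) (j : {j : Fin e // j ≠ l}) => m j.1)
        (Bad l : Set (Fin e → Fin (e + 1))) := by
      intro m hm m' hm' hmm
      have hm1 : ∏ j, a j ^ (m j + 1 : ℕ) = ∏ j, (b l j) ^ (m j + 1 : ℕ) :=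
        (Finset.mem_filter.1 (Finset.mem_coe.1 hm)).2
      have hm2 : ∏ j, a j ^ (m' j + 1 : ℕ) = ∏ j, (b l j) ^ (m' j + 1 : ℕ) :=
        (Finset.mem_filter.1 (Finset.mem_coe.1 hm')).2
      have hoff : ∀ j, j ≠ l → m j = m' j := fun j hj => congrFun hmm ⟨j, hj⟩
      have hb0 : ∀ j, b l j ≠ 0 := by
        intro j hj
        have h0 : ∏ j, (b l j) ^ (m j + 1 : ℕ) = 0 :=
          Finset.prod_eq_zero (Finset.mem_univ j) (by rw [hj]; exact zero_pow (Nat.succ_ne_zero _))
        rw [h0] at hm1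
        exact (Finset.prod_ne_zero_iff.2 fun j _ => pow_ne_zero _ (ha j)) hm1
      rw [← Finset.mul_prod_erase _ _ (Finset.mem_univ l),
        ← Finset.mul_prod_erase _ _ (Finset.mem_univ l)] at hm1 hm2
      have eA : ∏ j ∈ Finset.univ.erase l, a j ^ (m' j + 1 : ℕ) =
          ∏ j ∈ Finset.univ.erase l, a j ^ (m j + 1 : ℕ) :=
        Finset.prod_congr rfl fun j hj => by rw [hoff j (Finset.ne_of_mem_erase hj)]
      have eB : ∏ j ∈ Finset.univ.erase l, (b l j) ^ (m' j + 1 : ℕ) =
          ∏ j ∈ Finset.univ.erase l, (b l j) ^ (m j + 1 : ℕ) :=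
        Finset.prod_congr rfl fun j hj => by rw [hoff j (Finset.ne_of_mem_erase hj)]
      rw [eA, eB] at hm2
      set A := ∏ j ∈ Finset.univ.erase l, a j ^ (m j + 1 : ℕ) with hA
      set B := ∏ j ∈ Finset.univ.erase l, (b l j) ^ (m j + 1 : ℕ) with hB
      have hB0 : B ≠ 0 := Finset.prod_ne_zero_iff.2 fun j _ => pow_ne_zero _ (hb0 j)
      -- the exponents at `l` agree
      have key : ∀ P q : ℕ, a l ^ P * A = b l l ^ P * B →
          a l ^ (P + q) * A = b l l ^ (P + q) * B → q = 0 := by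
        intro P q h1 h2
        by_contra hq
        have h3 : a l ^ q = b l l ^ q := by
          have h4 : b l l ^ P * B ≠ 0 := mul_ne_zero (pow_ne_zero _ (hb0 l)) hB0
          apply mul_left_cancel₀ h4
          calc b l l ^ P * B * a l ^ q = a l ^ P * A * a l ^ q := by rw [h1]
            _ = a l ^ (P + q) * A := by rw [pow_add, mul_right_comm]
            _ = b l l ^ (P + q) * B := h2
            _ = b l l ^ P * B * b l l ^ q := by rw [pow_add, mul_right_comm]
        exact hne l ((pow_left_inj₀ zero_le zero_le hq).1 h3)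
      have hl : m l = m' l := by
        rcases le_total (m l : ℕ) (m' l : ℕ) with h | h
        · obtain ⟨q, hq⟩ := Nat.exists_eq_add_of_le h
          have h2 := hm2
          rw [hq, show (m l : ℕ) + q + 1 = (m l : ℕ) + 1 + q by ring] at h2
          have := key _ _ hm1 h2
          exact Fin.ext (by omega)
        · obtain ⟨q, hq⟩ := Nat.exists_eq_add_of_le h
          have h1 := hm1
          rw [hq, show (m' l : ℕ) + q + 1 = (m' l : ℕ) + 1 + q by ring] at h1
          have := key _ _ hm2 h1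
          exact Fin.ext (by omega)
      funext j
      by_cases hj : j = l
      · rw [hj]
        exact hl
      · exact hoff j hj
    have h1 := Finset.card_le_card_of_injOn _ (fun m _ => Finset.mem_univ
      (fun (j : {j : Fin e // j ≠ l}) => m j.1)) hinj
    have h2 : (Finset.univ : Finset ({j : Fin e // j ≠ l} → Fin (e + 1))).card =
        (e + 1) ^ (e - 1) := by
      rw [Finset.card_univ, Fintype.card_fun, Fintype.card_fin, Fintype.card_subtype_compl,
        Fintype.card_fin, Fintype.card_subtype_eq]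
    exact h1.trans h2.le
  have hex : ∃ m : Fin e → Fin (e + 1), ∀ l, m ∉ Bad l := by
    by_contra hcon
    push Not at hcon
    have hsub : (Finset.univ : Finset (Fin e → Fin (e + 1))) ⊆ Finset.univ.biUnion Bad := by
      intro m _
      obtain ⟨l, hl⟩ := hcon m
      exact Finset.mem_biUnion.2 ⟨l, Finset.mem_univ _, hl⟩
    have h1 := Finset.card_le_card hsub
    have h2 : (Finset.univ.biUnion Bad).card ≤ e * (e + 1) ^ (e - 1) := by
      refine Finset.card_biUnion_le.trans ?_
      refine (Finset.sum_le_card_nsmul _ _ _ fun l _ => hcard l).trans ?_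
      rw [Finset.card_univ, Fintype.card_fin, smul_eq_mul]
    rw [Finset.card_univ, Fintype.card_fun, Fintype.card_fin, Fintype.card_fin] at h1
    have h3 : (e + 1) ^ e = (e + 1) * (e + 1) ^ (e - 1) := by
      rw [← pow_succ', Nat.sub_add_cancel he]
    have h4 : 0 < (e + 1) ^ (e - 1) := Nat.pos_of_ne_zero (pow_ne_zero _ (by omega))
    rw [h3] at h1
    nlinarith [h1.trans h2]
  obtain ⟨m, hm⟩ := hex
  refine ⟨fun j => (m j : ℕ) + 1, fun j => ⟨Nat.le_add_left 1 _, Nat.succ_le_of_lt (m j).2⟩,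
    fun l h => ?_⟩
  exact hm l (Finset.mem_filter.2 ⟨Finset.mem_univ _, h⟩)

/-- Row S. -/
theorem sep {Γ : Type*} [LinearOrderedCommGroupWithZero Γ] {ι : Type*} (e : ℕ) (U : ι → Γ)
    (U' : Fin e → ι → Γ) (hU : ∀ i, U i ≠ 0) (h : ∀ l, ∃ i, U i ≠ U' l i) :
    ∃ (i : Fin e → ι) (c : Fin e → ℕ), (∀ m, c m ≤ e + 1) ∧
      ∀ l, ∏ m, U (i m) ^ c m ≠ ∏ m, U' l (i m) ^ c m := by
  choose i hi using h
  obtain ⟨m, hm1, hm2⟩ := exp_sep2 e (fun j => U (i j)) (fun l j => U' l (i j))
    (fun j => hU _) hi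
  exact ⟨i, m, fun j => (hm1 j).2, hm2⟩

end AK
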