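import Pool.Agent.Lib.MP_64d474_lc.AK.GenDefs
import Pool.Agent.Lib.MP_64d474_lc.AK.Step93

/-!
# The step for a general class of factors, from its inputs
-/

set_option autoImplicit false

namespace AK.S93

open Polynomial

universe u

/-- the constant coefficient of `sh u b` is `b` -/
theorem sh_coeff_zero {F : Type*} [Field F] {σ : Type*} (u : σ → F) (a : MvPolynomial σ F) :
    (sh u a).coeff 0 = a := by
  have h : ((Polynomial.evalRingHom (0 : MvPolynomial σ F)).comp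
      (sh u : MvPolynomial σ F →ₐ[F] (MvPolynomial σ F)[X]).toRingHom) =
      RingHom.id (MvPolynomial σ F) := by
    apply MvPolynomial.ringHom_ext
    · intro r
      simp [sh, Polynomial.algebraMap_apply, MvPolynomial.algebraMap_eq]
    · intro i
      simp [sh]
  rw [Polynomial.coeff_zero_eq_eval_zero]
  exact congrArg (fun f : MvPolynomial σ F →+* MvPolynomial σ F => f a) h

/-- members of `BB` are expressions -/
theorem expr_self {F : Type*} [Field F] {n : ℕ} (u : Fin n → F) (E M : ℕ) (hM : 1 ≤ M)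
    (BB : Finset (MvPolynomial (Fin n) F)) (b : MvPolynomial (Fin n) F) (hb : b ∈ BB) :
    Expr u E M BB b := by
  refine ⟨fun _ => b, MvPolynomial.X (0, 0), fun _ => hb, ?_, ?_⟩
  · exact (MvPolynomial.totalDegree_X _).le.trans hM
  · rw [MvPolynomial.aeval_X]
    exact (sh_coeff_zero u b).symm

open Classical in
/-- the step for a general class, from its inputs -/
theorem step_gen_of {F : Type u} [Field F] [Infinite F] {n E : ℕ} (hE0 : 1 ≤ E) (u : Fin n → F)
    (hzc : ∀ (L Γ : Type u) [Field L] [Algebra F L] [LinearOrderedCommGroupWithZero Γ]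
      (v : Valuation L Γ), (∀ c : F, c ≠ 0 → v (algebraMap F L c) = 1) → ∀ p : L[X],
      {ζ : F | ∃ k, ¬ v (p.coeff k) ≤ v (p.eval (algebraMap F L ζ))}.Finite)
    (hzn : ∀ (L Γ : Type u) [Field L] [IsAlgClosed L] [Algebra F L]
      [LinearOrderedCommGroupWithZero Γ] (v : Valuation L Γ),
      (∀ c : F, c ≠ 0 → v (algebraMap F L c) = 1) → ∀ p : L[X], p ≠ 0 → ∀ z ρ : L,
      (∀ a ∈ p.roots, v (z - ρ) ≤ v (z - a)) →
      {ζ : F | v (p.eval (ρ + algebraMap F L ζ * (z - ρ))) ≠ v (p.eval z)}.Finite)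
    (BB : Finset (MvPolynomial (Fin n) F)) (h0 : ∀ b ∈ BB, b ≠ 0)
    (hcen : ∀ b0 ∈ BB, ∃ BB' : Finset (MvPolynomial (Fin n) F),
      (∀ b ∈ BB', b ≠ 0 ∧ Expr u E (2 * E ^ 2 * (E + 1)) BB b) ∧
      ∀ (L : Type u) [Field L] [IsAlgClosed L] [Algebra F L] (Γ : Type u)
        [LinearOrderedCommGroupWithZero Γ] (v : Valuation L Γ), (∃ a : L, v a ≠ 0 ∧ v a < 1) →
        ∀ x x' : Fin n → L, Gen F x →
        (∀ b ∈ BB', v (MvPolynomial.aeval x b) = v (MvPolynomial.aeval x' b)) →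
        ∀ ρ : L, MvPolynomial.aeval (mv x ρ u) b0 = 0 →
        ∃ ρ' : L, ∀ b ∈ BB, ∀ k : ℕ,
          v (MvPolynomial.aeval (mv x ρ u) ((sh u b).coeff k)) =
          v (MvPolynomial.aeval (mv x' ρ' u) ((sh u b).coeff k))) :
    ∃ BB' : Finset (MvPolynomial (Fin n) F),
      (∀ b ∈ BB', b ≠ 0 ∧ Expr u E (2 * E ^ 2 * (E + 1)) BB b) ∧ StepProp u BB BB' := by
  have hcen' : ∀ b0 : MvPolynomial (Fin n) F, ∃ BB' : Finset (MvPolynomial (Fin n) F),
      (∀ b ∈ BB', b ≠ 0 ∧ Expr u E (2 * E ^ 2 * (E + 1)) BB b) ∧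
      (b0 ∈ BB → ∀ (L : Type u) [Field L] [IsAlgClosed L] [Algebra F L] (Γ : Type u)
        [LinearOrderedCommGroupWithZero Γ] (v : Valuation L Γ), (∃ a : L, v a ≠ 0 ∧ v a < 1) →
        ∀ x x' : Fin n → L, Gen F x →
        (∀ b ∈ BB', v (MvPolynomial.aeval x b) = v (MvPolynomial.aeval x' b)) →
        ∀ ρ : L, MvPolynomial.aeval (mv x ρ u) b0 = 0 →
        ∃ ρ' : L, ∀ b ∈ BB, ∀ k : ℕ,
          v (MvPolynomial.aeval (mv x ρ u) ((sh u b).coeff k)) =
          v (MvPolynomial.aeval (mv x' ρ' u) ((sh u b).coeff k))) := by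
    intro b0
    by_cases h : b0 ∈ BB
    · obtain ⟨B, h1, h2⟩ := hcen b0 h
      exact ⟨B, h1, fun _ => h2⟩
    · exact ⟨∅, by simp, fun h1 => absurd h1 h⟩
  choose Bf hBf1 hBf2 using hcen'
  have hM : 1 ≤ 2 * E ^ 2 * (E + 1) := by
    have h1 : 0 < E ^ 2 := pow_pos hE0 2
    have h2 : 0 < 2 * E ^ 2 * (E + 1) := by positivity
    exact h2
  refine ⟨BB ∪ BB.biUnion Bf, ?_, ?_⟩
  · intro b hb
    rcases Finset.mem_union.1 hb with hb | hb
    · exact ⟨h0 b hb, expr_self u E _ hM BB b hb⟩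
    · rw [Finset.mem_biUnion] at hb
      obtain ⟨b0, _, hb⟩ := hb
      exact hBf1 b0 b hb
  intro L _ _ _ Γ _ v hv hnt x x' hx hBB z hz
  -- the polynomials `b(x + T u)`
  set P : MvPolynomial (Fin n) F → L[X] := fun b =>
    (sh u b).map (MvPolynomial.aeval x : MvPolynomial (Fin n) F →ₐ[F] L).toRingHom with hP
  have hPe : ∀ (b : MvPolynomial (Fin n) F) (t : L),
      (P b).eval t = MvPolynomial.aeval (mv x t u) b := fun b t => sh_eval u x t b
  have hmv0 : ∀ y : Fin n → L, mv y 0 u = y := by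
    intro y
    funext i
    simp [mv]
  set R : Finset L := BB.biUnion fun b => (P b).roots.toFinset with hR
  by_cases hRn : R.Nonempty
  swap
  · -- no roots
    refine ⟨0, fun b hb => ?_⟩
    rw [hmv0]
    have hroots : (P b).roots = 0 := by
      by_contra h
      obtain ⟨a, ha⟩ := Multiset.exists_mem_of_ne_zero h
      exact hRn ⟨a, by
        rw [hR, Finset.mem_biUnion]
        exact ⟨b, hb, Multiset.mem_toFinset.2 ha⟩⟩
    have hdeg : (P b).natDegree = 0 := by
      rw [← IsAlgClosed.card_roots_eq_natDegree, hroots, Multiset.card_zero]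
    have hC := Polynomial.eq_C_of_natDegree_eq_zero hdeg
    have h1 : MvPolynomial.aeval (mv x z u) b = MvPolynomial.aeval x b := by
      rw [← hPe b z, hC, eval_C]
      have := hPe b 0
      rw [hmv0, hC, eval_C] at this
      exact this
    rw [h1]
    exact hBB b (Finset.mem_union_left _ hb)
  obtain ⟨ρ, hρR, hmin⟩ := Finset.exists_min_image R (fun a => v (z - a)) hRn
  rw [hR, Finset.mem_biUnion] at hρR
  obtain ⟨b1, hb1, hρ1⟩ := hρR
  rw [Multiset.mem_toFinset] at hρ1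
  have hzero1 : MvPolynomial.aeval (mv x ρ u) b1 = 0 := by
    rw [← hPe]
    exact (Polynomial.mem_roots'.1 hρ1).2
  obtain ⟨ρ', hρ'⟩ := hBf2 b1 hb1 L Γ v hnt x x' hx
    (fun b hb => hBB b (Finset.mem_union_right _ (Finset.mem_biUnion.2 ⟨b1, hb1, hb⟩))) ρ hzero1
  -- scaled Taylor polynomials
  set q : MvPolynomial (Fin n) F → L[X] := fun b =>
    ((sh u b).map (MvPolynomial.aeval (mv x ρ u) : MvPolynomial (Fin n) F →ₐ[F] L).toRingHom).comp
      (C (z - ρ) * X) with hq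
  set q' : MvPolynomial (Fin n) F → L[X] := fun b =>
    ((sh u b).map (MvPolynomial.aeval (mv x' ρ' u) : MvPolynomial (Fin n) F →ₐ[F] L).toRingHom).comp
      (C (z - ρ) * X) with hq'
  have hcoef : ∀ b ∈ BB, ∀ k, v ((q b).coeff k) = v ((q' b).coeff k) := by
    intro b hb k
    rw [hq, hq']
    simp only [Polynomial.comp_C_mul_X_coeff, Polynomial.coeff_map, map_mul]
    congr 1
    exact hρ' b hb k
  have hqe : ∀ (b : MvPolynomial (Fin n) F) (a : L),
      (q b).eval a = MvPolynomial.aeval (mv x (ρ + a * (z - ρ)) u) b := by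
    intro b a
    rw [hq]
    simp only [Polynomial.eval_comp, eval_mul, eval_C, eval_X]
    rw [sh_taylor, mul_comm]
  have hqe' : ∀ (b : MvPolynomial (Fin n) F) (a : L),
      (q' b).eval a = MvPolynomial.aeval (mv x' (ρ' + a * (z - ρ)) u) b := by
    intro b a
    rw [hq']
    simp only [Polynomial.eval_comp, eval_mul, eval_C, eval_X]
    rw [sh_taylor, mul_comm]
  -- the finite set of bad `ζ`
  have hfin : (⋃ b ∈ BB, ({ζ : F | ∃ k, ¬ v ((q b).coeff k) ≤ v ((q b).eval (algebraMap F L ζ))} ∪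
      {ζ : F | ∃ k, ¬ v ((q' b).coeff k) ≤ v ((q' b).eval (algebraMap F L ζ))} ∪
      {ζ : F | v ((P b).eval (ρ + algebraMap F L ζ * (z - ρ))) ≠ v ((P b).eval z)})).Finite := by
    apply Set.Finite.biUnion (Finset.finite_toSet BB)
    intro b hb
    refine ((hzc L Γ v hv (q b)).union (hzc L Γ v hv (q' b))).union ?_
    apply hzn L Γ v hv (P b)
    · intro h0
      apply hz b hb
      rw [← hPe, h0, eval_zero]
    · intro a ha
      apply hmin a
      rw [hR, Finset.mem_biUnion]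
      exact ⟨b, hb, Multiset.mem_toFinset.2 ha⟩
  obtain ⟨ζ, hζ⟩ := hfin.infinite_compl.nonempty
  have hζ1 : v (algebraMap F L ζ) ≤ 1 := by
    by_cases h : ζ = 0
    · rw [h, map_zero, map_zero]
      exact zero_le_one
    · exact (hv ζ h).le
  refine ⟨ρ' + algebraMap F L ζ * (z - ρ), fun b hb => ?_⟩
  have hζb : ¬ ((∃ k, ¬ v ((q b).coeff k) ≤ v ((q b).eval (algebraMap F L ζ))) ∨
      (∃ k, ¬ v ((q' b).coeff k) ≤ v ((q' b).eval (algebraMap F L ζ))) ∨
      v ((P b).eval (ρ + algebraMap F L ζ * (z - ρ))) ≠ v ((P b).eval z)) := by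
    intro h
    apply hζ
    rw [Set.mem_iUnion₂]
    refine ⟨b, hb, ?_⟩
    rcases h with h | h | h
    · exact Or.inl (Or.inl h)
    · exact Or.inl (Or.inr h)
    · exact Or.inr h
  push Not at hζb
  obtain ⟨g1, g2, g3⟩ := hζb
  rw [← hPe, ← g3, hPe, ← hqe, ← hqe']
  exact eval_eq v (q b) (q' b) (hcoef b hb) _ hζ1 g1 g2

end AK.S93
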