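import Pool.Agent.Lib.MP_64d474_lc.AK.CG2
import Pool.Agent.Lib.MP_64d474_lc.AK.StepGen93
import Pool.Agent.Lib.MP_64d474_lc.AK.G29

set_option autoImplicit false

/-!
# Row SG: the step for general classes
-/

namespace AK

open Polynomial

universe u

theorem step_gen {F : Type u} [Field F] [Infinite F] {n E : ℕ} (hE0 : 1 ≤ E) (u : Fin n → F)
    (BB : Finset (MvPolynomial (Fin n) F)) (h0 : ∀ b ∈ BB, b ≠ 0)
    (hE : ∀ b ∈ BB, (sh u b).natDegree ≤ E) :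
    ∃ BB' : Finset (MvPolynomial (Fin n) F),
      (∀ b ∈ BB', b ≠ 0 ∧ Expr u E (2 * E ^ 2 * (E + 1)) BB b) ∧ StepProp u BB BB' :=
  S93.step_gen_of hE0 u (fun _ _ _ _ _ v hF p => zeta_coeff v hF p)
    (fun _ _ _ _ _ _ v hF p hp z ρ h => zeta_near v hF p hp z ρ h)
    BB h0 (fun b0 hb0 => centre_gen u BB h0 hE b0 hb0)

end AK
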