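import Pool.Agent.Lib.MP_64d474_lc.AK.GenDefs

/-!
# The sparse class is closed
-/

set_option autoImplicit false

namespace AK

open Polynomial
open scoped Pointwise

section SH

variable {F : Type*} [Field F] {n : ℕ}

theorem sh_monomial48 (i : Fin n) (m : Fin n →₀ ℕ) (a : F) :
    sh (Pi.single i 1) (MvPolynomial.monomial m a) =
      C (MvPolynomial.monomial (m.erase i) a) *
        (C (MvPolynomial.X i) + X) ^ m i := by
  classical
  rw [sh, MvPolynomial.aeval_monomial, Finsupp.prod_fintype _ _ (by intro k; rw [pow_zero]),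
    ← Finset.mul_prod_erase Finset.univ _ (Finset.mem_univ i)]
  have h1 : ∏ x ∈ Finset.univ.erase i,
      (C (MvPolynomial.X x) + X * C (MvPolynomial.C ((Pi.single i 1 : Fin n → F) x)) :
        (MvPolynomial (Fin n) F)[X]) ^ m x =
      C (∏ x ∈ Finset.univ.erase i, (MvPolynomial.X x : MvPolynomial (Fin n) F) ^ m x) := by
    rw [map_prod]
    refine Finset.prod_congr rfl fun x hx => ?_
    rw [Finset.mem_erase] at hx
    rw [Pi.single_eq_of_ne hx.1, map_zero, map_zero, mul_zero, add_zero, map_pow]
  have h2 : (MvPolynomial.monomial (m.erase i) a : MvPolynomial (Fin n) F) =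
      MvPolynomial.C a * ∏ x ∈ Finset.univ.erase i, (MvPolynomial.X x) ^ m x := by
    rw [MvPolynomial.monomial_eq, Finsupp.prod_fintype _ _ (by intro k; rw [pow_zero]),
      ← Finset.mul_prod_erase Finset.univ _ (Finset.mem_univ i), Finsupp.erase_same, pow_zero,
      one_mul]
    congr 1
    refine Finset.prod_congr rfl fun x hx => ?_
    rw [Finset.mem_erase] at hx
    rw [Finsupp.erase_ne hx.1]
  rw [h1, h2, map_mul, Pi.single_eq_same, map_one, map_one, mul_one,
    Polynomial.algebraMap_apply, MvPolynomial.algebraMap_eq]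
  ring

theorem sh_monomial_coeff48 (i : Fin n) (m : Fin n →₀ ℕ) (a : F) (j : ℕ) :
    (sh (Pi.single i 1) (MvPolynomial.monomial m a)).coeff j =
      MvPolynomial.monomial (m - Finsupp.single i j) (a * ((m i).choose j : F)) := by
  classical
  rw [sh_monomial48, coeff_C_mul, add_comm, coeff_X_add_C_pow]
  by_cases hj : j ≤ m i
  · have h1 : (MvPolynomial.X i : MvPolynomial (Fin n) F) ^ (m i - j) *
        ((m i).choose j : MvPolynomial (Fin n) F) =
        MvPolynomial.monomial (Finsupp.single i (m i - j)) ((m i).choose j : F) := by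
      rw [← MvPolynomial.C_mul_X_pow_eq_monomial, map_natCast, mul_comm]
    rw [h1, MvPolynomial.monomial_mul]
    congr 2
    refine Finsupp.ext fun k => ?_
    rw [Finsupp.add_apply, Finsupp.tsub_apply]
    by_cases hk : k = i
    · subst hk
      rw [Finsupp.erase_same, Finsupp.single_eq_same, Finsupp.single_eq_same, zero_add]
    · rw [Finsupp.erase_ne hk, Finsupp.single_eq_of_ne hk, Finsupp.single_eq_of_ne hk]
      rfl
  · rw [Nat.choose_eq_zero_of_lt (not_le.1 hj)]
    simp

theorem sh_coeff48 (i : Fin n) (b : MvPolynomial (Fin n) F) (j : ℕ) :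
    (sh (Pi.single i 1) b).coeff j = ∑ m ∈ b.support,
      MvPolynomial.monomial (m - Finsupp.single i j) (b.coeff m * ((m i).choose j : F)) := by
  conv_lhs => rw [b.as_sum, map_sum, finsetSum_coeff]
  exact Finset.sum_congr rfl fun m _ => sh_monomial_coeff48 i m _ j

theorem sh_coeff_support48 (i : Fin n) (b : MvPolynomial (Fin n) F) (j : ℕ) :
    ((sh (Pi.single i 1) b).coeff j).support ⊆
      b.support.image fun m => m - Finsupp.single i j := by
  classical
  rw [sh_coeff48]
  refine MvPolynomial.support_sum.trans ?_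
  refine Finset.biUnion_subset.2 fun m hm => ?_
  refine MvPolynomial.support_monomial_subset.trans ?_
  rw [Finset.singleton_subset_iff]
  exact Finset.mem_image_of_mem _ hm

theorem sh_coeff_sparse48 (i : Fin n) {s d : ℕ} {b : MvPolynomial (Fin n) F} (hb : Sparse s d b)
    (j : ℕ) : Sparse s d ((sh (Pi.single i 1) b).coeff j) := by
  classical
  have h := sh_coeff_support48 i b j
  refine ⟨(Finset.card_le_card h).trans (Finset.card_image_le.trans hb.1), fun k => ?_⟩
  rw [MvPolynomial.degreeOf_eq_sup]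
  refine Finset.sup_le fun m hm => ?_
  obtain ⟨m', hm', rfl⟩ := Finset.mem_image.1 (h hm)
  refine le_trans ?_ ((MvPolynomial.monomial_le_degreeOf k hm').trans (hb.2 k))
  rw [Finsupp.tsub_apply]
  exact Nat.sub_le _ _

theorem sh_natDegree_degreeOf (i : Fin n) (b : MvPolynomial (Fin n) F) :
    (sh (Pi.single i 1) b).natDegree ≤ b.degreeOf i := by
  rw [natDegree_le_iff_coeff_eq_zero]
  intro j hj
  rw [sh_coeff48]
  refine Finset.sum_eq_zero fun m hm => ?_
  have h1 := MvPolynomial.monomial_le_degreeOf i hm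
  rw [Nat.choose_eq_zero_of_lt (lt_of_le_of_lt h1 hj), Nat.cast_zero, mul_zero, map_zero]

end SH

section EX

variable {F : Type*} [Field F] {n : ℕ}

theorem nsmul_le48 {S : Finset (Fin n →₀ ℕ)} {d : ℕ} (hS : ∀ m ∈ S, ∀ k, m k ≤ d) (a : ℕ) :
    ∀ m ∈ a • S, ∀ k, m k ≤ a * d := by
  classical
  induction a with
  | zero =>
    intro m hm k
    rw [zero_nsmul, Finset.mem_zero] at hm
    rw [hm, zero_mul]
    exact le_rfl
  | succ a ih =>
    intro m hm k
    rw [succ_nsmul, Finset.mem_add] at hm
    obtain ⟨y, hy, z, hz, rfl⟩ := hm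
    rw [Finsupp.add_apply, add_mul, one_mul]
    exact add_le_add (ih y hy k) (hS z hz k)

theorem nsmul_mono48 {S : Finset (Fin n →₀ ℕ)} (h0 : 0 ∈ S) {a b : ℕ} (hab : a ≤ b) :
    a • S ⊆ b • S := by
  classical
  obtain ⟨c, rfl⟩ := Nat.exists_eq_add_of_le hab
  induction c with
  | zero => exact fun _ h => h
  | succ c ih =>
    refine (ih (Nat.le_add_right _ _)).trans ?_
    intro m hm
    rw [← add_assoc, succ_nsmul, Finset.mem_add]
    exact ⟨m, hm, 0, h0, add_zero m⟩

/-- Supports of polynomial expressions. -/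
theorem aeval_support48 {κ : Type*} [Fintype κ] (f : κ → MvPolynomial (Fin n) F)
    (S : Finset (Fin n →₀ ℕ)) (h0 : 0 ∈ S) (hf : ∀ i, (f i).support ⊆ S) (M : ℕ)
    (p : MvPolynomial κ F) (hp : p.totalDegree ≤ M) :
    (MvPolynomial.aeval f p).support ⊆ M • S := by
  classical
  rw [MvPolynomial.aeval_def, MvPolynomial.eval₂_eq']
  refine MvPolynomial.support_sum.trans (Finset.biUnion_subset.2 fun m hm => ?_)
  have hone : (1 : MvPolynomial (Fin n) F).support ⊆ 0 • S := by
    rw [zero_nsmul]
    intro x hx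
    have h1 : (1 : MvPolynomial (Fin n) F) = MvPolynomial.monomial 0 1 := rfl
    rw [h1] at hx
    have h2 := MvPolynomial.support_monomial_subset hx
    rw [Finset.mem_singleton] at h2
    rw [h2]
    exact Finset.zero_mem_zero
  have hpow : ∀ (i : κ) (c : ℕ), (f i ^ c).support ⊆ c • S := by
    intro i c
    induction c with
    | zero => rw [pow_zero]; exact hone
    | succ c ih =>
      rw [pow_succ, succ_nsmul]
      exact (MvPolynomial.support_mul _ _).trans (Finset.add_subset_add ih (hf i))
  have hprod : ∀ t : Finset κ, (∏ i ∈ t, f i ^ m i).support ⊆ (∑ i ∈ t, m i) • S := by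
    intro t
    induction t using Finset.induction_on with
    | empty =>
      rw [Finset.prod_empty, Finset.sum_empty]
      exact hone
    | insert i t hi ih =>
      rw [Finset.prod_insert hi, Finset.sum_insert hi, add_nsmul]
      exact (MvPolynomial.support_mul _ _).trans (Finset.add_subset_add (hpow i _) ih)
  have hM : ∑ i, m i ≤ M := by
    refine le_trans ?_ hp
    have := MvPolynomial.le_totalDegree hm
    rwa [Finsupp.sum_fintype _ _ (fun _ => rfl)] at this
  have hC : ∀ (a : F) (q : MvPolynomial (Fin n) F), (algebraMap F (MvPolynomial (Fin n) F) a * q).support ⊆ q.support := by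
    intro a q
    rw [MvPolynomial.algebraMap_eq, ← MvPolynomial.smul_eq_C_mul]
    exact MvPolynomial.support_smul
  exact (hC _ _).trans ((hprod _).trans (nsmul_mono48 h0 hM))

theorem expr_sparse {s d M : ℕ} (i : Fin n)
    (BB : Finset (MvPolynomial (Fin n) F)) (h : ∀ b ∈ BB, Sparse s d b)
    (b : MvPolynomial (Fin n) F) (hb : Expr (Pi.single i 1) d M BB b) :
    Sparse (((d + 1) * (d + 1) * s + 1) ^ M) (M * d) b := by
  classical
  obtain ⟨g, p, hg, hp, rfl⟩ := hb
  set f : Fin (d + 1) × Fin (d + 1) → MvPolynomial (Fin n) F :=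
    fun ij => (sh (Pi.single i 1) (g ij.1)).coeff ij.2 with hf
  set S : Finset (Fin n →₀ ℕ) := insert 0 (Finset.univ.biUnion fun ij => (f ij).support) with hS
  have hfS : ∀ ij, (f ij).support ⊆ S := fun ij x hx =>
    Finset.mem_insert_of_mem (Finset.mem_biUnion.2 ⟨ij, Finset.mem_univ _, hx⟩)
  have hsp : ∀ ij, Sparse s d (f ij) := fun ij => sh_coeff_sparse48 i (h _ (hg _)) _
  have hcard : S.card ≤ (d + 1) * (d + 1) * s + 1 := by
    refine (Finset.card_insert_le _ _).trans (Nat.add_le_add_right ?_ 1)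
    refine Finset.card_biUnion_le.trans ?_
    refine (Finset.sum_le_sum fun ij _ => (hsp ij).1).trans ?_
    rw [Finset.sum_const, Finset.card_univ, Fintype.card_prod, Fintype.card_fin, smul_eq_mul]
  have hsub := aeval_support48 f S (Finset.mem_insert_self _ _) hfS M p hp
  refine ⟨(Finset.card_le_card hsub).trans (Finset.card_nsmul_le.trans
    (Nat.pow_le_pow_left hcard M)), fun k => ?_⟩
  rw [MvPolynomial.degreeOf_eq_sup]
  refine Finset.sup_le fun m hm => nsmul_le48 (d := d) ?_ M m (hsub hm) k
  intro x hx l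
  rcases Finset.mem_insert.1 hx with rfl | hx
  · exact Nat.zero_le _
  · obtain ⟨ij, _, hx⟩ := Finset.mem_biUnion.1 hx
    exact (MvPolynomial.monomial_le_degreeOf l hx).trans ((hsp ij).2 l)

end EX

end AK
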