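import Pool.Agent.Lib.MP_64d474_lc.AK.Defs

/-!
# Row X: exchange
-/

set_option autoImplicit false

namespace AK

open Polynomial

universe u

section X21

/-- Existence of an algebraically closed field of transcendence degree `2 n` with the coordinates. -/
theorem exists_field21 (F : Type u) [Field F] (n : ℕ) :
    ∃ (L : Type u) (_ : Field L) (_ : IsAlgClosed L) (_ : Algebra F L)
      (v : Fin n ⊕ Fin n → L), IsTranscendenceBasis F v := by
  let P := MvPolynomial (Fin n ⊕ Fin n) F
  let K := FractionRing P
  let L := AlgebraicClosure K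
  have h1 : Algebra.IsAlgebraic P L := by
    rw [IsFractionRing.comap_isAlgebraic_iff (K := K)]
    infer_instance
  have h2 : Function.Injective (algebraMap P L) := by
    rw [IsScalarTower.algebraMap_eq P K L]
    exact (algebraMap K L).injective.comp (IsFractionRing.injective P K)
  have h3 : FaithfulSMul P L := (faithfulSMul_iff_algebraMap_injective P L).mpr h2
  refine ⟨L, inferInstance, inferInstance, inferInstance,
    algebraMap P L ∘ MvPolynomial.X, ?_⟩
  exact IsTranscendenceBasis.algebraMap_comp (IsTranscendenceBasis.mvPolynomial _ F)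

variable {F : Type u} [Field F] {n : ℕ} {L : Type u} [Field L] [Algebra F L]

theorem gen_of_shift21 (x z : Fin n → L) (hv : AlgebraicIndependent F (Sum.elim x z))
    (c : Fin n → Prop) [DecidablePred c] :
    Gen F fun i => x i + if c i then z i else 0 := by
  intro a ha h
  apply ha
  let P := MvPolynomial (Fin n ⊕ Fin n) F
  let C : Fin n → P := fun i => MvPolynomial.X (Sum.inl i) +
    if c i then MvPolynomial.X (Sum.inr i) else 0
  have h1 : MvPolynomial.aeval (Sum.elim x z) (MvPolynomial.aeval C a) = 0 := by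
    rw [← h, ← AlgHom.comp_apply, MvPolynomial.comp_aeval]
    congr 2
    funext i
    simp only [C, map_add, MvPolynomial.aeval_X, Sum.elim_inl]
    congr 1
    split_ifs <;> simp
  have h2 : MvPolynomial.aeval C a = 0 := hv.eq_zero_of_aeval_eq_zero _ h1
  have h3 : MvPolynomial.aeval (Sum.elim (fun i => (MvPolynomial.X i : MvPolynomial (Fin n) F))
      (fun _ => 0)) (MvPolynomial.aeval C a) = a := by
    rw [← AlgHom.comp_apply, MvPolynomial.comp_aeval]
    have : (fun i => (MvPolynomial.aeval (Sum.elim
        (fun i => (MvPolynomial.X i : MvPolynomial (Fin n) F)) (fun _ => 0))) (C i)) =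
        MvPolynomial.X := by
      funext i
      simp only [C, map_add, MvPolynomial.aeval_X, Sum.elim_inl]
      split_ifs <;> simp
    rw [this, MvPolynomial.aeval_X_left_apply]
  rw [← h3, h2, map_zero]

theorem indep_shift21 (x z : Fin n → L) (hv : AlgebraicIndependent F (Sum.elim x z)) :
    AlgebraicIndependent F (Sum.elim x fun i => x i + z i) := by
  let S : MvPolynomial (Fin n ⊕ Fin n) F →ₐ[F] MvPolynomial (Fin n ⊕ Fin n) F :=
    MvPolynomial.aeval (Sum.elim (fun i => MvPolynomial.X (Sum.inl i))
      fun i => MvPolynomial.X (Sum.inl i) + MvPolynomial.X (Sum.inr i))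
  let R : MvPolynomial (Fin n ⊕ Fin n) F →ₐ[F] MvPolynomial (Fin n ⊕ Fin n) F :=
    MvPolynomial.aeval (Sum.elim (fun i => MvPolynomial.X (Sum.inl i))
      fun i => MvPolynomial.X (Sum.inr i) - MvPolynomial.X (Sum.inl i))
  have h1 : R.comp S = AlgHom.id F (MvPolynomial (Fin n ⊕ Fin n) F) := by
    apply MvPolynomial.algHom_ext
    rintro (i | i)
    · simp [S, R]
    · simp [S, R]
  have h2 : Function.Injective S := by
    apply Function.LeftInverse.injective (g := R)
    intro a
    exact congrArg (fun f : MvPolynomial (Fin n ⊕ Fin n) F →ₐ[F] MvPolynomial (Fin n ⊕ Fin n) F => f a) h1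
  have h3 : Function.Injective (MvPolynomial.aeval (R := F) (Sum.elim x z)) := hv
  have h4 : AlgebraicIndependent F
      (((MvPolynomial.aeval (R := F) (Sum.elim x z)).comp S) ∘ MvPolynomial.X) :=
    (MvPolynomial.algebraicIndependent_X _ F).map' (h3.comp h2)
  convert h4 using 1
  funext i
  rcases i with i | i
  · simp [S]
  · simp [S]

theorem indep_tower21 {r : ℕ} (T : Fin r → MvPolynomial (Fin n) F)
    (hT : AlgebraicIndependent F T) (x w : Fin n → L)
    (hv : AlgebraicIndependent F (Sum.elim x w)) :
    AlgebraicIndependent F (Sum.elim x fun j => MvPolynomial.aeval w (T j)) := by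
  obtain ⟨hw, hx⟩ := AlgebraicIndependent.sumElim_iff.mp hv
  have h1 : AlgebraicIndependent F (MvPolynomial.aeval w ∘ T) := hT.map' hw
  refine AlgebraicIndependent.sumElim_of_tower (S := Algebra.adjoin F (Set.range w)) h1 ?_ hx
  rintro _ ⟨j, rfl⟩
  refine ⟨⟨MvPolynomial.aeval w (T j), ?_⟩, rfl⟩
  rw [Algebra.adjoin_range_eq_range_aeval]
  exact ⟨T j, rfl⟩

theorem exchange21 [IsAlgClosed L] {r : ℕ} (x z : Fin n → L) (t : Fin r → L)
    (hv : IsTranscendenceBasis F (Sum.elim x z))
    (ht : AlgebraicIndependent F (Sum.elim x t)) :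
    ∃ I : Finset (Fin n), I.card = r ∧
      AlgebraicIndependent (IntermediateField.adjoin F
        (Set.range x ∪ {y | ∃ i, i ∉ I ∧ y = z i})) t := by
  classical
  have hs0 : AlgebraicIndependent F ((↑) : Set.range (Sum.elim x t) → L) := ht.coe_range
  let s : Set L := Set.range (Sum.elim x t)
  let T : Set L := s ∪ Set.range (Sum.elim x z)
  have halg : Algebra.IsAlgebraic (Algebra.adjoin F T) L := by
    have h1 : Algebra.IsAlgebraic (Algebra.adjoin F (Set.range (Sum.elim x z))) L :=
      hv.isAlgebraic
    have h2 : Algebra.adjoin F (Set.range (Sum.elim x z)) ≤ Algebra.adjoin F T :=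
      Algebra.adjoin_mono Set.subset_union_right
    let _ : Algebra (Algebra.adjoin F (Set.range (Sum.elim x z))) (Algebra.adjoin F T) :=
      (Subalgebra.inclusion h2).toAlgebra
    have : IsScalarTower (Algebra.adjoin F (Set.range (Sum.elim x z))) (Algebra.adjoin F T) L :=
      .of_algebraMap_eq fun _ => rfl
    exact Algebra.IsAlgebraic.extendScalars (R := Algebra.adjoin F (Set.range (Sum.elim x z)))
      (Subalgebra.inclusion_injective h2)
  obtain ⟨U, hsU, hUT, hU⟩ := exists_isTranscendenceBasis_between (R := F) s T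
    Set.subset_union_left hs0
  have hcard := hU.cardinalMk_eq_trdeg
  have hcard2 := hv.lift_cardinalMk_eq_trdeg
  rw [← hcard] at hcard2
  have hUfin : Finite U := by
    rw [← Cardinal.mk_lt_aleph0_iff, ← Cardinal.lift_lt_aleph0]
    rw [← hcard2]
    exact Cardinal.lift_lt_aleph0.mpr (Cardinal.mk_lt_aleph0_iff.mpr inferInstance)
  have hcardU : Nat.card U = n + n := by
    have h := congrArg Cardinal.toNat hcard2
    rw [Cardinal.toNat_lift, Cardinal.toNat_lift] at h
    have h5 : Nat.card U = Nat.card (Fin n ⊕ Fin n) := h.symm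
    rw [h5]
    simp
  have hx : ∀ i, x i ∈ s := fun i => ⟨Sum.inl i, rfl⟩
  let J : Finset (Fin n) := Finset.univ.filter fun i => z i ∈ U ∧ z i ∉ s
  have hzinj : Function.Injective z := by
    have := hv.1.injective
    exact fun a b h => Sum.inr_injective (this (by simpa using h))
  let f : (Fin n ⊕ Fin r) ⊕ J → U := fun i => match i with
    | Sum.inl i => ⟨Sum.elim x t i, hsU ⟨i, rfl⟩⟩
    | Sum.inr i => ⟨z i, (Finset.mem_filter.mp i.2).2.1⟩
  have hf : Function.Bijective f := by
    constructor
    · rintro (a | a) (b | b) h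
      · have h' := congrArg Subtype.val h
        rw [ht.injective h']
      · exfalso
        have h' : Sum.elim x t a = z b := congrArg Subtype.val h
        exact (Finset.mem_filter.mp b.2).2.2 ⟨a, h'⟩
      · exfalso
        have h' : z a = Sum.elim x t b := congrArg Subtype.val h
        exact (Finset.mem_filter.mp a.2).2.2 ⟨b, h'.symm⟩
      · have h' : z a = z b := congrArg Subtype.val h
        rw [Subtype.ext (hzinj h')]
    · rintro ⟨y, hy⟩
      by_cases hys : y ∈ s
      · obtain ⟨i, hi⟩ := hys
        exact ⟨Sum.inl i, Subtype.ext hi⟩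
      · rcases hUT hy with h | ⟨i, hi⟩
        · exact absurd h hys
        · rcases i with i | i
          · exact absurd (hi ▸ hx i : y ∈ s) hys
          · have hi' : z i = y := hi
            refine ⟨Sum.inr ⟨i, Finset.mem_filter.mpr ⟨Finset.mem_univ _, ?_⟩⟩,
              Subtype.ext hi'⟩
            rw [hi']
            exact ⟨hy, hys⟩
  have hcount : n + r + J.card = n + n := by
    rw [← hcardU, ← Nat.card_congr (Equiv.ofBijective f hf)]
    simp
  refine ⟨Jᶜ, ?_, ?_⟩
  · rw [Finset.card_compl, Fintype.card_fin]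
    omega
  · let g : Fin r ⊕ (Fin n ⊕ J) → (Fin n ⊕ Fin r) ⊕ J := fun i => match i with
      | Sum.inl i => Sum.inl (Sum.inr i)
      | Sum.inr (Sum.inl i) => Sum.inl (Sum.inl i)
      | Sum.inr (Sum.inr i) => Sum.inr i
    have hg : Function.Injective g := by
      rintro (a | a | a) (b | b | b) h <;> simp_all [g]
    have h1 : AlgebraicIndependent F (((↑) : U → L) ∘ (f ∘ g)) :=
      hU.1.comp _ (hf.1.comp hg)
    have h2 : (((↑) : U → L) ∘ (f ∘ g)) = Sum.elim t (Sum.elim x fun i : J => z i) := by
      funext i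
      rcases i with i | i | i <;> rfl
    rw [h2] at h1
    have h3 := (AlgebraicIndependent.sumElim_iff.mp h1).2
    have h4 : Set.range (Sum.elim x fun i : J => z i) =
        Set.range x ∪ {y | ∃ i, i ∉ Jᶜ ∧ y = z i} := by
      ext y
      constructor
      · rintro ⟨i | i, rfl⟩
        · exact Or.inl ⟨i, rfl⟩
        · exact Or.inr ⟨i, by simp, rfl⟩
      · rintro (⟨i, rfl⟩ | ⟨i, hi, rfl⟩)
        · exact ⟨Sum.inl i, rfl⟩
        · exact ⟨Sum.inr ⟨i, by simpa using hi⟩, rfl⟩
    rw [h4] at h3
    exact IntermediateField.algebraicIndependent_adjoin_iff.mpr h3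

end X21

theorem exists_split {F : Type u} [Field F] {n r : ℕ} (T : Fin r → MvPolynomial (Fin n) F)
    (hT : AlgebraicIndependent F T) :
    ∃ (I : Finset (Fin n)) (L : Type u) (_ : Field L) (_ : IsAlgClosed L) (_ : Algebra F L)
      (k : IntermediateField F L) (o z : Fin n → L), I.card = r ∧ (∀ i, o i ∈ k) ∧
      (∀ J ⊆ I, Gen F fun i => o i + if i ∈ J then z i else 0) ∧
      AlgebraicIndependent k fun j => MvPolynomial.aeval (fun i => o i + if i ∈ I then z i else 0) (T j) := by
  classical
  obtain ⟨L, iF, iC, iA, v, hv⟩ := exists_field21 F n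
  let x : Fin n → L := fun i => v (Sum.inl i)
  let z : Fin n → L := fun i => v (Sum.inr i)
  have hvxz : v = Sum.elim x z := by
    funext i
    rcases i with i | i <;> rfl
  rw [hvxz] at hv
  have h1 := indep_shift21 x z hv.1
  have h2 := indep_tower21 T hT x (fun i => x i + z i) h1
  obtain ⟨I, hI, hk⟩ := exchange21 x z _ hv h2
  refine ⟨I, L, iF, iC, iA, IntermediateField.adjoin F
        (Set.range x ∪ {y | ∃ i, i ∉ I ∧ y = z i}),
    fun i => x i + if i ∈ I then 0 else z i, z, hI, ?_, ?_, ?_⟩
  · intro i
    have hx : x i ∈ IntermediateField.adjoin F (Set.range x ∪ {y | ∃ i, i ∉ I ∧ y = z i}) :=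
      IntermediateField.subset_adjoin _ _ (Or.inl ⟨i, rfl⟩)
    by_cases hi : i ∈ I
    · simpa [hi] using hx
    · have hz : z i ∈ IntermediateField.adjoin F (Set.range x ∪ {y | ∃ i, i ∉ I ∧ y = z i}) :=
        IntermediateField.subset_adjoin _ _ (Or.inr ⟨i, hi, rfl⟩)
      simpa [hi] using add_mem hx hz
  · intro J hJ
    have h := gen_of_shift21 x z hv.1 (fun i => i ∉ I ∨ i ∈ J)
    convert h using 1
    funext i
    by_cases hi : i ∈ I
    · by_cases hj : i ∈ J <;> simp [hi, hj]
    · have hj : i ∉ J := fun h => hi (hJ h)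
      simp [hi, hj]
  · convert hk using 1
    funext j
    congr 1
    congr 1
    funext i
    by_cases hi : i ∈ I <;> simp [hi]

end AK
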