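import Pool.Agent.Lib.MP_64d474_lc.AK.Transfer97
import Pool.Agent.Lib.MP_64d474_lc.AK.RowH82
import Pool.Agent.Lib.MP_64d474_lc.AK.E48
import Pool.Agent.Lib.MP_64d474_lc.AK.R2
import Pool.Agent.Lib.MP_64d474_lc.AK.G29

set_option autoImplicit false

namespace AK

open Polynomial

universe u

open Classical in
theorem centre {F : Type u} [Field F] {n D : ℕ} (hD : 1 ≤ D) (u : Fin n → F)
    (b0 : MvPolynomial (Fin n) F) (hb0 : Irreducible b0) (hd0 : b0.totalDegree ≤ D)
    (hpos : 0 < (sh u b0).natDegree) (CC : Finset (MvPolynomial (Fin n) F))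
    (hCC : ∀ c ∈ CC, c.totalDegree ≤ D) :
    ∃ BB' : Finset (MvPolynomial (Fin n) F), (∀ b ∈ BB', b ≠ 0 ∧ b.totalDegree ≤ 4 * D ^ 4) ∧
      ∀ (L : Type u) [Field L] [IsAlgClosed L] [Algebra F L] (Γ : Type u)
        [LinearOrderedCommGroupWithZero Γ] (v : Valuation L Γ), ∀ x x' : Fin n → L, Gen F x →
        (∀ b ∈ BB', v (MvPolynomial.aeval x b) = v (MvPolynomial.aeval x' b)) →
        ∀ ρ : L, MvPolynomial.aeval (mv x ρ u) b0 = 0 →
        ∃ ρ' : L, ∀ c ∈ CC,
          v (MvPolynomial.aeval (mv x ρ u) c) = v (MvPolynomial.aeval (mv x' ρ' u) c) := by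
  set B := sh u b0 with hB
  set e := B.natDegree with he
  have hB0 : B ≠ 0 := by
    intro h
    rw [he, h, natDegree_zero] at hpos
    exact lt_irrefl _ hpos
  have heD : e ≤ D := (sh_natDegree_le u b0).trans hd0
  let CC1 : Finset (MvPolynomial (Fin n) F) := CC.filter (fun c => ¬ b0 ∣ c)
  let P : CC1 → (MvPolynomial (Fin n) F)[X] := fun c => sh u c.1
  let QQ : (Fin e → CC1) → (Fin e → ℕ) → MvPolynomial (Fin n) F :=
    fun i c => ∏ m, (i m).1 ^ c m
  have hQQ : ∀ i c, ∏ m, P (i m) ^ c m = sh u (QQ i c) := by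
    intro i c
    simp only [QQ, P, map_prod, map_pow]
  have hQdeg : ∀ (i : Fin e → CC1) (c : Fin e → ℕ), (∀ m, c m ≤ e + 1) →
      (QQ i c).totalDegree ≤ D * (D + 1) * D := by
    intro i c hc
    calc (QQ i c).totalDegree ≤ ∑ m, ((i m).1 ^ c m).totalDegree :=
          MvPolynomial.totalDegree_finsetProd _ _
      _ ≤ ∑ m : Fin e, (D + 1) * D := by
          refine Finset.sum_le_sum (fun m _ => ?_)
          refine (MvPolynomial.totalDegree_pow _ _).trans ?_
          exact Nat.mul_le_mul ((hc m).trans (by omega))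
            (hCC _ (Finset.mem_filter.1 (i m).2).1)
      _ = e * ((D + 1) * D) := by
          rw [Finset.sum_const, Finset.card_univ, Fintype.card_fin, smul_eq_mul]
      _ ≤ D * (D + 1) * D := by
          rw [mul_assoc]
          exact Nat.mul_le_mul_right _ heD
  have h4 : 2 * D * (D * (D + 1) * D) ≤ 4 * D ^ 4 := by
    have h5 : D + 1 ≤ 2 * D := by omega
    calc 2 * D * (D * (D + 1) * D) ≤ 2 * D * (D * (2 * D) * D) :=
          Nat.mul_le_mul_left _ (Nat.mul_le_mul_right _ (Nat.mul_le_mul_left _ h5))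
      _ = 4 * D ^ 4 := by ring
  let BB1 : Finset (MvPolynomial (Fin n) F) :=
    (Finset.univ : Finset ((Fin e → CC1) × (Fin e → Fin (e + 2)))).biUnion fun p =>
      (chi B (sh u (QQ p.1 (fun m => (p.2 m).1))) e (e * (e + 1) * D)).coeffs
  refine ⟨insert B.leadingCoeff BB1, ?_, ?_⟩
  · intro b hb
    rw [Finset.mem_insert] at hb
    rcases hb with rfl | hb
    · refine ⟨leadingCoeff_ne_zero.2 hB0, ?_⟩
      have h5 : (B.coeff e).totalDegree ≤ D := by
        refine (sh_coeff_totalDegree u b0 e).trans ?_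
        omega
      have h6 : D ≤ 4 * D ^ 4 := by
        calc D = D ^ 1 := (pow_one D).symm
          _ ≤ D ^ 4 := Nat.pow_le_pow_right hD (by norm_num)
          _ ≤ 4 * D ^ 4 := by omega
      exact h5.trans h6
    · rw [Finset.mem_biUnion] at hb
      obtain ⟨p, _, hb⟩ := hb
      rw [mem_coeffs_iff] at hb
      obtain ⟨j, hj, rfl⟩ := hb
      refine ⟨mem_support_iff.1 hj, ?_⟩
      refine (chi_totalDegree u b0 _ D (D * (D + 1) * D) e (e * (e + 1) * D) hd0
        (hQdeg p.1 _ (fun m => by have := (p.2 m).2; omega)) heD ?_ j).trans h4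
      exact Nat.mul_le_mul_right _ (Nat.mul_le_mul heD (by omega))
  · intro L _ _ _ Γ _ v x x' hx hv ρ hρ
    set φ : MvPolynomial (Fin n) F →+* L :=
      (MvPolynomial.aeval x : MvPolynomial (Fin n) F →ₐ[F] L).toRingHom with hφd
    set ψ : MvPolynomial (Fin n) F →+* L :=
      (MvPolynomial.aeval x' : MvPolynomial (Fin n) F →ₐ[F] L).toRingHom with hψd
    have hφa : ∀ a, φ a = MvPolynomial.aeval x a := fun a => rfl
    have hψa : ∀ a, ψ a = MvPolynomial.aeval x' a := fun a => rfl
    have hlc0 : B.leadingCoeff ≠ 0 := leadingCoeff_ne_zero.2 hB0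
    have hφlc : φ B.leadingCoeff ≠ 0 := hx _ hlc0
    have hvlc : v (φ B.leadingCoeff) = v (ψ B.leadingCoeff) :=
      hv _ (Finset.mem_insert_self _ _)
    have hψlc : ψ B.leadingCoeff ≠ 0 := by
      intro h
      rw [h, map_zero] at hvlc
      exact hφlc (v.zero_iff.1 hvlc)
    have hmapφ : B.map φ ≠ 0 := by
      intro h
      have h5 := congrArg (fun p => p.coeff e) h
      simp only [coeff_map, coeff_zero] at h5
      exact hφlc h5
    have hmapψ : B.map ψ ≠ 0 := by
      intro h
      have h5 := congrArg (fun p => p.coeff e) h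
      simp only [coeff_map, coeff_zero] at h5
      exact hψlc h5
    obtain ⟨ρ', hρ', hall⟩ := transfer v φ ψ B hφlc hψlc hvlc P D
      (fun i => (sh_natDegree_le u i.1).trans (hCC _ (Finset.mem_filter.1 i.2).1))
      (by
        intro i c hc j
        have h5 := hQQ i c
        rw [h5]
        by_cases h0 : (chi B (sh u (QQ i c)) e (e * (e + 1) * D)).coeff j = 0
        · rw [h0, map_zero φ, map_zero ψ]
        · refine hv _ (Finset.mem_insert_of_mem ?_)
          rw [Finset.mem_biUnion]
          refine ⟨(i, fun m => ⟨c m, by have := hc m; omega⟩), Finset.mem_univ _, ?_⟩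
          rw [mem_coeffs_iff]
          exact ⟨j, mem_support_iff.2 h0, rfl⟩)
      (a := ρ) (by
        rw [mem_roots hmapφ, IsRoot.def, sh_eval]
        exact hρ)
      (by
        intro i
        rw [sh_eval]
        exact generic_root u hb0 (Finset.mem_filter.1 i.2).2 x hx hpos ρ hρ)
    refine ⟨ρ', fun c hc => ?_⟩
    by_cases hdiv : b0 ∣ c
    · have h5 : MvPolynomial.aeval (mv x' ρ' u) b0 = 0 := by
        rw [← sh_eval]
        exact (mem_roots hmapψ).1 hρ'
      obtain ⟨g, rfl⟩ := hdiv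
      rw [map_mul (MvPolynomial.aeval (mv x ρ u)), map_mul (MvPolynomial.aeval (mv x' ρ' u)), hρ,
        h5, zero_mul, zero_mul]
    · have h6 := hall ⟨c, Finset.mem_filter.2 ⟨hc, hdiv⟩⟩
      rw [sh_eval, sh_eval] at h6
      exact h6

/-- Comparison of two polynomials with equal coefficient values at a good point `ζ`. -/
theorem eval_le88 {F L Γ : Type*} [Field F] [Field L] [Algebra F L]
    [LinearOrderedCommGroupWithZero Γ] (v : Valuation L Γ)
    (hv : ∀ c : F, c ≠ 0 → v (algebraMap F L c) = 1) (p q : L[X])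
    (hpq : ∀ k, v (p.coeff k) = v (q.coeff k)) (ζ : F)
    (hq : ∀ k, v (q.coeff k) ≤ v (q.eval (algebraMap F L ζ))) :
    v (p.eval (algebraMap F L ζ)) ≤ v (q.eval (algebraMap F L ζ)) := by
  have hζ : v (algebraMap F L ζ) ≤ 1 := by
    by_cases h0 : ζ = 0
    · rw [h0, map_zero, map_zero]; exact zero_le_one
    · exact (hv ζ h0).le
  rw [eval_eq_sum_range (p := p)]
  refine v.map_sum_le (fun k _ => ?_)
  rw [map_mul, map_pow]
  calc v (p.coeff k) * v (algebraMap F L ζ) ^ k ≤ v (p.coeff k) * 1 := by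
        exact mul_le_mul_right (pow_le_one' hζ k) _
    _ = v (q.coeff k) := by rw [mul_one, hpq k]
    _ ≤ _ := hq k

/-- `sh u b` constant: the value does not depend on `t`. -/
theorem sh_const88 {F L : Type*} [Field F] {σ : Type*} [Field L] [Algebra F L] (u : σ → F)
    (b : MvPolynomial σ F) (h : (sh u b).natDegree = 0) (x : σ → L) (t : L) :
    MvPolynomial.aeval (mv x t u) b = MvPolynomial.aeval x b := by
  have h0 : mv x (0 : L) u = x := by
    funext i; simp [mv]
  have h1 := sh_eval u x t b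
  have h2 := sh_eval u x (0 : L) b
  rw [eq_C_of_natDegree_eq_zero h, map_C, eval_C] at h1 h2
  rw [← h1, h2, h0]

open Classical in
theorem step {F : Type u} [Field F] [Infinite F] {n D : ℕ} (hD : 1 ≤ D) (u : Fin n → F)
    (BB : Finset (MvPolynomial (Fin n) F)) (hd : ∀ b ∈ BB, b ≠ 0 ∧ b.totalDegree ≤ D) :
    ∃ BB' : Finset (MvPolynomial (Fin n) F), (∀ b ∈ BB', b ≠ 0 ∧ b.totalDegree ≤ 4 * D ^ 4) ∧
      ∀ (L : Type u) [Field L] [IsAlgClosed L] [Algebra F L] (Γ : Type u)
        [LinearOrderedCommGroupWithZero Γ] (v : Valuation L Γ),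
        (∀ c : F, c ≠ 0 → v (algebraMap F L c) = 1) → ∀ x x' : Fin n → L, Gen F x →
        (∀ b ∈ BB', v (MvPolynomial.aeval x b) = v (MvPolynomial.aeval x' b)) →
        ∀ z : L, (∀ b ∈ BB, MvPolynomial.aeval (mv x z u) b ≠ 0) →
        ∃ z' : L, ∀ b ∈ BB,
          v (MvPolynomial.aeval (mv x z u) b) = v (MvPolynomial.aeval (mv x' z' u) b) := by
  set CC : Finset (MvPolynomial (Fin n) F) := BB.biUnion fun b => (sh u b).coeffs with hCCd
  have hCC : ∀ c ∈ CC, c.totalDegree ≤ D := by
    intro c hc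
    rw [hCCd, Finset.mem_biUnion] at hc
    obtain ⟨b, hb, hc⟩ := hc
    rw [mem_coeffs_iff] at hc
    obtain ⟨k, _, rfl⟩ := hc
    exact (sh_coeff_totalDegree u b k).trans ((Nat.sub_le _ _).trans (hd b hb).2)
  have hcen := fun (b0 : MvPolynomial (Fin n) F) (h : Irreducible b0 ∧ b0.totalDegree ≤ D ∧
    0 < (sh u b0).natDegree) => centre hD u b0 h.1 h.2.1 h.2.2 CC hCC
  let G : MvPolynomial (Fin n) F → Finset (MvPolynomial (Fin n) F) := fun b0 =>
    if h : Irreducible b0 ∧ b0.totalDegree ≤ D ∧ 0 < (sh u b0).natDegree then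
      (hcen b0 h).choose else ∅
  have hG : ∀ (b0 : MvPolynomial (Fin n) F) (h : Irreducible b0 ∧ b0.totalDegree ≤ D ∧
    0 < (sh u b0).natDegree), G b0 = (hcen b0 h).choose := fun b0 h => dif_pos h
  let FF : Finset (MvPolynomial (Fin n) F) :=
    BB.biUnion fun b => (UniqueFactorizationMonoid.factors b).toFinset
  have hD4 : D ≤ 4 * D ^ 4 := by
    calc D = D ^ 1 := (pow_one D).symm
      _ ≤ D ^ 4 := Nat.pow_le_pow_right hD (by norm_num)
      _ ≤ 4 * D ^ 4 := by omega
  refine ⟨BB ∪ FF.biUnion G, ?_, ?_⟩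
  · intro b hb
    rw [Finset.mem_union] at hb
    rcases hb with hb | hb
    · exact ⟨(hd b hb).1, (hd b hb).2.trans hD4⟩
    · rw [Finset.mem_biUnion] at hb
      obtain ⟨b0, _, hb⟩ := hb
      by_cases h : Irreducible b0 ∧ b0.totalDegree ≤ D ∧ 0 < (sh u b0).natDegree
      · rw [hG b0 h] at hb
        exact (hcen b0 h).choose_spec.1 b hb
      · have : G b0 = ∅ := dif_neg h
        rw [this] at hb
        exact absurd hb (Finset.notMem_empty _)
  · intro L _ _ _ Γ _ v hv x x' hx hval z hz
    have hvalBB : ∀ b ∈ BB, v (MvPolynomial.aeval x b) = v (MvPolynomial.aeval x' b) :=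
      fun b hb => hval b (Finset.mem_union_left _ hb)
    set φ : MvPolynomial (Fin n) F →+* L :=
      (MvPolynomial.aeval x : MvPolynomial (Fin n) F →ₐ[F] L).toRingHom with hφd
    have hp0 : ∀ b : MvPolynomial (Fin n) F, b ≠ 0 → (sh u b).map φ ≠ 0 := by
      intro b hb0 h
      have h1 : MvPolynomial.aeval (mv x (0 : L) u) b = 0 := by
        rw [← sh_eval]
        change eval 0 ((sh u b).map φ) = 0
        rw [h, eval_zero]
      have h0 : mv x (0 : L) u = x := by
        funext i; simp [mv]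
      rw [h0] at h1
      exact hx b hb0 h1
    let R : Finset L := BB.biUnion fun b => ((sh u b).map φ).roots.toFinset
    by_cases hR : R.Nonempty
    · obtain ⟨ρ, hρR, hmin⟩ := R.exists_min_image (fun a => v (z - a)) hR
      obtain ⟨b1, hb1, hρ1⟩ := Finset.mem_biUnion.1 hρR
      have hρ2 : MvPolynomial.aeval (mv x ρ u) b1 = 0 := by
        rw [← sh_eval]
        exact (mem_roots (hp0 b1 (hd b1 hb1).1)).1 (Multiset.mem_toFinset.1 hρ1)
      -- an irreducible factor
      have hfac : ∃ b0 ∈ UniqueFactorizationMonoid.factors b1,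
          MvPolynomial.aeval (mv x ρ u) b0 = 0 := by
        have h1 := UniqueFactorizationMonoid.factors_prod (hd b1 hb1).1
        obtain ⟨w, hw⟩ := h1
        have h2 : MvPolynomial.aeval (mv x ρ u) (UniqueFactorizationMonoid.factors b1).prod *
            MvPolynomial.aeval (mv x ρ u) (w : MvPolynomial (Fin n) F) = 0 := by
          rw [← map_mul, hw, hρ2]
        have h3 : MvPolynomial.aeval (mv x ρ u) (w : MvPolynomial (Fin n) F) ≠ 0 := by
          have := (w.isUnit.map (MvPolynomial.aeval (mv x ρ u) :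
            MvPolynomial (Fin n) F →ₐ[F] L))
          exact this.ne_zero
        have h4 := (mul_eq_zero.1 h2).resolve_right h3
        rw [map_multiset_prod, Multiset.prod_eq_zero_iff, Multiset.mem_map] at h4
        exact h4
      obtain ⟨b0, hb0, hρ0⟩ := hfac
      have hirr : Irreducible b0 := UniqueFactorizationMonoid.irreducible_of_factor b0 hb0
      have hdvd : b0 ∣ b1 := UniqueFactorizationMonoid.dvd_of_mem_factors hb0
      have hdeg0 : b0.totalDegree ≤ D := by
        refine le_trans ?_ (hd b1 hb1).2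
        obtain ⟨g, hg⟩ := hdvd
        have hb10 := (hd b1 hb1).1
        rw [hg] at hb10 ⊢
        rw [MvPolynomial.totalDegree_mul_of_isDomain (left_ne_zero_of_mul hb10)
          (right_ne_zero_of_mul hb10)]
        exact Nat.le_add_right _ _
      have hpos : 0 < (sh u b0).natDegree := by
        by_contra hcon
        have h0 : (sh u b0).natDegree = 0 := by omega
        rw [sh_const88 u b0 h0 x ρ] at hρ0
        exact hx b0 hirr.ne_zero hρ0
      have hb0F : b0 ∈ FF :=
        Finset.mem_biUnion.2 ⟨b1, hb1, Multiset.mem_toFinset.2 hb0⟩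
      have hGb := hG b0 ⟨hirr, hdeg0, hpos⟩
      obtain ⟨ρ', hρ'⟩ := (hcen b0 ⟨hirr, hdeg0, hpos⟩).choose_spec.2 L Γ v x x' hx
        (fun b hb => hval b (Finset.mem_union_right _ (Finset.mem_biUnion.2
          ⟨b0, hb0F, by rw [hGb]; exact hb⟩))) ρ hρ0
      set δ := z - ρ with hδ
      -- the Taylor polynomials
      let q : (Fin n → L) → L → MvPolynomial (Fin n) F → L[X] := fun y r b =>
        ((sh u b).map (MvPolynomial.aeval (mv y r u) :
          MvPolynomial (Fin n) F →ₐ[F] L).toRingHom).comp (C δ * X)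
      have hq : ∀ y r b (ζ : F), (q y r b).eval (algebraMap F L ζ) =
          MvPolynomial.aeval (mv y (r + algebraMap F L ζ * δ) u) b := by
        intro y r b ζ
        simp only [q, eval_comp, eval_mul, eval_C, eval_X]
        rw [sh_taylor, mul_comm δ]
      have hqc : ∀ y r b k, (q y r b).coeff k =
          MvPolynomial.aeval (mv y r u) ((sh u b).coeff k) * δ ^ k := by
        intro y r b k
        simp only [q, comp_C_mul_X_coeff, coeff_map]
        rfl
      have hqv : ∀ b ∈ BB, ∀ k, v ((q x ρ b).coeff k) = v ((q x' ρ' b).coeff k) := by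
        intro b hb k
        rw [hqc, hqc, map_mul, map_mul]
        by_cases h0 : (sh u b).coeff k = 0
        · rw [h0, map_zero (MvPolynomial.aeval (mv x ρ u)),
            map_zero (MvPolynomial.aeval (mv x' ρ' u))]
        · rw [hρ' _ (Finset.mem_biUnion.2 ⟨b, hb, mem_coeffs_iff.2
            ⟨k, mem_support_iff.2 h0, rfl⟩⟩)]
      -- the generic ζ
      have hfin : (⋃ b ∈ BB, ({ζ : F | ∃ k, ¬ v ((q x ρ b).coeff k) ≤
          v ((q x ρ b).eval (algebraMap F L ζ))} ∪
          {ζ : F | ∃ k, ¬ v ((q x' ρ' b).coeff k) ≤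
          v ((q x' ρ' b).eval (algebraMap F L ζ))} ∪
          {ζ : F | v (((sh u b).map φ).eval (ρ + algebraMap F L ζ * (z - ρ))) ≠
            v (((sh u b).map φ).eval z)})).Finite := by
        refine Set.Finite.biUnion (Finset.finite_toSet BB) (fun b hb => ?_)
        refine ((zeta_coeff v hv _).union (zeta_coeff v hv _)).union ?_
        refine zeta_near v hv _ (hp0 b (hd b hb).1) z ρ (fun a ha => hmin a ?_)
        exact Finset.mem_biUnion.2 ⟨b, hb, Multiset.mem_toFinset.2 ha⟩
      obtain ⟨ζ, hζ⟩ := hfin.exists_notMem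
      refine ⟨ρ' + algebraMap F L ζ * δ, fun b hb => ?_⟩
      have hζb : ζ ∉ ({ζ : F | ∃ k, ¬ v ((q x ρ b).coeff k) ≤
          v ((q x ρ b).eval (algebraMap F L ζ))} ∪
          {ζ : F | ∃ k, ¬ v ((q x' ρ' b).coeff k) ≤
          v ((q x' ρ' b).eval (algebraMap F L ζ))} ∪
          {ζ : F | v (((sh u b).map φ).eval (ρ + algebraMap F L ζ * (z - ρ))) ≠
            v (((sh u b).map φ).eval z)}) := by
        intro h
        exact hζ (Set.mem_biUnion hb h)
      rw [Set.mem_union, Set.mem_union, not_or, not_or] at hζb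
      obtain ⟨⟨g1, g2⟩, g3⟩ := hζb
      simp only [Set.mem_ofPred_eq, not_exists, not_not] at g1 g2 g3
      have e1 := eval_le88 v hv (q x ρ b) (q x' ρ' b) (hqv b hb) ζ g2
      have e2 := eval_le88 v hv (q x' ρ' b) (q x ρ b) (fun k => (hqv b hb k).symm) ζ g1
      have e3 := le_antisymm e1 e2
      rw [hq, hq] at e3
      rw [← e3, ← sh_eval, ← sh_eval]
      exact g3.symm
    · rw [Finset.not_nonempty_iff_eq_empty] at hR
      refine ⟨0, fun b hb => ?_⟩
      have hroots : ((sh u b).map φ).roots = 0 := by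
        have h1 : ((sh u b).map φ).roots.toFinset = ∅ := by
          rw [← Finset.subset_empty, ← hR]
          exact Finset.subset_biUnion_of_mem
            (fun b => ((sh u b).map φ).roots.toFinset) hb
        exact Multiset.toFinset_eq_empty.1 h1
      have hdeg : (sh u b).natDegree = 0 := by
        have hb0 : sh u b ≠ 0 := by
          intro h
          apply hp0 b (hd b hb).1
          rw [h, Polynomial.map_zero]
        have h1 := IsAlgClosed.card_roots_map_eq_natDegree_of_leadingCoeff_ne_zero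
          (p := sh u b) (f := φ) (hx _ (leadingCoeff_ne_zero.2 hb0))
        rw [← h1, hroots, Multiset.card_zero]
      rw [sh_const88 u b hdeg, sh_const88 u b hdeg]
      exact hvalBB b hb

end AK
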