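import Pool.Agent.Lib.MP_64d474_lc.AK.Sparse48

/-!
# Steps for the sparse class
-/

set_option autoImplicit false

namespace AK

open Polynomial

universe u

/-- One step of `SS`. -/
def st48 (p : ℕ × ℕ) : ℕ × ℕ :=
  (((p.2 + 1) * (p.2 + 1) * p.1 + 1) ^ (2 * p.2 ^ 2 * (p.2 + 1)), 2 * p.2 ^ 2 * (p.2 + 1) * p.2)

theorem SS_succ48 (m : ℕ) : ∀ p : ℕ × ℕ, SS (m + 1) p = st48 (SS m p) := by
  induction m with
  | zero => intro p; rfl
  | succ m ih =>
    intro p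
    have h : SS (m + 1 + 1) p = SS (m + 1) (st48 p) := rfl
    rw [h, ih]
    rfl

theorem SS_pos48 (m s d : ℕ) (hd : 1 ≤ d) : 1 ≤ (SS m (s, d)).2 := by
  induction m with
  | zero => exact hd
  | succ m ih =>
    rw [SS_succ48]
    have h1 : 0 < (SS m (s, d)).2 := ih
    change 0 < 2 * (SS m (s, d)).2 ^ 2 * ((SS m (s, d)).2 + 1) * (SS m (s, d)).2
    positivity

/-- The sparse classes admit steps, from row SG. -/
theorem steps_sparse_of {F : Type u} [Field F] {n s d : ℕ} (hd : 1 ≤ d)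
    (hstep : ∀ (E : ℕ) (_ : 1 ≤ E) (u : Fin n → F) (BB : Finset (MvPolynomial (Fin n) F))
      (_ : ∀ b ∈ BB, b ≠ 0) (_ : ∀ b ∈ BB, (sh u b).natDegree ≤ E),
      ∃ BB' : Finset (MvPolynomial (Fin n) F),
        (∀ b ∈ BB', b ≠ 0 ∧ Expr u E (2 * E ^ 2 * (E + 1)) BB b) ∧ StepProp u BB BB') :
    Steps (F := F) (n := n) fun m b => Sparse (SS m (s, d)).1 (SS m (s, d)).2 b := by
  intro m i BB hBB
  obtain ⟨BB', h1, h2⟩ := hstep (SS m (s, d)).2 (SS_pos48 m s d hd) (Pi.single i 1) BB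
    (fun b hb => (hBB b hb).1)
    (fun b hb => (sh_natDegree_degreeOf i b).trans ((hBB b hb).2.2 i))
  refine ⟨BB', fun b hb => ⟨(h1 b hb).1, ?_⟩, h2⟩
  have h3 := expr_sparse (s := (SS m (s, d)).1) i BB (fun b hb => (hBB b hb).2) b (h1 b hb).2
  change Sparse (SS (m + 1) (s, d)).1 (SS (m + 1) (s, d)).2 b
  rw [SS_succ48]
  exact h3

end AK
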