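import Pool.Agent.Lib.MP_64d474_lc.AK.SG2
import Pool.Agent.Lib.MP_64d474_lc.AK.Steps48

set_option autoImplicit false

/-!
# The sparse classes admit steps
-/

namespace AK

universe u

theorem steps_sparse {F : Type u} [Field F] [Infinite F] {n s d : ℕ} (hd : 1 ≤ d) :
    Steps (F := F) (n := n) fun m b => Sparse (SS m (s, d)).1 (SS m (s, d)).2 b :=
  steps_sparse_of hd fun _ hE0 u BB h0 hE => step_gen hE0 u BB h0 hE

end AK
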