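import Pool.Agent.Lib.MP_64d474_lc.AK.Transfer97

/-!
# Row TE: transfer of values at a root, zero values included
-/

set_option autoImplicit false

namespace AK

open Polynomial

namespace TE7

section small

variable {L Γ : Type*} [Field L] [LinearOrderedCommGroupWithZero Γ] (v : Valuation L Γ)

theorem min2 (x y : L) (hx : x ≠ 0) (hy : y ≠ 0) : ∃ z : L, z ≠ 0 ∧ v z ≤ v x ∧ v z ≤ v y := by
  rcases le_total (v x) (v y) with h | h
  · exact ⟨x, hx, le_rfl, h⟩
  · exact ⟨y, hy, h, le_rfl⟩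

theorem small_all {κ : Type*} [Finite κ] (P : κ → L → Prop)
    (h : ∀ i, ∃ y : L, y ≠ 0 ∧ ∀ ε, v ε < v y → P i ε) :
    ∃ y : L, y ≠ 0 ∧ ∀ ε, v ε < v y → ∀ i, P i ε := by
  choose y hy hP using h
  rcases isEmpty_or_nonempty κ with hκ | hκ
  · exact ⟨1, one_ne_zero, fun ε _ i => hκ.elim i⟩
  · obtain ⟨i0, hi0⟩ := Finite.exists_min (fun i => v (y i))
    exact ⟨y i0, hy i0, fun ε hε i => hP i ε (lt_of_lt_of_le hε (hi0 i))⟩

theorem bound (p : L[X]) : ∃ y : L, y ≠ 0 ∧ ∀ ε, v ε ≤ 1 → v (p.eval ε) ≤ v y := by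
  induction p using Polynomial.induction_on' with
  | add p q hp hq =>
    obtain ⟨a, ha, hpa⟩ := hp
    obtain ⟨b, hb, hqb⟩ := hq
    rcases le_total (v a) (v b) with h | h
    · refine ⟨b, hb, fun ε hε => ?_⟩
      rw [eval_add]
      exact v.map_add_le ((hpa ε hε).trans h) (hqb ε hε)
    · refine ⟨a, ha, fun ε hε => ?_⟩
      rw [eval_add]
      exact v.map_add_le (hpa ε hε) ((hqb ε hε).trans h)
  | monomial n a =>
    have key : ∀ ε, v ε ≤ 1 → v ((monomial n a : L[X]).eval ε) ≤ v a := by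
      intro ε hε
      rw [eval_monomial, map_mul, map_pow]
      exact mul_le_of_le_one_right' (pow_le_one' hε n)
    by_cases ha : a = 0
    · refine ⟨1, one_ne_zero, fun ε hε => (key ε hε).trans ?_⟩
      rw [ha, map_zero]
      exact zero_le
    · exact ⟨a, ha, key⟩

theorem const_dom (p : L[X]) (h : p.coeff 0 ≠ 0) :
    ∃ y : L, y ≠ 0 ∧ ∀ ε, v ε < v y → v (p.eval ε) = v (p.coeff 0) := by
  obtain ⟨μ, hμ, hb⟩ := bound v p.divX
  obtain ⟨y, hy, hy1, hy2⟩ := min2 v 1 (p.coeff 0 * μ⁻¹) one_ne_zero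
    (mul_ne_zero h (inv_ne_zero hμ))
  rw [map_one] at hy1
  rw [map_mul, map_inv₀] at hy2
  have hμ' : v μ ≠ 0 := v.ne_zero_iff.2 hμ
  refine ⟨y, hy, fun ε hε => ?_⟩
  have h1 : v ε ≤ 1 := (lt_of_lt_of_le hε hy1).le
  have h2 : v ε < v (p.coeff 0) * (v μ)⁻¹ := lt_of_lt_of_le hε hy2
  have h3 : v (p.divX.eval ε * ε) < v (p.coeff 0) := by
    rw [map_mul]
    calc v (p.divX.eval ε) * v ε ≤ v μ * v ε := by gcongr; exact hb ε h1
      _ < v μ * (v (p.coeff 0) * (v μ)⁻¹) := by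
          exact (mul_lt_mul_iff_right₀ (zero_lt_iff.2 hμ')).2 h2
      _ = v (p.coeff 0) := by
          rw [mul_comm, mul_assoc, inv_mul_cancel₀ hμ', mul_one]
  conv_lhs => rw [← divX_mul_X_add p]
  rw [eval_add, eval_mul, eval_X, eval_C]
  exact v.map_add_eq_of_lt_right h3

theorem eq_small {A : Type*} [CommRing A] (φ ψ : A →+* L) (n : ℕ) :
    ∀ q : A[X], q.natDegree < n → (∀ k, v (φ (q.coeff k)) = v (ψ (q.coeff k))) →
    ∃ y : L, y ≠ 0 ∧ ∀ ε, v ε < v y → v (q.eval₂ φ ε) = v (q.eval₂ ψ ε) := by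
  induction n with
  | zero => intro q hq; omega
  | succ n ih =>
    intro q hq h
    by_cases h0 : φ (q.coeff 0) = 0
    · have h0' : ψ (q.coeff 0) = 0 := by
        have := h 0
        rw [h0, map_zero] at this
        exact v.zero_iff.1 this.symm
      by_cases hd : q.natDegree = 0
      · refine ⟨1, one_ne_zero, fun ε _ => ?_⟩
        rw [eq_C_of_natDegree_eq_zero hd, eval₂_C, eval₂_C, h0, h0']
      · obtain ⟨y, hy, hy'⟩ := ih q.divX (by rw [natDegree_divX_eq_natDegree_tsub_one]; omega)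
          (fun k => by rw [coeff_divX]; exact h _)
        refine ⟨y, hy, fun ε hε => ?_⟩
        have e : ∀ χ : A →+* L, χ (q.coeff 0) = 0 → q.eval₂ χ ε = q.divX.eval₂ χ ε * ε := by
          intro χ hχ
          conv_lhs => rw [← divX_mul_X_add q]
          rw [eval₂_add, eval₂_mul, eval₂_X, eval₂_C, hχ, add_zero]
        rw [e φ h0, e ψ h0', map_mul, map_mul, hy' ε hε]
    · have h0' : ψ (q.coeff 0) ≠ 0 := by
        intro hc
        have := h 0
        rw [hc, map_zero] at this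
        exact h0 (v.zero_iff.1 this)
      obtain ⟨y1, hy1, h1⟩ := const_dom v (q.map φ) (by rw [coeff_map]; exact h0)
      obtain ⟨y2, hy2, h2⟩ := const_dom v (q.map ψ) (by rw [coeff_map]; exact h0')
      obtain ⟨y, hy, hya, hyb⟩ := min2 v y1 y2 hy1 hy2
      refine ⟨y, hy, fun ε hε => ?_⟩
      have k1 := h1 ε (lt_of_lt_of_le hε hya)
      have k2 := h2 ε (lt_of_lt_of_le hε hyb)
      rw [eval_map, coeff_map] at k1 k2
      rw [k1, k2, h 0]

end small

end TE7

open TE7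

/-- Row TE: transfer of the values of finitely many polynomials at a root, zero values included. -/
theorem transfer_eps {A L Γ ι : Type*} [CommRing A] [Field L] [IsAlgClosed L]
    [LinearOrderedCommGroupWithZero Γ] (v : Valuation L Γ) (hnt : ∃ a : L, v a ≠ 0 ∧ v a < 1)
    (φ ψ : A →+* L) (B : A[X])
    (hφ : φ B.leadingCoeff ≠ 0) (hψ : ψ B.leadingCoeff ≠ 0)
    (hv : v (φ B.leadingCoeff) = v (ψ B.leadingCoeff)) [Finite ι]
    (P : ι → A[X]) (M : ℕ) (hP : ∀ i, (P i).natDegree ≤ M)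
    (hchi : ∀ (i : Fin B.natDegree → ι) (c : Fin B.natDegree → ℕ), (∀ m, c m ≤ B.natDegree + 1) →
      ∀ j k, v (φ (((chi (B.map C) (∏ m, ((P (i m)).map C + C X) ^ c m) B.natDegree
          (B.natDegree * (B.natDegree + 1) * M)).coeff j).coeff k)) =
        v (ψ (((chi (B.map C) (∏ m, ((P (i m)).map C + C X) ^ c m) B.natDegree
          (B.natDegree * (B.natDegree + 1) * M)).coeff j).coeff k)))
    {a : L} (ha : a ∈ (B.map φ).roots) :
    ∃ b ∈ (B.map ψ).roots, ∀ i, v (((P i).map φ).eval a) = v (((P i).map ψ).eval b) := by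
  classical
  have : Nontrivial A := φ.domain_nontrivial
  have hCinj : Function.Injective (C : A →+* A[X]) := C_injective
  have hBd : (B.map (C : A →+* A[X])).natDegree = B.natDegree :=
    natDegree_map_eq_of_injective hCinj B
  have hBl : (B.map (C : A →+* A[X])).leadingCoeff = C B.leadingCoeff :=
    leadingCoeff_map_of_injective hCinj B
  -- smallness
  obtain ⟨γ1, hγ1, H1⟩ := small_all v
    (P := fun (t : (Fin B.natDegree → ι) × (Fin B.natDegree → Fin (B.natDegree + 2))) ε =>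
      ∀ j, v (((chi (B.map C) (∏ m, ((P (t.1 m)).map C + C X) ^ (t.2 m : ℕ)) B.natDegree
          (B.natDegree * (B.natDegree + 1) * M)).coeff j).eval₂ φ ε) =
        v (((chi (B.map C) (∏ m, ((P (t.1 m)).map C + C X) ^ (t.2 m : ℕ)) B.natDegree
          (B.natDegree * (B.natDegree + 1) * M)).coeff j).eval₂ ψ ε)) (fun t => by
      set q := chi (B.map C) (∏ m, ((P (t.1 m)).map C + C X) ^ (t.2 m : ℕ)) B.natDegree
          (B.natDegree * (B.natDegree + 1) * M) with hq
      obtain ⟨γ, hγ, H⟩ := small_all v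
        (P := fun (j : Fin (q.natDegree + 1)) ε => v ((q.coeff j).eval₂ φ ε) =
          v ((q.coeff j).eval₂ ψ ε)) (fun j =>
          eq_small v φ ψ _ (q.coeff j) (Nat.lt_succ_self _) (fun k =>
            hchi t.1 (fun m => t.2 m) (fun m => by have := (t.2 m).2; omega) j k))
      refine ⟨γ, hγ, fun ε hε j => ?_⟩
      by_cases hj : j < q.natDegree + 1
      · exact H ε hε ⟨j, hj⟩
      · rw [coeff_eq_zero_of_natDegree_lt (by omega), eval₂_zero, eval₂_zero])
  obtain ⟨γ2, hγ2, H2⟩ := small_all v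
    (P := fun (i : ι) ε => ((P i).map φ).eval a ≠ 0 → v ε < v (((P i).map φ).eval a)) (fun i => by
      by_cases h : ((P i).map φ).eval a = 0
      · exact ⟨1, one_ne_zero, fun ε _ h' => absurd h h'⟩
      · exact ⟨_, h, fun ε hε _ => hε⟩)
  obtain ⟨γ3, hγ3, H3⟩ := small_all v
    (P := fun (t : ι × {b // b ∈ (B.map ψ).roots.toFinset}) ε =>
      ((P t.1).map ψ).eval t.2.1 ≠ 0 → v ε < v (((P t.1).map ψ).eval t.2.1)) (fun t => by
      by_cases h : ((P t.1).map ψ).eval t.2.1 = 0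
      · exact ⟨1, one_ne_zero, fun ε _ h' => absurd h h'⟩
      · exact ⟨_, h, fun ε hε _ => hε⟩)
  obtain ⟨y0, hy0, hy1, hy2⟩ := min2 v γ1 γ2 hγ1 hγ2
  obtain ⟨y, hy, hy3, hy4⟩ := min2 v y0 γ3 hy0 hγ3
  obtain ⟨t, ht0, ht1⟩ := hnt
  have ht : t ≠ 0 := v.ne_zero_iff.1 ht0
  have hvy : v y ≠ 0 := v.ne_zero_iff.2 hy
  have hε : v (t * y) < v y := by
    rw [map_mul]
    calc v t * v y < 1 * v y := (mul_lt_mul_iff_left₀ (zero_lt_iff.2 hvy)).2 ht1
      _ = v y := one_mul _
  obtain ⟨ε, hε0, hε⟩ : ∃ ε : L, ε ≠ 0 ∧ v ε < v y := ⟨t * y, mul_ne_zero ht hy, hε⟩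
  have e1 := H1 ε (lt_of_lt_of_le hε (hy3.trans hy1))
  have e2 := H2 ε (lt_of_lt_of_le hε (hy3.trans hy2))
  have e3 := H3 ε (lt_of_lt_of_le hε hy4)
  -- the extended homomorphisms
  have hPd : ∀ i, ((P i).map (C : A →+* A[X]) + C X).natDegree ≤ M := by
    intro i
    refine (natDegree_add_le _ _).trans (max_le ?_ ?_)
    · exact natDegree_map_le.trans (hP i)
    · rw [natDegree_C]; exact Nat.zero_le _
  have hcomp : ∀ χ : A →+* L, (eval₂RingHom χ ε).comp (C : A →+* A[X]) = χ := by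
    intro χ
    ext x
    simp
  have hmapB : ∀ χ : A →+* L, (B.map (C : A →+* A[X])).map (eval₂RingHom χ ε) = B.map χ := by
    intro χ
    rw [Polynomial.map_map, hcomp]
  have hmapP : ∀ (χ : A →+* L) (i : ι) (x : L),
      (((P i).map (C : A →+* A[X]) + C X).map (eval₂RingHom χ ε)).eval x =
        ((P i).map χ).eval x + ε := by
    intro χ i x
    rw [Polynomial.map_add, Polynomial.map_map, hcomp, eval_add, map_C, eval_C]
    simp
  have hadd : ∀ x : L, (x ≠ 0 → v ε < v x) → v (x + ε) = if x = 0 then v ε else v x := by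
    intro x hx
    by_cases h : x = 0
    · rw [if_pos h, h, zero_add]
    · rw [if_neg h]
      exact v.map_add_eq_of_lt_left (hx h)
  have hvε : v ε ≠ 0 := v.ne_zero_iff.2 hε0
  obtain ⟨b, hb, hb2⟩ := transfer v (eval₂RingHom φ ε) (eval₂RingHom ψ ε)
    (B.map (C : A →+* A[X])) (by rw [hBl]; simpa using hφ) (by rw [hBl]; simpa using hψ)
    (by rw [hBl]; simpa using hv) (fun i => (P i).map (C : A →+* A[X]) + C X) M hPd
    (by
      rw [hBd]
      intro i c hc j
      have := e1 (i, fun m => ⟨c m, by have := hc m; omega⟩) j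
      simpa using this)
    (a := a) (by rw [hmapB]; exact ha) (by
      intro i h0
      rw [hmapP] at h0
      have h1 := hadd _ (e2 i)
      rw [h0, map_zero] at h1
      split_ifs at h1 with h2
      · exact hvε h1.symm
      · exact h2 (v.zero_iff.1 h1.symm))
  rw [hmapB] at hb
  refine ⟨b, hb, fun i => ?_⟩
  have h1 := hb2 i
  rw [hmapP, hmapP, hadd _ (e2 i), hadd _ (e3 (i, ⟨b, Multiset.mem_toFinset.2 hb⟩))] at h1
  split_ifs at h1 with h2 h3 h3
  · rw [h2, h3]
  · exact absurd (e3 (i, ⟨b, Multiset.mem_toFinset.2 hb⟩) h3)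
      (by simp only; rw [← h1]; exact lt_irrefl _)
  · exact absurd (e2 i h2) (by rw [h1]; exact lt_irrefl _)
  · exact h1

end AK
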