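import Pool.Agent.Lib.MP_64d474_lc.AK.Chi97
import Pool.Agent.Lib.MP_64d474_lc.AK.Sep86
import Pool.Agent.Lib.MP_64d474_lc.AK.Newton69

/-! # Row T: transfer -/

set_option autoImplicit false

namespace AK

open Polynomial

theorem transfer {A L Γ ι : Type*} [CommRing A] [Field L] [IsAlgClosed L]
    [LinearOrderedCommGroupWithZero Γ] (v : Valuation L Γ) (φ ψ : A →+* L) (B : A[X])
    (hφ : φ B.leadingCoeff ≠ 0) (hψ : ψ B.leadingCoeff ≠ 0)
    (hv : v (φ B.leadingCoeff) = v (ψ B.leadingCoeff))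
    (P : ι → A[X]) (M : ℕ) (hP : ∀ i, (P i).natDegree ≤ M)
    (hchi : ∀ (i : Fin B.natDegree → ι) (c : Fin B.natDegree → ℕ), (∀ m, c m ≤ B.natDegree + 1) →
      ∀ j, v (φ ((chi B (∏ m, P (i m) ^ c m) B.natDegree
          (B.natDegree * (B.natDegree + 1) * M)).coeff j)) =
        v (ψ ((chi B (∏ m, P (i m) ^ c m) B.natDegree
          (B.natDegree * (B.natDegree + 1) * M)).coeff j)))
    {a : L} (ha : a ∈ (B.map φ).roots) (hφP : ∀ i, ((P i).map φ).eval a ≠ 0) :
    ∃ b ∈ (B.map ψ).roots, ∀ i, v (((P i).map φ).eval a) = v (((P i).map ψ).eval b) := by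
  by_contra hcon
  push Not at hcon
  have hdφ : (B.map φ).natDegree = B.natDegree := natDegree_map_of_leadingCoeff_ne_zero φ hφ
  have hdψ : (B.map ψ).natDegree = B.natDegree := natDegree_map_of_leadingCoeff_ne_zero ψ hψ
  have hlφ : (B.map φ).leadingCoeff = φ B.leadingCoeff :=
    leadingCoeff_map_of_leadingCoeff_ne_zero φ hφ
  have hlψ : (B.map ψ).leadingCoeff = ψ B.leadingCoeff :=
    leadingCoeff_map_of_leadingCoeff_ne_zero ψ hψ
  have hcard : (B.map ψ).roots.toList.length = B.natDegree := by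
    rw [Multiset.length_toList, ← hdψ, (IsAlgClosed.splits (B.map ψ)).natDegree_eq_card_roots]
  obtain ⟨i, c, hc, hne⟩ := sep B.natDegree (fun i => v (((P i).map φ).eval a))
    (fun l i => v (((P i).map ψ).eval ((B.map ψ).roots.toList.get (Fin.cast hcard.symm l))))
    (fun i => (Valuation.ne_zero_iff v).2 (hφP i))
    (fun l => hcon _ (Multiset.mem_toList.1 (List.get_mem _ _)))
  obtain ⟨Q, hQ⟩ : ∃ Q : A[X], Q = ∏ m, P (i m) ^ c m := ⟨_, rfl⟩
  obtain ⟨N, hN⟩ : ∃ N : ℕ, N = B.natDegree * (B.natDegree + 1) * M := ⟨_, rfl⟩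
  have hQd : Q.natDegree ≤ N := by
    rw [hQ, hN]
    refine (natDegree_prod_le _ _).trans ?_
    calc ∑ m, (P (i m) ^ c m).natDegree ≤ ∑ _m : Fin B.natDegree, (B.natDegree + 1) * M := by
          refine Finset.sum_le_sum fun m _ => ?_
          exact natDegree_pow_le.trans (Nat.mul_le_mul (hc m) (hP _))
      _ = B.natDegree * (B.natDegree + 1) * M := by
          rw [Finset.sum_const, Finset.card_univ, Fintype.card_fin, smul_eq_mul, mul_assoc]
  have key : ∀ (θ : A →+* L), (B.map θ).natDegree = B.natDegree →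
      (B.map θ).leadingCoeff = θ B.leadingCoeff → ∀ j,
      θ ((chi B Q B.natDegree N).coeff j) = (θ B.leadingCoeff) ^ N *
        ((((B.map θ).roots.map fun x => (Q.map θ).eval x).map fun x => X - C x).prod.coeff j) := by
    intro θ h1 h2 j
    rw [← coeff_map, chi_map, ← h1, chi_eq_prod _ _ _ (natDegree_map_le.trans hQd), coeff_C_mul,
      h2, Multiset.map_map]
    rfl
  have hcoef : ∀ j, v ((((B.map φ).roots.map fun x => (Q.map φ).eval x).map
      fun x => X - C x).prod.coeff j) =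
      v ((((B.map ψ).roots.map fun x => (Q.map ψ).eval x).map fun x => X - C x).prod.coeff j) := by
    intro j
    have h := hchi i c hc j
    rw [← hQ, ← hN, key φ hdφ hlφ, key ψ hdψ hlψ, map_mul, map_mul, map_pow, map_pow, hv] at h
    exact mul_left_cancel₀ (pow_ne_zero _ ((Valuation.ne_zero_iff v).2 hψ)) h
  obtain ⟨q', hq', hvq⟩ := newton v _ _ hcoef (Multiset.mem_map_of_mem _ ha)
  obtain ⟨b, hb, rfl⟩ := Multiset.mem_map.1 hq'
  obtain ⟨l, hl⟩ := List.mem_iff_get.1 (Multiset.mem_toList.2 hb)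
  refine hne (Fin.cast hcard l) ?_
  have hprod : ∀ (θ : A →+* L) (x : L), v ((Q.map θ).eval x) =
      ∏ m, v (((P (i m)).map θ).eval x) ^ c m := by
    intro θ x
    rw [hQ, Polynomial.map_prod, eval_prod, map_prod]
    refine Finset.prod_congr rfl fun m _ => ?_
    rw [Polynomial.map_pow, eval_pow, map_pow]
  have h1 : (B.map ψ).roots.toList.get (Fin.cast hcard.symm (Fin.cast hcard l)) = b := hl
  show ∏ m, v (((P (i m)).map φ).eval a) ^ c m = ∏ m, v (((P (i m)).map ψ).eval
    ((B.map ψ).roots.toList.get (Fin.cast hcard.symm (Fin.cast hcard l)))) ^ c m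
  rw [h1, ← hprod, ← hprod, hvq]

end AK
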