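import Mathlib
import Pool.Agent.Lib.MP_64d474_lc.AK.Defs

set_option autoImplicit false

/-! Row X: the exchange. -/

namespace AK

universe u

namespace X87

open MvPolynomial Cardinal

/-- The exchange in the polynomial ring. -/
lemma exchange {F : Type u} [Field F] {n r : ℕ} (T : Fin r → MvPolynomial (Fin n) F)
    (hT : AlgebraicIndependent F T) :
    ∃ I : Finset (Fin n), I.card = r ∧
      AlgebraicIndependent F (Sum.elim T (fun i : {i // i ∉ I} => (X i.1 : MvPolynomial (Fin n) F))) := by
  classical
  have hX : IsTranscendenceBasis F (X : Fin n → MvPolynomial (Fin n) F) :=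
    IsTranscendenceBasis.mvPolynomial _ _
  have htr : Algebra.IsAlgebraic
      (Algebra.adjoin F (Set.range T ∪ Set.range (X : Fin n → MvPolynomial (Fin n) F)))
      (MvPolynomial (Fin n) F) := by
    constructor
    intro a
    have h1 : a ∈ Algebra.adjoin F
        (Set.range T ∪ Set.range (X : Fin n → MvPolynomial (Fin n) F)) := by
      have h2 : Algebra.adjoin F (Set.range (X : Fin n → MvPolynomial (Fin n) F)) = ⊤ :=
        MvPolynomial.adjoin_range_X
      have h3 : a ∈ Algebra.adjoin F (Set.range (X : Fin n → MvPolynomial (Fin n) F)) := by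
        rw [h2]; trivial
      exact Algebra.adjoin_mono Set.subset_union_right h3
    exact isAlgebraic_algebraMap (⟨a, h1⟩ : Algebra.adjoin F
        (Set.range T ∪ Set.range (X : Fin n → MvPolynomial (Fin n) F)))
  obtain ⟨B, hTB, hB, hbase⟩ := exists_isTranscendenceBasis_between (R := F) (Set.range T)
    (Set.range T ∪ Set.range (X : Fin n → MvPolynomial (Fin n) F)) Set.subset_union_left
    hT.to_subtype_range
  let I : Finset (Fin n) := Finset.univ.filter (fun i =>
    ¬ ((X i : MvPolynomial (Fin n) F) ∈ B ∧ (X i : MvPolynomial (Fin n) F) ∉ Set.range T))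
  have hI : ∀ i, i ∉ I ↔ ((X i : MvPolynomial (Fin n) F) ∈ B ∧
      (X i : MvPolynomial (Fin n) F) ∉ Set.range T) := by
    intro i
    simp [I]
  -- the family
  let g : Fin r ⊕ {i // i ∉ I} → B := Sum.elim (fun j => ⟨T j, hTB ⟨j, rfl⟩⟩)
    (fun i => ⟨X i.1, ((hI i.1).mp i.2).1⟩)
  have hg : Function.Bijective g := by
    constructor
    · intro a b hab
      have hab' : (g a).1 = (g b).1 := congrArg _ hab
      rcases a with a | a <;> rcases b with b | b
      · exact congrArg _ (hT.injective hab')
      · exfalso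
        exact ((hI b.1).mp b.2).2 ⟨a, hab'⟩
      · exfalso
        exact ((hI a.1).mp a.2).2 ⟨b, hab'.symm⟩
      · have := MvPolynomial.X_injective hab'
        exact congrArg _ (Subtype.ext this)
    · rintro ⟨b, hb⟩
      by_cases hbT : b ∈ Set.range T
      · obtain ⟨j, rfl⟩ := hbT
        exact ⟨Sum.inl j, rfl⟩
      · rcases hB hb with h | ⟨i, rfl⟩
        · exact absurd h hbT
        · exact ⟨Sum.inr ⟨i, (hI i).mpr ⟨hb, hbT⟩⟩, rfl⟩
  refine ⟨I, ?_, ?_⟩
  · have h1 := hX.lift_cardinalMk_eq hbase
    have h2 : Cardinal.mk (Fin r ⊕ {i // i ∉ I}) = Cardinal.mk (Fin r ⊕ {i // i ∉ I}) := rfl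
    have h3 := Cardinal.lift_mk_eq'.mpr ⟨Equiv.ofBijective g hg⟩
    have h4 : Cardinal.lift.{u, 0} (Cardinal.mk (Fin n)) =
        Cardinal.lift.{u, 0} (Cardinal.mk (Fin r ⊕ {i // i ∉ I})) := by
      rw [h3]
      simpa using h1
    have h5 : Cardinal.mk (Fin n) = Cardinal.mk (Fin r ⊕ {i // i ∉ I}) :=
      Cardinal.lift_injective h4
    have h6 : Fintype.card (Fin n) = Fintype.card (Fin r ⊕ {i // i ∉ I}) := by
      rw [Cardinal.mk_fintype, Cardinal.mk_fintype] at h5
      exact_mod_cast h5
    rw [Fintype.card_sum, Fintype.card_fin, Fintype.card_fin] at h6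
    have h7 : Fintype.card {i // i ∉ I} = n - I.card := by
      rw [Fintype.card_subtype_compl]
      simp
    have h8 : I.card ≤ n := by simpa using Finset.card_le_univ I
    omega
  · have h1 := hbase.1.comp g hg.1
    convert h1 using 1
    ext x
    rcases x with x | x <;> rfl

lemma exists_field (F : Type u) [Field F] (n : ℕ) :
    ∃ (L : Type u) (_ : Field L) (_ : IsAlgClosed L) (_ : Algebra F L) (x w : Fin n → L),
      AlgebraicIndependent F (Sum.elim x w) := by
  let P := MvPolynomial (Fin n ⊕ Fin n) F
  have hφ : Function.Injective (IsScalarTower.toAlgHom F P (AlgebraicClosure (FractionRing P))) := by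
    have h1 : Function.Injective (algebraMap P (FractionRing P)) := IsFractionRing.injective _ _
    have h2 : Function.Injective (algebraMap (FractionRing P) (AlgebraicClosure (FractionRing P))) :=
      (algebraMap (FractionRing P) (AlgebraicClosure (FractionRing P))).injective
    intro a b hab
    apply h1
    apply h2
    rw [← IsScalarTower.algebraMap_apply P (FractionRing P) (AlgebraicClosure (FractionRing P)) a,
      ← IsScalarTower.algebraMap_apply P (FractionRing P) (AlgebraicClosure (FractionRing P)) b]
    exact hab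
  refine ⟨AlgebraicClosure (FractionRing P), inferInstance, inferInstance, inferInstance,
    fun i => IsScalarTower.toAlgHom F P (AlgebraicClosure (FractionRing P)) (X (Sum.inl i)),
    fun i => IsScalarTower.toAlgHom F P (AlgebraicClosure (FractionRing P)) (X (Sum.inr i)), ?_⟩
  have h1 := (MvPolynomial.algebraicIndependent_X (Fin n ⊕ Fin n) F).map' hφ
  have h2 : (Sum.elim
      (fun i => IsScalarTower.toAlgHom F P (AlgebraicClosure (FractionRing P)) (X (Sum.inl i)))
      (fun i => IsScalarTower.toAlgHom F P (AlgebraicClosure (FractionRing P)) (X (Sum.inr i)))) =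
      (IsScalarTower.toAlgHom F P (AlgebraicClosure (FractionRing P))) ∘ X := by
    funext a
    rcases a with a | a <;> rfl
  rw [h2]
  exact h1

section

variable {F : Type u} [Field F] {n r : ℕ} {L : Type u} [Field L] [Algebra F L]
  (T : Fin r → MvPolynomial (Fin n) F) (I : Finset (Fin n)) (x w : Fin n → L)

/-- The family of the `T j (w)` and the `w i`, `i ∉ I`. -/
noncomputable def yy : Fin r ⊕ {i // i ∉ I} → L :=
  Sum.elim (fun j => MvPolynomial.aeval w (T j)) (fun i => w i.1)

lemma yy_indep (hind : AlgebraicIndependent F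
      (Sum.elim T (fun i : {i // i ∉ I} => (X i.1 : MvPolynomial (Fin n) F))))
    (hxw : AlgebraicIndependent F (Sum.elim x w)) : AlgebraicIndependent F (yy T I w) := by
  have hsw := AlgebraicIndependent.sumElim_iff.mp hxw
  have hinj : Function.Injective (MvPolynomial.aeval w : MvPolynomial (Fin n) F →ₐ[F] L) := hsw.1
  have h1 := hind.map' hinj
  have h2 : yy T I w = (MvPolynomial.aeval w : MvPolynomial (Fin n) F →ₐ[F] L) ∘
      (Sum.elim T (fun i : {i // i ∉ I} => (X i.1 : MvPolynomial (Fin n) F))) := by
    funext a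
    rcases a with a | a
    · rfl
    · simp [yy]
  rw [h2]
  exact h1

lemma xy_indep (hind : AlgebraicIndependent F
      (Sum.elim T (fun i : {i // i ∉ I} => (X i.1 : MvPolynomial (Fin n) F))))
    (hxw : AlgebraicIndependent F (Sum.elim x w)) :
    AlgebraicIndependent F (Sum.elim x (yy T I w)) := by
  have hsw := AlgebraicIndependent.sumElim_iff.mp hxw
  have hyw : Algebra.adjoin F (Set.range (yy T I w)) ≤ Algebra.adjoin F (Set.range w) := by
    apply Algebra.adjoin_le
    rintro _ ⟨a, rfl⟩
    rcases a with a | a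
    · change MvPolynomial.aeval w (T a) ∈ _
      rw [Algebra.adjoin_range_eq_range_aeval]
      exact ⟨T a, rfl⟩
    · exact Algebra.subset_adjoin ⟨a.1, rfl⟩
  refine (yy_indep T I x w hind hxw).sumElim_of_tower
    (S := Algebra.adjoin F (Set.range w)) ?_ hsw.2
  rintro _ ⟨a, rfl⟩
  exact ⟨⟨yy T I w a, hyw (Algebra.subset_adjoin ⟨a, rfl⟩)⟩, rfl⟩

lemma To_indep (hind : AlgebraicIndependent F
      (Sum.elim T (fun i : {i // i ∉ I} => (X i.1 : MvPolynomial (Fin n) F))))
    (hxw : AlgebraicIndependent F (Sum.elim x w)) :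
    AlgebraicIndependent F (Sum.elim (fun j => MvPolynomial.aeval w (T j))
      (fun i => if i ∈ I then x i else w i)) := by
  classical
  let e : Fin r ⊕ Fin n → Fin n ⊕ (Fin r ⊕ {i // i ∉ I}) :=
    Sum.elim (fun j => Sum.inr (Sum.inl j))
      (fun i => if h : i ∈ I then Sum.inl i else Sum.inr (Sum.inr ⟨i, h⟩))
  have he : Function.Injective e := by
    intro a b hab
    rcases a with a | a <;> rcases b with b | b
    · simpa [e] using hab
    · exfalso
      by_cases h : b ∈ I <;> simp [e, h] at hab
    · exfalso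
      by_cases h : a ∈ I <;> simp [e, h] at hab
    · by_cases h : a ∈ I <;> by_cases h' : b ∈ I <;> simp [e, h, h'] at hab ⊢ <;> exact hab
  have h1 := (xy_indep T I x w hind hxw).comp e he
  have h2 : (Sum.elim (fun j => MvPolynomial.aeval w (T j))
      (fun i => if i ∈ I then x i else w i)) = Sum.elim x (yy T I w) ∘ e := by
    funext a
    rcases a with a | a
    · rfl
    · by_cases h : a ∈ I <;> simp [e, yy, h]
  rw [h2]
  exact h1

lemma gen_pt (hxw : AlgebraicIndependent F (Sum.elim x w)) (J : Finset (Fin n)) (hJ : J ⊆ I) :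
    Gen F (fun i => (if i ∈ I then x i else w i) + if i ∈ J then w i - x i else 0) := by
  classical
  intro a ha
  let e : Fin n → Fin n ⊕ Fin n := fun i =>
    if i ∈ J then Sum.inr i else if i ∈ I then Sum.inl i else Sum.inr i
  have he : Function.Injective e := by
    intro a b hab
    have h1 : ∀ i, Sum.elim id id (e i) = i := by
      intro i
      by_cases h : i ∈ J
      · simp [e, h]
      · by_cases h' : i ∈ I <;> simp [e, h, h']
    rw [← h1 a, ← h1 b, hab]
  have h1 := hxw.comp e he
  have h2 : (fun i => (if i ∈ I then x i else w i) + if i ∈ J then w i - x i else 0) =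
      Sum.elim x w ∘ e := by
    funext i
    by_cases h : i ∈ J
    · simp [e, h, hJ h]
    · by_cases h' : i ∈ I <;> simp [e, h, h']
  rw [h2]
  intro h3
  exact ha ((injective_iff_map_eq_zero _).mp h1 a h3)

end

end X87

theorem exists_split {F : Type u} [Field F] {n r : ℕ} (T : Fin r → MvPolynomial (Fin n) F)
    (hT : AlgebraicIndependent F T) :
    ∃ (I : Finset (Fin n)) (L : Type u) (_ : Field L) (_ : IsAlgClosed L) (_ : Algebra F L)
      (k : IntermediateField F L) (o z : Fin n → L), I.card = r ∧ (∀ i, o i ∈ k) ∧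
      (∀ J ⊆ I, Gen F fun i => o i + if i ∈ J then z i else 0) ∧
      AlgebraicIndependent k fun j => MvPolynomial.aeval (fun i => o i + if i ∈ I then z i else 0) (T j) := by
  classical
  obtain ⟨I, hI, hind⟩ := X87.exchange T hT
  obtain ⟨L, hL1, hL2, hL3, x, w, hxw⟩ := X87.exists_field F n
  have hpt : (fun i => (if i ∈ I then x i else w i) + if i ∈ I then w i - x i else 0) = w := by
    funext i
    by_cases h : i ∈ I <;> simp [h]
  refine ⟨I, L, hL1, hL2, hL3,
    IntermediateField.adjoin F (Set.range (fun i => if i ∈ I then x i else w i)),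
    (fun i => if i ∈ I then x i else w i), (fun i => w i - x i), hI, ?_, ?_, ?_⟩
  · intro i
    exact IntermediateField.subset_adjoin F _ ⟨i, rfl⟩
  · intro J hJ
    exact X87.gen_pt I x w hxw J hJ
  · rw [hpt]
    exact IntermediateField.algebraicIndependent_adjoin_iff.mpr
      (AlgebraicIndependent.sumElim_iff.mp (X87.To_indep T I x w hind hxw)).2

end AK
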