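import Pool.Agent.Lib.MP_64d474_lc.AK.Defs

set_option autoImplicit false

namespace AK

open MvPolynomial

universe u

namespace X95

/-- joint independence of `x` and `T(w)` in the polynomial ring -/
theorem indep_poly {F : Type u} [Field F] {n r : ℕ} (T : Fin r → MvPolynomial (Fin n) F)
    (hT : AlgebraicIndependent F T) :
    AlgebraicIndependent F (Sum.elim
      (fun j : Fin r => aeval (fun i => (X (Sum.inl i) + X (Sum.inr i) :
        MvPolynomial (Fin n ⊕ Fin n) F)) (T j))
      (fun i : Fin n => (X (Sum.inl i) : MvPolynomial (Fin n ⊕ Fin n) F))) := by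
  -- over `S = F[w]`
  have h1 : AlgebraicIndependent F (Sum.elim (X : Fin n → MvPolynomial (Fin n) (MvPolynomial (Fin n) F))
      (algebraMap (MvPolynomial (Fin n) F) (MvPolynomial (Fin n) (MvPolynomial (Fin n) F)) ∘ T)) :=
    AlgebraicIndependent.sumElim_comp hT (algebraicIndependent_X (Fin n) (MvPolynomial (Fin n) F))
  let e := (sumAlgEquiv F (Fin n) (Fin n)).symm
  let g : MvPolynomial (Fin n ⊕ Fin n) F →ₐ[F] MvPolynomial (Fin n ⊕ Fin n) F :=
    aeval (Sum.elim (fun i => X (Sum.inl i)) (fun i => X (Sum.inl i) + X (Sum.inr i)))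
  let g' : MvPolynomial (Fin n ⊕ Fin n) F →ₐ[F] MvPolynomial (Fin n ⊕ Fin n) F :=
    aeval (Sum.elim (fun i => X (Sum.inl i)) (fun i => X (Sum.inr i) - X (Sum.inl i)))
  have hg' : ∀ a, g' (g a) = a := by
    intro a
    have : g'.comp g = AlgHom.id F _ := by
      ext i
      rcases i with i | i <;> simp [g, g']
    exact DFunLike.congr_fun this a
  have hginj : Function.Injective g := Function.LeftInverse.injective hg'
  let G : MvPolynomial (Fin n) (MvPolynomial (Fin n) F) →ₐ[F] MvPolynomial (Fin n ⊕ Fin n) F :=
    g.comp e.toAlgHom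
  have hG : Function.Injective G := hginj.comp e.injective
  have h2 := h1.map' hG
  have hGX : ∀ i, G (X i) = X (Sum.inl i) := by
    intro i
    change g (e (X i)) = _
    rw [show e (X i) = X (Sum.inl i) from sumAlgEquiv_symm_X F (Fin n) (Fin n) i]
    simp [g]
  have hGC : ∀ a, G (C a) = aeval (fun i => (X (Sum.inl i) + X (Sum.inr i) :
        MvPolynomial (Fin n ⊕ Fin n) F)) a := by
    intro a
    have : G.comp (IsScalarTower.toAlgHom F (MvPolynomial (Fin n) F)
        (MvPolynomial (Fin n) (MvPolynomial (Fin n) F))) = aeval (fun i =>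
        (X (Sum.inl i) + X (Sum.inr i) : MvPolynomial (Fin n ⊕ Fin n) F)) := by
      apply MvPolynomial.algHom_ext
      intro i
      change g (e (C (X i))) = _
      rw [show e (C (X i)) = X (Sum.inr i) from sumAlgEquiv_symm_C_X F (Fin n) (Fin n) i]
      simp [g]
    exact DFunLike.congr_fun this a
  have h3 : (G ∘ Sum.elim (X : Fin n → MvPolynomial (Fin n) (MvPolynomial (Fin n) F))
      (algebraMap (MvPolynomial (Fin n) F) (MvPolynomial (Fin n) (MvPolynomial (Fin n) F)) ∘ T)) =
      Sum.elim (fun i : Fin n => (X (Sum.inl i) : MvPolynomial (Fin n ⊕ Fin n) F))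
      (fun j : Fin r => aeval (fun i => (X (Sum.inl i) + X (Sum.inr i) :
        MvPolynomial (Fin n ⊕ Fin n) F)) (T j)) := by
    funext s
    rcases s with i | j
    · exact hGX i
    · exact hGC (T j)
  rw [h3] at h2
  have h4 := h2.comp (Equiv.sumComm (Fin r) (Fin n)) (Equiv.injective _)
  convert h4 using 1
  funext s
  rcases s with i | j <;> rfl

/-- exchange: an independent family `f`, a transcendence basis `Sum.elim a z`, `f` containing `a`
(as its second component): some of the `z` complete `f` -/
theorem exchange {F L : Type u} [Field F] [Field L] [Algebra F L] {n r : ℕ}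
    (t : Fin r → L) (x z : Fin n → L)
    (hf : AlgebraicIndependent F (Sum.elim t x))
    (hb : IsTranscendenceBasis F (Sum.elim x z)) :
    ∃ I : Finset (Fin n), I.card = r ∧
      AlgebraicIndependent F (Sum.elim t (Sum.elim x (fun i : {i // i ∉ I} => z i))) := by
  classical
  set s : Set L := Set.range (Sum.elim t x) with hs
  set T : Set L := s ∪ Set.range z with hT
  have halg : Algebra.IsAlgebraic (Algebra.adjoin F T) L := by
    have h0 := hb.isAlgebraic
    have hsub : Set.range (Sum.elim x z) ⊆ T := by
      rintro _ ⟨i | i, rfl⟩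
      · exact Or.inl ⟨Sum.inr i, rfl⟩
      · exact Or.inr ⟨i, rfl⟩
    have hle : Algebra.adjoin F (Set.range (Sum.elim x z)) ≤ Algebra.adjoin F T :=
      Algebra.adjoin_mono hsub
    let _ : Algebra (Algebra.adjoin F (Set.range (Sum.elim x z))) (Algebra.adjoin F T) :=
      (Subalgebra.inclusion hle).toAlgebra
    have : IsScalarTower (Algebra.adjoin F (Set.range (Sum.elim x z))) (Algebra.adjoin F T) L :=
      .of_algebraMap_eq fun x => rfl
    exact Algebra.IsAlgebraic.extendScalars (R := Algebra.adjoin F (Set.range (Sum.elim x z)))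
      (Subalgebra.inclusion_injective hle)
  obtain ⟨B, hsB, hBT, hB⟩ := exists_isTranscendenceBasis_between (R := F) s T
    Set.subset_union_left hf.to_subtype_range
  -- the index set
  let I : Finset (Fin n) := Finset.univ.filter fun i => ¬ (z i ∈ B ∧ z i ∉ s)
  have hIc : ∀ i : {i // i ∉ I}, z i ∈ B ∧ z i ∉ s := by
    rintro ⟨i, hi⟩
    simpa [I] using hi
  have hzinj : Function.Injective z := fun i j h => by
    have := hb.1.injective (a₁ := Sum.inr i) (a₂ := Sum.inr j) h
    simpa using this
  let f : (Fin r ⊕ Fin n) ⊕ {i // i ∉ I} → L := Sum.elim (Sum.elim t x) (fun i => z i)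
  have hfinj : Function.Injective f := by
    apply Function.Injective.sumElim hf.injective
    · intro i j h
      exact Subtype.ext (hzinj h)
    · intro a i h
      exact (hIc i).2 ⟨a, h⟩
  have hfr : Set.range f = B := by
    apply Set.Subset.antisymm
    · rintro _ ⟨a | i, rfl⟩
      · exact hsB ⟨a, rfl⟩
      · exact (hIc i).1
    · intro b hbB
      by_cases hbs : b ∈ s
      · obtain ⟨a, rfl⟩ := hbs
        exact ⟨Sum.inl a, rfl⟩
      · rcases hBT hbB with h | ⟨i, rfl⟩
        · exact absurd h hbs
        · refine ⟨Sum.inr ⟨i, ?_⟩, rfl⟩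
          simp [I, hbB, hbs]
  have hfb : IsTranscendenceBasis F f := by
    let e : ((Fin r ⊕ Fin n) ⊕ {i // i ∉ I}) ≃ B :=
      (Equiv.ofInjective f hfinj).trans (Equiv.setCongr hfr)
    have h := (isTranscendenceBasis_equiv e).2 hB
    exact h
  have hcard := hfb.cardinalMk_eq hb
  have hcard2 : r + n + (n - I.card) = n + n := by
    have h1 : Fintype.card {i // i ∉ I} = n - I.card := by
      rw [Fintype.card_subtype_compl]
      simp
    simp only [Cardinal.mk_fintype, Fintype.card_sum, Fintype.card_fin, h1] at hcard
    exact_mod_cast hcard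
  have hIle : I.card ≤ n := by simpa using Finset.card_le_univ I
  refine ⟨I, by omega, ?_⟩
  have h5 := hfb.1.comp (Equiv.sumAssoc (Fin r) (Fin n) {i // i ∉ I}).symm (Equiv.injective _)
  convert h5 using 1
  funext a
  rcases a with j | i | i <;> rfl

end X95

/-! Row X (exchange). `L` = algebraic closure of `F(x, z)`, `k = F(x)(z_i, i ∉ I)`. -/
theorem exists_split {F : Type u} [Field F] {n r : ℕ} (T : Fin r → MvPolynomial (Fin n) F)
    (hT : AlgebraicIndependent F T) :
    ∃ (I : Finset (Fin n)) (L : Type u) (_ : Field L) (_ : IsAlgClosed L) (_ : Algebra F L)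
      (k : IntermediateField F L) (o z : Fin n → L), I.card = r ∧ (∀ i, o i ∈ k) ∧
      (∀ J ⊆ I, Gen F fun i => o i + if i ∈ J then z i else 0) ∧
      AlgebraicIndependent k fun j => MvPolynomial.aeval (fun i => o i + if i ∈ I then z i else 0) (T j) := by
  classical
  let P := MvPolynomial (Fin n ⊕ Fin n) F
  let L := AlgebraicClosure (FractionRing P)
  let emb : P →ₐ[F] L := IsScalarTower.toAlgHom F P L
  have hemb : Function.Injective emb := by
    have h : algebraMap P L = (algebraMap (FractionRing P) L).comp (algebraMap P (FractionRing P)) :=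
      IsScalarTower.algebraMap_eq _ _ _
    change Function.Injective (algebraMap P L)
    rw [h]
    exact (algebraMap (FractionRing P) L).injective.comp (IsFractionRing.injective P (FractionRing P))
  have hfs : FaithfulSMul P L := (faithfulSMul_iff_algebraMap_injective P L).2 hemb
  have hal1 : Algebra.IsAlgebraic P (FractionRing P) := IsLocalization.isAlgebraic (R := P) _ (nonZeroDivisors P)
  have hal : Algebra.IsAlgebraic P L := Algebra.IsAlgebraic.trans P (FractionRing P) L
  let x : Fin n → L := fun i => emb (X (Sum.inl i))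
  let z : Fin n → L := fun i => emb (X (Sum.inr i))
  have hb : IsTranscendenceBasis F (Sum.elim x z) := by
    have h := (IsTranscendenceBasis.mvPolynomial (Fin n ⊕ Fin n) F).algebraMap_comp (A := L)
    convert h using 1
    funext a
    rcases a with i | i <;> rfl
  let t : Fin r → L := fun j => aeval (fun i => x i + z i) (T j)
  have hf : AlgebraicIndependent F (Sum.elim t x) := by
    have h := (X95.indep_poly T hT).map' hemb
    convert h using 1
    funext a
    rcases a with j | i
    · change aeval (fun i => x i + z i) (T j) = (emb.comp (aeval (fun i =>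
        (X (Sum.inl i) + X (Sum.inr i) : MvPolynomial (Fin n ⊕ Fin n) F)))) (T j)
      congr 1
      apply MvPolynomial.algHom_ext
      intro i
      simp [x, z]
    · rfl
  obtain ⟨I, hI, hind⟩ := X95.exchange t x z hf hb
  let o : Fin n → L := fun i => x i + if i ∈ I then 0 else z i
  let y : Fin n ⊕ {i // i ∉ I} → L := Sum.elim x (fun i => z i)
  refine ⟨I, L, inferInstance, inferInstance, inferInstance,
    IntermediateField.adjoin F (Set.range y), o, z, hI, ?_, ?_, ?_⟩
  · intro i
    apply add_mem
    · exact IntermediateField.subset_adjoin _ _ ⟨Sum.inl i, rfl⟩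
    · by_cases hi : i ∈ I
      · simp [hi]
      · simp only [hi, if_false]
        exact IntermediateField.subset_adjoin _ _ ⟨Sum.inr ⟨i, hi⟩, rfl⟩
  · intro J hJ a ha h0
    -- specialise `z ↦ 0`
    let q : Fin n → P := fun i => X (Sum.inl i) + (if i ∈ I then 0 else X (Sum.inr i)) +
      if i ∈ J then X (Sum.inr i) else 0
    have hq : (fun i => o i + if i ∈ J then z i else 0) = fun i => emb (q i) := by
      funext i
      simp only [q, o, x, z, map_add]
      split_ifs <;> simp
    have h1 : emb (aeval q a) = 0 := by
      rw [← h0, ← AlgHom.comp_apply]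
      change _ = aeval (fun i => o i + if i ∈ J then z i else 0) a
      rw [hq]
      congr 1
      apply MvPolynomial.algHom_ext
      intro i
      simp
    have h2 : aeval q a = 0 := hemb (by rw [h1, map_zero])
    have h3 := congrArg (aeval (Sum.elim (X : Fin n → MvPolynomial (Fin n) F) 0)) h2
    rw [← AlgHom.comp_apply, map_zero] at h3
    have h4 : (aeval (Sum.elim (X : Fin n → MvPolynomial (Fin n) F) 0)).comp (aeval q) =
        AlgHom.id F (MvPolynomial (Fin n) F) := by
      apply MvPolynomial.algHom_ext
      intro i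
      simp only [q, AlgHom.comp_apply, aeval_X, map_add, Sum.elim_inl, AlgHom.id_apply]
      split_ifs <;> simp
    rw [h4] at h3
    exact ha h3
  · rw [IntermediateField.algebraicIndependent_adjoin_iff]
    have h := (AlgebraicIndependent.sumElim_iff.1 hind).2
    convert h using 1
    funext j
    change _ = aeval (fun i => x i + z i) (T j)
    congr 1
    congr 1
    funext i
    simp only [o]
    split_ifs <;> simp

end AK
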